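import Pool.Agent.H17.TB.Sort

/-!
# BACK : visibility by constants and letters of the atom itself
-/

set_option autoImplicit false

namespace Pool.H17.TB

open Pool.H22.VC Function Set Pool.H17.TA

variable {r : ℕ} {K ι κ κ' : Type} {N : Col r K ℕ} {A : Set ℕ} {e : ℕ → ι → ℕ}

/-- BACK. PROOF. Let `t` be an admissible context with different colours for `z` and `z'`
(`f`, `b = b'` large). Let `κb` be the finite set of the positions `p` used by `t` behind
(`t j = Sum.inr (Sum.inr (Sum.inr p))`), `β` the inclusion; `At`, `σ`, `ρ` (number of the atoms in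
`At` which are before), `lab` exist (`IsAt.total`, `IsAt.trans`). Apply `sorting` to `z` and to `z'`
with the same `β`, `m`, `m'` (large, and `f + m ≤ F'`, by choosing `m` larger: `m` is arbitrary):
the colours of the configurations `W` with the context (constants, front blocks `< f`) are
different; in `W` all letters outside `z` are in blocks `f + i < f + m` or are letters of `τ` behind
`z`. Let `F' = f + m`. So this is a context for `tl' e τ F'` over `AF A e F'`. -/
theorem back (hW : ¬ Wild N univ) (hH : Hom N A e) (hA : A.Finite) [Finite ι] [Finite κ]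
    [Finite κ'] {τ : κ → ι} (hτ : CA N A e τ) (z z' : κ' → ℕ × κ) (hz : Injective z)
    (hz' : Injective z')
    (h : ¬ Teq N A e (fun k => ((z k).1, τ (z k).2)) (fun k => ((z' k).1, τ (z' k).2))) :
    ∃ F₀, ∀ F, F₀ ≤ F → ¬ Teq N (AF A e F) (tl' e τ F) z z' := by
  classical
  unfold Teq at h
  push Not at h
  obtain ⟨f, b, b', hb, hb', hzb, hzb', t, ht, hne⟩ := h
  obtain ⟨k₀⟩ := hτ.nonempty hH
  -- the positions used behind
  let κb : Type := {p : ℕ × ι // ∃ j, t j = Sum.inr (Sum.inr (Sum.inr p))}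
  haveI : Finite κb := by
    have h1 : {p : ℕ × ι | ∃ j, t j = Sum.inr (Sum.inr (Sum.inr p))}.Finite := by
      have h2 : (range t).Finite := Set.finite_range t
      refine (h2.preimage (f := fun p : ℕ × ι =>
        (Sum.inr (Sum.inr (Sum.inr p)) : ℕ ⊕ ((ℕ × ι) ⊕ (κ' ⊕ (ℕ × ι)))))
        (fun p _ q _ hpq => ?_)).subset ?_
      · simpa using hpq
      · rintro p ⟨j, hj⟩
        exact ⟨j, hj⟩
    exact h1.to_subtype
  let β : κb → ℕ × ι := Subtype.val
  have hβ : Injective β := Subtype.val_injective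
  obtain ⟨m₀, hm₀⟩ : ∃ m₀, ∀ k, (β k).1 < m₀ := by
    obtain ⟨M, hM⟩ := (Set.finite_range (fun k => (β k).1)).bddAbove
    exact ⟨M + 1, fun k => Nat.lt_succ_of_le (hM ⟨k, rfl⟩)⟩
  -- atoms similar to `τ`
  let At : Set (Set κb) := {L | IsAt N A e β L ∧ Sim N A e (lt' β L) τ}
  have hσex : ∀ L : Set κb, ∃ σ : L → κ, L ∈ At → Bijective σ ∧
      Teq N A e (res L β) (blk 0 (fun k : L => τ (σ k))) := by
    intro L
    by_cases hL : L ∈ At
    · obtain ⟨σ, hσ⟩ := hL.2
      refine ⟨σ, fun _ => ⟨σ.bijective, ?_⟩⟩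
      obtain ⟨i, hi, -, -⟩ := hL.1.ca hH hβ
      have e1 : res L β = blk i (lt' β L) := by
        funext k
        exact Prod.ext (hi k k.2) rfl
      rw [e1]
      exact (teq_blk hH i 0 _).trans hσ
    · exact ⟨fun _ => k₀, fun h => absurd h hL⟩
  choose σ hσ using hσex
  let ρ : Set κb → ℕ := fun L =>
    {L' : Set κb | L' ∈ At ∧ L' ≠ L ∧ Bef N A e (res L' β) (res L β)}.ncard
  have hsim : ∀ L ∈ At, ∀ L' ∈ At, Sim N A e (lt' β L) (lt' β L') := fun L hL L' hL' =>
    Sim.trans hH hL.2 (Sim.symm hH hL'.2)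
  have hρ1 : ∀ L ∈ At, ∀ L' ∈ At, L ≠ L' → Bef N A e (res L β) (res L' β) → ρ L < ρ L' := by
    intro L hL L' hL' hne hb
    apply Set.ncard_lt_ncard
    · rw [Set.ssubset_iff_of_subset]
      · refine ⟨L, ⟨hL, hne, hb⟩, ?_⟩
        rintro ⟨-, h2, -⟩
        exact h2 rfl
      · rintro M ⟨h1, h2, h3⟩
        have h4 : Bef N A e (res M β) (res L' β) :=
          IsAt.trans hW hH hA hβ h1.1 hL.1 hL'.1 (hsim M h1 L hL) (hsim L hL L' hL') h3 hb
        refine ⟨h1, ?_, h4⟩
        rintro rfl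
        exact IsAt.asymm hH hβ hL.1 h1.1 (hsim L hL M h1) hb h3
    · exact Set.toFinite _
  have hρ : ∀ L ∈ At, ∀ L' ∈ At, L ≠ L' →
      (Bef N A e (res L β) (res L' β) ↔ ρ L < ρ L') := by
    intro L hL L' hL' hne
    refine ⟨hρ1 L hL L' hL' hne, fun hlt => ?_⟩
    rcases IsAt.total hW hH hA hβ hL.1 hL'.1 (hsim L hL L' hL') hne with h1 | h1
    · exact h1
    · have := hρ1 L' hL' L hL (Ne.symm hne) h1
      omega
  let lab : κb → Set κb := fun k => if h : ∃ L ∈ At, k ∈ L then h.choose else ∅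
  have hlab : ∀ k, (∃ L ∈ At, k ∈ L) → lab k ∈ At ∧ k ∈ lab k := by
    intro k hk
    simp only [lab, dif_pos hk]
    exact hk.choose_spec
  refine ⟨f + m₀, fun F hF hT => ?_⟩
  -- parameters
  obtain ⟨m, hm⟩ : ∃ m, m = F - f := ⟨_, rfl⟩
  obtain ⟨B, hB⟩ : ∃ B, B = b + b' := ⟨_, rfl⟩
  have hmF : f + m = F := by omega
  have hβm : ∀ k, (β k).1 < m := fun k => by have := hm₀ k; omega
  have hzB : ∀ k, (z k).1 < B := fun k => by
    have : f + (z k).1 < b := hzb k
    omega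
  have hzB' : ∀ k, (z' k).1 < B := fun k => by
    have : f + (z' k).1 < b' := hzb' k
    omega
  let W : κb → ℕ × ι := fun k => if h : ∃ L ∈ At, k ∈ L then
    (m + B + ρ (lab k), τ (σ (lab k) ⟨k, (hlab k h).2⟩)) else β k
  have hW1 : ∀ k, (∀ L ∈ At, k ∉ L) → W k = β k := by
    intro k hk
    have h1 : ¬ ∃ L ∈ At, k ∈ L := by
      rintro ⟨L, hL, hkL⟩
      exact hk L hL hkL
    simp only [W, dif_neg h1]
  have hW2 : ∀ k, (∃ L ∈ At, k ∈ L) → ∀ hk : k ∈ lab k,
      W k = (m + B + ρ (lab k), τ (σ (lab k) ⟨k, hk⟩)) := by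
    intro k hk hk'
    simp only [W, dif_pos hk]
  have hsort := fun (z : κ' → ℕ × κ) (hz : Injective z) (hzB : ∀ k, (z k).1 < B) =>
    sorting hW hH hA hτ z hz β hβ At (fun L => Iff.rfl) σ (fun L hL => hσ L hL) ρ hρ lab hlab
      m (m + B) hβm (Nat.le_add_right _ _) (fun k => Nat.add_lt_add_left (hzB k) m) B hzB W hW1 hW2
  -- the context for the configurations `Z`
  let t₁ : Fin r → ℕ ⊕ ((ℕ × ι) ⊕ ((κ' ⊕ κb) ⊕ (ℕ × ι))) := fun j =>
    match htj : t j with
    | Sum.inl a => Sum.inl a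
    | Sum.inr (Sum.inl p) => Sum.inr (Sum.inl p)
    | Sum.inr (Sum.inr (Sum.inl k)) => Sum.inr (Sum.inr (Sum.inl (Sum.inl k)))
    | Sum.inr (Sum.inr (Sum.inr p)) => Sum.inr (Sum.inr (Sum.inl (Sum.inr ⟨p, j, htj⟩)))
  have ht₁ : ∀ j, (∃ a, t j = Sum.inl a ∧ t₁ j = Sum.inl a) ∨
      (∃ p, t j = Sum.inr (Sum.inl p) ∧ t₁ j = Sum.inr (Sum.inl p)) ∨
      (∃ k, t j = Sum.inr (Sum.inr (Sum.inl k)) ∧
        t₁ j = Sum.inr (Sum.inr (Sum.inl (Sum.inl k)))) ∨
      ∃ q : κb, t j = Sum.inr (Sum.inr (Sum.inr q.1)) ∧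
        t₁ j = Sum.inr (Sum.inr (Sum.inl (Sum.inr q))) := by
    intro j
    simp only [t₁]
    split
    · rename_i a htj
      exact Or.inl ⟨a, htj, rfl⟩
    · rename_i p htj
      exact Or.inr (Or.inl ⟨p, htj, rfl⟩)
    · rename_i k htj
      exact Or.inr (Or.inr (Or.inl ⟨k, htj, rfl⟩))
    · rename_i p htj
      exact Or.inr (Or.inr (Or.inr ⟨⟨p, j, htj⟩, htj, rfl⟩))
  have ht₁A : Adm A f t₁ := by
    constructor
    · intro j a hj
      rcases ht₁ j with ⟨a', h1, h2⟩ | ⟨p, h1, h2⟩ | ⟨k, h1, h2⟩ | ⟨q, h1, h2⟩ <;>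
        rw [h2] at hj
      · rw [← Sum.inl.inj hj]
        exact ht.1 j a' h1
      · simp at hj
      · simp at hj
      · simp at hj
    · intro j p hj
      rcases ht₁ j with ⟨a', h1, h2⟩ | ⟨p', h1, h2⟩ | ⟨k, h1, h2⟩ | ⟨q, h1, h2⟩ <;>
        rw [h2] at hj
      · simp at hj
      · rw [← Sum.inl.inj (Sum.inr.inj hj)]
        exact ht.2 j p' h1
      · simp at hj
      · simp at hj
  obtain ⟨C, hC⟩ : ∃ C, ∀ k, f + (W k).1 < C ∧ f + (B + (β k).1) < C := by
    obtain ⟨M, hM⟩ := (Set.finite_range (fun k => (W k).1 + (β k).1)).bddAbove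
    refine ⟨f + B + M + 1, fun k => ?_⟩
    have h1 : (W k).1 + (β k).1 ≤ M := hM ⟨k, rfl⟩
    constructor <;> omega
  obtain ⟨D, hD⟩ : ∃ D, D = C + f + m + B + 1 := ⟨_, rfl⟩
  -- the value of the context
  have hval : ∀ (z : κ' → ℕ × κ), Injective z → (∀ k, (z k).1 < B) → ∀ b, f ≤ b →
      (∀ k, f + (z k).1 < b) →
      N (fun j => pl e f b (fun k => ((z k).1, τ (z k).2)) (t j)) =
        N (fun j => pl e f D (Sum.elim (fun k => (m + (z k).1, τ (z k).2)) W) (t₁ j)) := by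
    intro z hz hzB b hfb hzb
    have h1 := pl_shift hH (fun k => ((z k).1, τ (z k).2)) (le_refl f) hfb
      (Nat.le_add_right f B) hzb (fun k => Nat.add_lt_add_left (hzB k) f) t ht
    rw [h1]
    have h2 := hsort z hz hzB f D D (by omega) (by omega) (by
        rintro (k | k)
        · show f + (z k).1 < D
          have := hzB k
          omega
        · show f + (B + (β k).1) < D
          have := hC k
          omega) (by
        rintro (k | k)
        · show f + (m + (z k).1) < D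
          have := hzB k
          omega
        · show f + (W k).1 < D
          have := hC k
          omega) t₁ ht₁A
    rw [← h2]
    congr 1
    funext j
    rcases ht₁ j with ⟨a', h3, h4⟩ | ⟨p', h3, h4⟩ | ⟨k, h3, h4⟩ | ⟨q, h3, h4⟩ <;> rw [h3, h4]
    · rfl
    · rfl
    · rfl
    · show e (f + B + q.1.1) q.1.2 = e (f + (B + q.1.1)) q.1.2
      rw [Nat.add_assoc]
  apply hne
  rw [hval z hz hzB b hb hzb, hval z' hz' hzB' b' hb' hzb']
  -- the context for the chain
  have ht₂ex : ∀ j, ∃ u : ℕ ⊕ ((ℕ × κ) ⊕ (κ' ⊕ (ℕ × κ))), (∀ a, u = Sum.inl a → a ∈ AF A e F) ∧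
      (∀ p, u ≠ Sum.inr (Sum.inl p)) ∧ ∀ z : κ' → ℕ × κ,
        pl e f D (Sum.elim (fun k => (m + (z k).1, τ (z k).2)) W) (t₁ j) =
          pl (tl' e τ F) 0 B z u := by
    intro j
    rcases ht₁ j with ⟨a', h3, h4⟩ | ⟨p', h3, h4⟩ | ⟨k, h3, h4⟩ | ⟨q, h3, h4⟩
    · refine ⟨Sum.inl a', fun a ha => ?_, fun p => by simp, fun z => ?_⟩
      · rw [← Sum.inl.inj ha]
        exact Or.inl (ht.1 j a' h3)
      · rw [h4]
        rfl
    · refine ⟨Sum.inl (e p'.1 p'.2), fun a ha => ?_, fun p => by simp, fun z => ?_⟩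
      · rw [← Sum.inl.inj ha]
        have := ht.2 j p' h3
        exact Or.inr ⟨p'.1, p'.2, by omega, rfl⟩
      · rw [h4]
        rfl
    · refine ⟨Sum.inr (Sum.inr (Sum.inl k)), fun a ha => by simp at ha, fun p => by simp,
        fun z => ?_⟩
      rw [h4]
      show e (f + (m + (z k).1)) (τ (z k).2) = e (F + (0 + (z k).1)) (τ (z k).2)
      rw [← hmF, Nat.zero_add, Nat.add_assoc]
    · by_cases hq : ∃ L ∈ At, q ∈ L
      · have hq' := (hlab q hq).2
        refine ⟨Sum.inr (Sum.inr (Sum.inr (ρ (lab q), σ (lab q) ⟨q, hq'⟩))),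
          fun a ha => by simp at ha, fun p => by simp, fun z => ?_⟩
        rw [h4]
        show e (f + (W q).1) (W q).2 = e (F + (B + ρ (lab q))) (τ (σ (lab q) ⟨q, hq'⟩))
        rw [hW2 q hq hq', ← hmF]
        show e (f + (m + B + ρ (lab q))) _ = _
        congr 1
        omega
      · have hq' : ∀ L ∈ At, q ∉ L := fun L hL hqL => hq ⟨L, hL, hqL⟩
        refine ⟨Sum.inl (e (f + (β q).1) (β q).2), fun a ha => ?_, fun p => by simp, fun z => ?_⟩
        · rw [← Sum.inl.inj ha]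
          have := hβm q
          exact Or.inr ⟨f + (β q).1, (β q).2, by omega, rfl⟩
        · rw [h4]
          show e (f + (W q).1) (W q).2 = e (f + (β q).1) (β q).2
          rw [hW1 q hq']
  choose t₂ ht₂1 ht₂2 ht₂3 using ht₂ex
  simp only [ht₂3]
  refine hT 0 B B (Nat.zero_le _) (Nat.zero_le _) (fun k => by have := hzB k; omega)
    (fun k => by have := hzB' k; omega) t₂ ⟨fun j a hj => ht₂1 j a hj, fun j p hj => ?_⟩
  exact absurd hj (ht₂2 j p)

end Pool.H17.TB
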