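import Pool.Agent.H17.TB.Ext

/-!
# Chain atoms remain chain atoms in extensions
-/

set_option autoImplicit false

namespace Pool.H17.TB

open Pool.H22.VC Function Set Pool.H17.TA

variable {r : ℕ} {K ι ι' ι'' κ κ' : Type} {N : Col r K ℕ} {A A' A'' : Set ℕ} {e : ℕ → ι → ℕ}
  {e' : ℕ → ι' → ℕ} {e'' : ℕ → ι'' → ℕ}

/-- a last atom of a kind -/
theorem exists_last_atom (hW : ¬ Wild N univ) (hH : Hom N A e) (hA : A.Finite) [Finite ι]
    [Finite κ] {z : κ → ℕ × ι} (hz : Injective z) {L₀ : Set κ} (h : IsAt N A e z L₀) :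
    ∃ L, IsAt N A e z L ∧ Sim N A e (lt' z L) (lt' z L₀) ∧
      ∀ L', IsAt N A e z L' → L' ≠ L → Sim N A e (lt' z L') (lt' z L) →
        Bef N A e (res L' z) (res L z) := by
  classical
  let X : Type := {L : Set κ // IsAt N A e z L ∧ Sim N A e (lt' z L) (lt' z L₀)}
  let R : X → X → Prop := fun a b => Bef N A e (res b.1 z) (res a.1 z)
  have hs : ∀ a b : X, Sim N A e (lt' z a.1) (lt' z b.1) := fun a b =>
    Sim.trans hH a.2.2 (Sim.symm hH b.2.2)
  have hirr : ∀ a : X, ¬ R a a := fun a ha =>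
    IsAt.asymm hH hz a.2.1 a.2.1 (Sim.refl hH _) ha ha
  have htr : ∀ a b c : X, R a b → R b c → R a c := fun a b c hab hbc =>
    IsAt.trans hW hH hA hz c.2.1 b.2.1 a.2.1 (hs c b) (hs b a) hbc hab
  haveI : IsTrans X R := ⟨htr⟩
  haveI : Std.Irrefl R := ⟨hirr⟩
  haveI : Finite X := inferInstanceAs (Finite {L : Set κ //
    IsAt N A e z L ∧ Sim N A e (lt' z L) (lt' z L₀)})
  have hwf : WellFounded R := Finite.wellFounded_of_trans_of_irrefl R
  obtain ⟨m, -, hm⟩ := hwf.has_min (univ : Set X) ⟨⟨L₀, h, Sim.refl hH _⟩, mem_univ _⟩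
  refine ⟨m.1, m.2.1, m.2.2, fun L' hL' hne hsim => ?_⟩
  have hsim' : Sim N A e (lt' z L') (lt' z L₀) := Sim.trans hH hsim m.2.2
  rcases IsAt.total hW hH hA hz hL' m.2.1 hsim hne with h1 | h1
  · exact h1
  · exact absurd h1 (hm ⟨L', hL', hsim'⟩ (mem_univ _))

/-- Chain atoms remain chain atoms. PROOF. `lam ∘ τ` is injective and does not commute with itself
(`Ext.perp`). By `c1'` some subtuple of it is a chain atom of `e'`. So the configuration
`z = blk 0 (lam ∘ τ)` has atoms; choose an atom `L` which is behind all other atoms of its kind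
(`IsAt.total`, `IsAt.trans`, finitely many labels). By `ext_last` the configuration `z` has the type
of the configuration `w` with the labels `Lᶜ` in the block `0` and the labels `L` in the block `1`.
By `Ext.teq` the same is true for `e`: the configuration with the letters `τ k` in the block `0`
(`k ∉ L`) and `1` (`k ∈ L`) has the type of `blk 0 τ`. By `CA.inblk` (for `e`) and `L ≠ ∅` we get
`L = univ`. So `lam ∘ τ` is a chain atom. -/
theorem CA.ext (hW : ¬ Wild N univ) (hH : Hom N A e) (hA : A.Finite) (hH' : Hom N A' e')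
    (hA' : A'.Finite) [Finite ι] [Finite ι'] [Finite κ] {lam : ι → ι'} (h : Ext A e A' e' lam)
    {τ : κ → ι} (hτ : CA N A e τ) : CA N A' e' (fun k => lam (τ k)) := by
  classical
  have hi : Injective (fun k => lam (τ k)) := (Ext.injective hH h).comp hτ.inj
  have hn : ¬ Perp N A' e' (fun k => lam (τ k)) (fun k => lam (τ k)) := fun hp =>
    hτ.nperp (Ext.perp hH hH' h hp)
  obtain ⟨s, -, hs, -, -⟩ := c1' hW hH' hA' hi hi hn
  let z : κ → ℕ × ι' := blk 0 (fun k => lam (τ k))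
  have hz : Injective z := fun k k' hk => hi (congrArg Prod.snd hk)
  have hat : IsAt N A' e' z s := isAt_of_ca hH' (i := 0) (fun _ _ => rfl) hs
  obtain ⟨L, hL, -, hlast⟩ := exists_last_atom hW hH' hA' hz hat
  obtain ⟨i, -, hca, hne⟩ := hL.ca hH' hz
  have hB := ext_last hW hH' hA' hz hL hlast
  have h1 := hB 1 (fun k => Nat.zero_lt_one)
  have h2 := h1.comp hH' (fun k : κ => if hk : k ∈ L then (Sum.inr ⟨k, hk⟩ : ↥Lᶜ ⊕ ↥L)
    else Sum.inl ⟨k, hk⟩)
  have e1 : (fun k : κ => Sum.elim (res Lᶜ z) (res L z)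
      (if hk : k ∈ L then (Sum.inr ⟨k, hk⟩ : ↥Lᶜ ⊕ ↥L) else Sum.inl ⟨k, hk⟩)) =
      fun k => (((blk 0 τ : κ → ℕ × ι) k).1, lam ((blk 0 τ : κ → ℕ × ι) k).2) := by
    funext k
    by_cases hk : k ∈ L
    · rw [dif_pos hk]
      rfl
    · rw [dif_neg hk]
      rfl
  have e2 : (fun k : κ => Sum.elim (res Lᶜ z) (fun k => (1 + (res L z k).1, (res L z k).2))
      (if hk : k ∈ L then (Sum.inr ⟨k, hk⟩ : ↥Lᶜ ⊕ ↥L) else Sum.inl ⟨k, hk⟩)) =
      fun k => ((((if k ∈ L then 1 else 0 : ℕ), τ k) : ℕ × ι).1,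
        lam (((if k ∈ L then 1 else 0 : ℕ), τ k) : ℕ × ι).2) := by
    funext k
    by_cases hk : k ∈ L
    · rw [dif_pos hk, if_pos hk]
      rfl
    · rw [dif_neg hk, if_neg hk]
      rfl
  rw [e1, e2] at h2
  have h3 : Teq N A e (blk 0 τ) (fun k => ((if k ∈ L then 1 else 0 : ℕ), τ k)) :=
    Ext.teq hH hH' h h2
  have h4 := hτ.inblk hH _ h3.symm
  obtain ⟨k₀, hk₀⟩ := hne
  have hLu : L = univ := by
    rw [eq_univ_iff_forall]
    intro k
    by_contra hk
    have h5 := h4 k k₀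
    simp only [if_pos hk₀, if_neg hk] at h5
    omega
  subst hLu
  exact hca.equiv hH' (Equiv.Set.univ κ).symm

end Pool.H17.TB
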