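import Pool.Agent.H17.TB.Limx

/-!
# Closure: atoms between two copies are cells
-/

set_option autoImplicit false

namespace Pool.H17.TB

open Pool.H22.VC Function Set Pool.H17.TA

variable {r : ℕ} {K ι κ κ' : Type} {N : Col r K ℕ} {A : Set ℕ} {x : ℕ → κ → ℕ}

/-- a tuple of points does not meet far cells -/
private theorem cl_far (hH : Hom N A x) [Finite κ] (g : κ → ℕ) (L : ℕ) :
    ∃ M, L < M ∧ ∀ i, M ≤ i → ∀ k c, g k ≠ x i c := by
  classical
  have h1 : ∀ k, ∃ M, ∀ i, M ≤ i → ∀ c, g k ≠ x i c := by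
    intro k
    by_cases h : ∃ i c, g k = x i c
    · obtain ⟨i₀, c₀, h0⟩ := h
      refine ⟨i₀ + 1, fun i hi c hc => ?_⟩
      have := (hH.inj _ _ _ _ (h0.symm.trans hc)).1
      omega
    · refine ⟨0, fun i _ c hc => h ⟨i, c, hc⟩⟩
  choose M hM using h1
  obtain ⟨B, hB⟩ := (Set.finite_range M).bddAbove
  refine ⟨B + L + 1, by omega, fun i hi k c => hM k i ?_ c⟩
  have : M k ≤ B := hB (mem_range_self k)
  omega

/-- a sequence of data along which infinitely many indices are bad -/
private theorem cl_sub {P : ℕ → Prop} (h : ∀ j₁, ∃ j, j₁ ≤ j ∧ P j) :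
    ∃ ι : ℕ → ℕ, StrictMono ι ∧ ∀ s, P (ι s) := by
  choose f hf1 hf2 using h
  refine ⟨fun s => Nat.rec (f 0) (fun _ b => f (b + 1)) s, ?_, ?_⟩
  · refine strictMono_nat_of_lt_succ fun s => ?_
    exact hf1 _
  · intro s
    cases s with
    | zero => exact hf2 0
    | succ s => exact hf2 _

/-- CLOSURE. An atom `y` between `Tm` and `Tp` is (infinitely often) a cell of `VV (n j)`. PROOF.
Suppose not: for all large `j` the cell `g j = (fun k => e' j (y k))` is not in `VV (n j)`. `g j` is
injective and outside `A`. Choose `L' j ≥ L j + 1` such that `g j` does not meet the cells `x i`,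
`i ≥ L' j`. So (`¬ VL (n j) (L' j) (g j)`) either `g j` meets a cell `x i`, `i ≤ n j`, or there is a
context `t j` over `A` and the blocks `≤ n j` or `≥ L' j` on which `g j` and `x (n j + 1)` differ. One
of the two holds for infinitely many `j`, and in the second case the shape of `t j` (constants,
letters, which places are cells of the chain, numbers of blocks as `Fin r → ℕ`) can be assumed
constant except for the numbers of the blocks. Apply `lim` to a thinned sequence with
`A₀ = A'`, `u` = all letters of `e'` and `x (n j + 1)`, `l` = the numbers `i`, resp. the numbers of the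
blocks in `t j` (thin so that `L' j < n (next j)`, use `L'` in the place of `L`; note `Tp` is then
among the letters of `u`). `Btw.ext`. Case 1: the copy of `x i` meets `y`, so it is equal to it (`c3`;
it cannot be constant); but by `copy_prec` it is before or equal to `Tm`. Case 2: `inv_static` with
`p = 1`, `v = y`, `w` = copy of `x (n j + 1)` (`vlim`, `VL_self`), `S` = the letters of the copies of
the blocks in `t j` which are not constant (they are before or equal to `Tm` or behind `Tp`,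
`copy_prec`; every atom of the type of `Tm` in `S` is one of these copies, `c3`): the colours are
equal, a contradiction. -/
theorem cl (hW : ¬ Wild N univ) (hN : (range N).Finite) (hP : PCh N A x) [Finite κ]
    (hG : MG N A x) {A' : Set ℕ} {m : ℕ} {e' : ℕ → Fin m → ℕ} (hA' : A'.Finite) (hAA' : A ⊆ A')
    (hH' : Hom N A' e') {Tm Tp : κ → Fin m} {n L : ℕ → ℕ} (hTm : ∀ j k, e' j (Tm k) = x (n j) k)
    (hTp : ∀ j k, e' j (Tp k) = x (L j) k) (hnL : ∀ j, n j + 1 < L j)
    (hLn : ∀ j, L j < n (j + 1)) {y : κ → Fin m} (hy : Btw N A' e' Tm Tp y) :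
    ∀ j₀, ∃ j, j₀ ≤ j ∧ (fun k => e' j (y k)) ∈ VV N A x (n j) := by
  classical
  intro j₀
  by_contra hcon
  push Not at hcon
  have hnL' : ∀ k, n k < L k := fun k => by
    have := hnL k
    omega
  have hn : StrictMono n := strictMono_nat_of_lt_succ fun k => (hnL' k).trans (hLn k)
  have hL : StrictMono L := strictMono_nat_of_lt_succ fun k => (hLn k).trans (hnL' _)
  have hgi : ∀ j, Injective (fun k => e' j (y k)) := fun j k k' hk =>
    hy.ca.inj (hH'.inj _ _ _ _ hk).2
  have hgA : ∀ j k, e' j (y k) ∉ A := fun j k h => hH'.notA _ _ (hAA' h)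
  have hfar : ∀ j, ∃ M, L j < M ∧ ∀ i, M ≤ i → ∀ k c, e' j (y k) ≠ x i c := fun j =>
    cl_far hP.hom (fun k => e' j (y k)) (L j)
  choose M hM1 hM2 using hfar
  obtain ⟨C1, hC1⟩ : ∃ C1 : ℕ → Prop, C1 = fun j => ∃ i k c, i ≤ n j ∧ e' j (y k) = x i c :=
    ⟨_, rfl⟩
  have hreason : ∀ j, j₀ ≤ j → C1 j ∨ ∃ t : Fin r → ℕ ⊕ ((ℕ × κ) ⊕ κ),
      (∀ i a, t i = Sum.inl a → a ∈ A) ∧
      (∀ i p, t i = Sum.inr (Sum.inl p) → p.1 ≤ n j ∨ M j ≤ p.1) ∧
      N (fun i => Sum.elim id (Sum.elim (fun p => x p.1 p.2) (fun k => e' j (y k))) (t i)) ≠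
        N (fun i => Sum.elim id (Sum.elim (fun p => x p.1 p.2) (x (n j + 1))) (t i)) := by
    intro j hj
    by_contra hno
    rw [not_or] at hno
    obtain ⟨h1, h2⟩ := hno
    push Not at h2
    rw [hC1] at h1
    push Not at h1
    refine hcon j hj ⟨M j, by have := hM1 j; have := hnL j; omega, hgi j, hgA j, ?_, h2⟩
    intro i c k hi
    rcases hi with hi | hi
    · exact h1 i k c hi
    · exact hM2 j i hi k c
  have hTmE : Ext A x A' e' Tm := ⟨hAA', n, hn, hTm⟩
  have hTpE : Ext A x A' e' Tp := ⟨hAA', L, hL, hTp⟩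
  by_cases hc1 : ∀ j₁, ∃ j, j₁ ≤ j ∧ C1 j
  · -- the cell meets a cell `x i`, `i ≤ n j`
    obtain ⟨ι, hι, hι1⟩ := cl_sub hc1
    rw [hC1] at hι1
    choose i k c hi hikc using hι1
    obtain ⟨ψ, ⟨k₀, c₀⟩, hψ, hkc⟩ := lx_thin (fun s => (k s, c s))
    have hk0 : ∀ s, k (ψ s) = k₀ := fun s => congrArg Prod.fst (hkc s)
    have hc0 : ∀ s, c (ψ s) = c₀ := fun s => congrArg Prod.snd (hkc s)
    have hιψ : StrictMono (fun s => ι (ψ s)) := hι.comp hψ
    obtain ⟨φ, A'', m', e'', Tm', Tp', χ, X, h1, h2, h3, h4, h5, h6, h7, h8, h9, h10⟩ :=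
      limy hW hN hP hG hA' hAA' (fun s => n (ι (ψ s))) (fun s => L (ι (ψ s)))
        (fun s => hnL' _) (fun s => lx_mono hnL' hLn (hιψ (Nat.lt_succ_self s)))
        (fun s => e' (ι (ψ s))) (fun s (_ : Fin 1) => i (ψ s)) (fun s _ => Or.inl (hi (ψ s)))
    obtain ⟨mu, hmu1, hmu2⟩ := lx_ext hH' h3 (hιψ.comp h1) χ h8
    have hyE := Btw.ext hW hP hG hA' h2 hH' h4 hTmE hTpE hmu2 hy
    have eTm : (fun k => mu (Tm k)) = Tm' := by
      funext k
      refine (h4.inj 0 0 _ _ ?_).2
      rw [hmu1, h5]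
      exact hTm _ _
    have eTp : (fun k => mu (Tp k)) = Tp' := by
      funext k
      refine (h4.inj 0 0 _ _ ?_).2
      rw [hmu1, h6]
      exact hTp _ _
    rw [eTm, eTp] at hyE
    have hval : ∀ j, e'' j (mu (y k₀)) = x (i (ψ (φ j))) c₀ := by
      intro j
      rw [hmu1]
      have g1 := hikc (ψ (φ j))
      rw [hk0, hc0] at g1
      exact g1
    obtain ⟨cm, cp, htp, hpr, -⟩ := copy_prec hW hP hG h2 (hAA'.trans h3) h4 h5 h6
      (fun j => hnL' _) (fun j => lx_mono hnL' hLn (hιψ (h1 (Nat.lt_succ_self j))))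
    rcases hX : X 0 with _ | Y
    · obtain ⟨l₀, hl₀⟩ := h9 0 hX
      refine h4.notA 0 (mu (y k₀)) ?_
      rw [hval, (hl₀ 0).1]
      exact (hl₀ 0).2 _
    · obtain ⟨g1, g2⟩ := h10 0 Y hX
      have g3 : Y c₀ = mu (y k₀) := by
        refine (h4.inj 0 0 _ _ ?_).2
        rw [hval, g1]
      exact Set.disjoint_left.1 (Pos.disjoint hW h4 h2 cm cp htp g2 hyE) (mem_range_self c₀)
        (by rw [g3]; exact mem_range_self (f := fun k => mu (y k)) k₀)
  · -- a context shows the difference
    push Not at hc1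
    obtain ⟨j₁, hj₁⟩ := hc1
    obtain ⟨n', L', dd, g1, g2, g3⟩ := lx_seq (D := ℕ × (Fin r → ℕ ⊕ ((ℕ × κ) ⊕ κ))) 1
      (fun n' L' dd => n' = n dd.1 ∧ L' = M dd.1 ∧ (∀ i a, dd.2 i = Sum.inl a → a ∈ A) ∧
        (∀ i p, dd.2 i = Sum.inr (Sum.inl p) → p.1 ≤ n dd.1 ∨ M dd.1 ≤ p.1) ∧
        N (fun i => Sum.elim id (Sum.elim (fun p => x p.1 p.2) (fun k => e' dd.1 (y k)))
          (dd.2 i)) ≠
          N (fun i => Sum.elim id (Sum.elim (fun p => x p.1 p.2) (x (n dd.1 + 1))) (dd.2 i)))
      (by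
        intro n₀
        obtain ⟨j, hj⟩ : ∃ j, j = n₀ + j₀ + j₁ := ⟨_, rfl⟩
        rcases hreason j (by omega) with h | ⟨t, h1, h2, h3⟩
        · exact absurd h (hj₁ j (by omega))
        · refine ⟨n j, M j, (j, t), ?_, ?_, rfl, rfl, h1, h2, h3⟩
          · have : j ≤ n j := hn.id_le j
            omega
          · have := hM1 j
            have := hnL j
            omega)
    obtain ⟨ι, hιd⟩ : ∃ ι : ℕ → ℕ, ι = fun s => (dd s).1 := ⟨_, rfl⟩
    obtain ⟨t, htd⟩ : ∃ t : ℕ → Fin r → ℕ ⊕ ((ℕ × κ) ⊕ κ), t = fun s => (dd s).2 := ⟨_, rfl⟩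
    have q1 : ∀ s, n' s = n (ι s) := by
      intro s
      rw [hιd]
      exact (g3 s).1
    have q2 : ∀ s, L' s = M (ι s) := by
      intro s
      rw [hιd]
      exact (g3 s).2.1
    have q3 : ∀ s i a, t s i = Sum.inl a → a ∈ A := by
      intro s
      rw [htd]
      exact (g3 s).2.2.1
    have q4 : ∀ s i p, t s i = Sum.inr (Sum.inl p) → p.1 ≤ n' s ∨ L' s ≤ p.1 := by
      intro s
      rw [htd, (g3 s).1, (g3 s).2.1]
      exact (g3 s).2.2.2.1
    have q5 : ∀ s, N (fun i => Sum.elim id (Sum.elim (fun p => x p.1 p.2)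
        (fun k => e' (ι s) (y k))) (t s i)) ≠
        N (fun i => Sum.elim id (Sum.elim (fun p => x p.1 p.2) (x (n' s + 1))) (t s i)) := by
      intro s
      rw [htd, hιd, (g3 s).1]
      exact (g3 s).2.2.2.2
    have g1' : ∀ s, n' s < L' s := fun s => by
      have := g1 s
      omega
    have hι : StrictMono ι := by
      refine strictMono_nat_of_lt_succ fun s => ?_
      have h1 : n (ι s) < n (ι (s + 1)) := by
        rw [← q1, ← q1]
        exact (g1' s).trans (g2 s)
      exact hn.lt_iff_lt.1 h1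
    obtain ⟨q, ⟨E⟩⟩ := Finite.exists_equiv_fin (Fin m ⊕ κ)
    obtain ⟨t', ht'⟩ : ∃ t' : ℕ → Unit → Fin r → ℕ ⊕ ((ℕ × κ) ⊕ (Fin 1 × κ)),
        ∀ s π i, t' s π i = Sum.map id (Sum.map id (fun k => (0, k))) (t s i) :=
      ⟨fun s _ i => Sum.map id (Sum.map id (fun k => (0, k))) (t s i), fun _ _ _ => rfl⟩
    obtain ⟨φ, A'', m', e'', Tm', Tp', χ, S, T, h1, h2, h3, h4, h5, h6, h7, h8, h9, h10, h11⟩ :=
      limx hW hN hP hG hA' hAA' n' L' g1' g2
        (fun s c => Sum.elim (e' (ι s)) (x (n' s + 1)) (E.symm c)) t'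
        (by
          intro s π i a hi
          rw [ht'] at hi
          rcases hti : t s i with b | c | c
          · rw [hti] at hi
            rw [← Sum.inl.inj hi]
            exact q3 s i b hti
          · rw [hti] at hi
            exact absurd hi (by simp)
          · rw [hti] at hi
            exact absurd hi (by simp))
        (by
          intro s π i p hi
          rw [ht'] at hi
          rcases hti : t s i with b | c | c
          · rw [hti] at hi
            exact absurd hi (by simp)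
          · rw [hti] at hi
            have h0 : c = p := Sum.inl.inj (Sum.inr.inj hi)
            rw [← h0]
            exact q4 s i c hti
          · rw [hti] at hi
            exact absurd hi (by simp))
    obtain ⟨mu, hmu1, hmu2⟩ := lx_ext hH' h3 (hι.comp h1) (fun c => χ (E (Sum.inl c)))
      (by
        intro j c
        have h0 := h8 j (E (Sum.inl c))
        simp only [Equiv.symm_apply_apply, Sum.elim_inl] at h0
        exact h0)
    have hyE := Btw.ext hW hP hG hA' h2 hH' h4 hTmE hTpE hmu2 hy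
    have eTm : (fun k => mu (Tm k)) = Tm' := by
      funext k
      refine (h4.inj 0 0 _ _ ?_).2
      rw [hmu1, h5, q1]
      exact hTm _ _
    have hAA'' := hAA'.trans h3
    have hseq : ∀ j, L' (φ j) < n' (φ (j + 1)) := fun j =>
      lx_mono g1' g2 (h1 (Nat.lt_succ_self j))
    obtain ⟨cm, cp, htp, hpr, -⟩ := copy_prec hW hP hG h2 hAA'' h4 h5 h6 (fun j => g1' _) hseq
    obtain ⟨cq, -, htq, hprq, -⟩ := copy_prec hW hP hG h2 hAA'' h4 (X := fun k => mu (Tp k))
      (a := fun j => L (ι (φ j))) (b := fun j => L' (φ j))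
      (by
        intro j k
        rw [hmu1]
        exact hTp _ _)
      h6
      (by
        intro j
        show L (ι (φ j)) < L' (φ j)
        rw [q2]
        exact hM1 _)
      (by
        intro j
        have k1 := hseq j
        rw [q1] at k1
        exact k1.trans (hnL' _))
    -- `mu y` is between `Tm'` and `Tp'`
    have hyB : Btw N A'' e'' Tm' Tp' (fun k => mu (y k)) := by
      rw [eTm] at hyE
      refine ⟨hyE.ca, hyE.teq, hyE.lo, ?_⟩
      exact lx_trans hW h4 h2 hyE.ca cq cp (hyE.teq.trans (htp.symm.trans htq)) htq.symm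
        hyE.hi hprq
    -- the copy of `x (n j + 1)`
    obtain ⟨w, hw1, hwB⟩ := vlim hW hP hG h2 hAA'' h4 h5 h6 (fun j => g1 _) hseq
      (fun j => x (n' (φ j) + 1))
      (fun j => VL_self hP (Nat.lt_succ_self _) (g1 _))
      (fun k => χ (E (Sum.inr k))) (fun k a hk => h7 _ a hk)
      (by
        intro j k
        have h0 := h8 j (E (Sum.inr k))
        simp only [Equiv.symm_apply_apply, Sum.elim_inr] at h0
        exact h0)
    have hwv : ∀ k, e'' 0 (w k) = x (n' (φ 0) + 1) k := by
      intro k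
      have h0 := h8 0 (E (Sum.inr k))
      simp only [Equiv.symm_apply_apply, Sum.elim_inr, hw1 k] at h0
      exact h0.symm
    have hex := exch hW h4 h2 cm cp htp S h9 (fun _ : Fin 1 => fun k => mu (y k)) (fun _ => w)
      (fun _ => hyB) (fun _ => hwB) (fun s s' hs => absurd (Subsingleton.elim s s') hs)
      (fun s s' hs => absurd (Subsingleton.elim s s') hs)
      (fun s s' hs => absurd (Subsingleton.elim s s') hs) (T ()) (fun i a => h10 () i a) 0
    apply q5 (φ 0)
    have ev : ∀ g : κ → ℕ, (fun i => Sum.elim id (Sum.elim (fun p => x p.1 p.2) g)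
        (t (φ 0) i)) = fun i => Sum.elim id (Sum.elim (fun a : S => e'' 0 a)
          (fun q : Fin 1 × κ => g q.2)) (T () i) := by
      intro g
      funext i
      rw [← h11 0 () (fun q : Fin 1 × κ => g q.2) i, ht']
      rcases t (φ 0) i with b | c | c <;> rfl
    rw [ev, ev]
    have e1 : (fun k => e' (ι (φ 0)) (y k)) = fun k => e'' 0 (mu (y k)) := by
      funext k
      rw [hmu1]
      rfl
    have e2 : x (n' (φ 0) + 1) = fun k => e'' 0 (w k) := by
      funext k
      rw [hwv]
    have e1' : ∀ k, e' (ι (φ 0)) (y k) = e'' 0 (mu (y k)) := fun k => congrFun e1 k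
    have e2' : ∀ k, x (n' (φ 0) + 1) k = e'' 0 (w k) := fun k => congrFun e2 k
    simp only [e1', e2']
    exact hex

end Pool.H17.TB
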