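import Pool.Agent.H17.TB.Limx

/-!
# Types of finitely many cells
-/

set_option autoImplicit false

namespace Pool.H17.TB

open Pool.H22.VC Function Set Pool.H17.TA

variable {r : ℕ} {K ι κ κ' : Type} {N : Col r K ℕ} {A : Set ℕ} {x : ℕ → κ → ℕ}

/-- a strict linear order on `Fin p` is the usual one up to a permutation -/
private theorem vt_sort {p : ℕ} (R : Fin p → Fin p → Prop)
    (htot : ∀ s s', s ≠ s' → R s s' ∨ R s' s) (hasym : ∀ s s', s ≠ s' → R s s' → ¬ R s' s)
    (htr : ∀ a b c, a ≠ b → b ≠ c → a ≠ c → R a b → R b c → R a c) :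
    ∃ π : Equiv.Perm (Fin p), ∀ s s', s < s' → R (π s) (π s') := by
  classical
  have hlt : ∀ s : Fin p, (Finset.univ.filter (fun a => a ≠ s ∧ R a s)).card < p := by
    intro s
    have h1 : (Finset.univ.filter (fun a => a ≠ s ∧ R a s)) ⊂ Finset.univ := by
      rw [Finset.ssubset_univ_iff]
      intro h
      have h2 := Finset.mem_univ s
      rw [← h, Finset.mem_filter] at h2
      exact h2.2.1 rfl
    have h2 := Finset.card_lt_card h1
    rwa [Finset.card_univ, Fintype.card_fin] at h2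
  obtain ⟨f, hf⟩ : ∃ f : Fin p → Fin p, ∀ s,
      (f s : ℕ) = (Finset.univ.filter (fun a => a ≠ s ∧ R a s)).card :=
    ⟨fun s => ⟨_, hlt s⟩, fun s => rfl⟩
  have key : ∀ s s', s ≠ s' → R s s' → f s < f s' := by
    intro s s' hne hR
    rw [Fin.lt_def, hf, hf]
    refine Finset.card_lt_card ?_
    rw [Finset.ssubset_iff_of_subset]
    · refine ⟨s, ?_, ?_⟩
      · rw [Finset.mem_filter]
        exact ⟨Finset.mem_univ _, hne, hR⟩
      · rw [Finset.mem_filter]
        exact fun h => h.2.1 rfl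
    · intro a ha
      rw [Finset.mem_filter] at ha ⊢
      obtain ⟨-, h1, h2⟩ := ha
      have h3 : a ≠ s' := by
        intro h
        rw [h] at h2
        exact hasym s s' hne hR h2
      exact ⟨Finset.mem_univ _, h3, htr a s s' h1 hne h3 h2 hR⟩
  have hinj : Injective f := by
    intro s s' h
    by_contra hne
    rcases htot s s' hne with h1 | h1
    · exact absurd (key s s' hne h1) (by rw [h]; exact lt_irrefl _)
    · exact absurd (key s' s (Ne.symm hne) h1) (by rw [h]; exact lt_irrefl _)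
  obtain ⟨E, hE⟩ : ∃ E : Equiv.Perm (Fin p), ∀ s, E s = f s :=
    ⟨Equiv.ofBijective f (Finite.injective_iff_bijective.1 hinj), fun s => rfl⟩
  refine ⟨E.symm, fun s s' hss => ?_⟩
  have hne : E.symm s ≠ E.symm s' := fun h => hss.ne (E.symm.injective h)
  rcases htot _ _ hne with h1 | h1
  · exact h1
  · exfalso
    have h2 := key _ _ (Ne.symm hne) h1
    rw [← hE, ← hE, E.apply_symm_apply, E.apply_symm_apply] at h2
    exact absurd hss (not_lt.2 h2.le)

/-- the limit of `p` cells -/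
private theorem vt_lim (hW : ¬ Wild N univ) (hN : (range N).Finite) (hP : PCh N A x) [Finite κ]
    (hG : MG N A x) {p : ℕ} (n' L' : ℕ → ℕ) (h1 : ∀ j, n' j + (p + 1) < L' j)
    (h2 : ∀ j, L' j < n' (j + 1)) (v : ℕ → Fin p → κ → ℕ)
    (hv : ∀ j s, VL N A x (n' j) (L' j) (v j s))
    (hr : ∀ j s s', s ≠ s' → range (v j s) ≠ range (v j s')) {P : Type} [Finite P]
    (t : ℕ → P → Fin r → ℕ ⊕ ((ℕ × κ) ⊕ (Fin p × κ)))
    (htA : ∀ k π i a, t k π i = Sum.inl a → a ∈ A)
    (htb : ∀ k π i p, t k π i = Sum.inr (Sum.inl p) → p.1 ≤ n' k ∨ L' k ≤ p.1) :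
    ∃ (φ : ℕ → ℕ) (A' : Set ℕ) (m : ℕ) (e' : ℕ → Fin m → ℕ) (Tm Tp : κ → Fin m)
      (y w : Fin p → κ → Fin m) (S : Set (Fin m)) (T : P → Fin r → ℕ ⊕ (S ⊕ (Fin p × κ))),
      A'.Finite ∧ Hom N A' e' ∧ CA N A' e' Tm ∧ CA N A' e' Tp ∧
      Teq N A' e' (blk 0 Tp) (blk 0 Tm) ∧
      (∀ s, Btw N A' e' Tm Tp (y s)) ∧ (∀ s, Btw N A' e' Tm Tp (w s)) ∧
      (∀ s s', s ≠ s' → Disjoint (range (y s)) (range (y s'))) ∧
      (∀ s s', s < s' → Prec N A' e' (w s) (w s') ∧ Disjoint (range (w s)) (range (w s'))) ∧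
      (∀ j s k, e' j (y s k) = v (φ j) s k) ∧
      (∀ j s k, e' j (w s k) = x (n' (φ j) + 1 + (s : ℕ)) k) ∧
      (∀ a ∈ S, ∃ Y : κ → Fin m, a ∈ range Y ∧ Pos N A' e' Tm Tp Y) ∧
      (∀ π i a, T π i = Sum.inl a → a ∈ A') ∧
      ∀ j π (ρ : Fin p × κ → ℕ) i,
        Sum.elim id (Sum.elim (fun p => x p.1 p.2) ρ) (t (φ j) π i) =
          Sum.elim id (Sum.elim (fun a : S => e' j a) ρ) (T π i) := by
  classical
  have h1' : ∀ j, n' j < L' j := fun j => by
    have := h1 j
    omega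
  obtain ⟨q, ⟨E⟩⟩ := Finite.exists_equiv_fin ((Fin p × κ) ⊕ (Fin p × κ))
  obtain ⟨φ, A', m, e', Tm, Tp, χ, S, T, g1, g2, g3, g4, g5, g6, g7, g8, g9, g10, g11⟩ :=
    limx hW hN hP hG hP.fin (Subset.refl A) n' L' h1' h2
      (fun j c => Sum.elim (fun q : Fin p × κ => v j q.1 q.2)
        (fun q : Fin p × κ => x (n' j + 1 + (q.1 : ℕ)) q.2) (E.symm c)) t htA htb
  have hseq : ∀ j, L' (φ j) < n' (φ (j + 1)) := fun j => lx_mono h1' h2 (g1 (Nat.lt_succ_self j))
  obtain ⟨cm, cp, htp, hpr, -⟩ := copy_prec hW hP hG g2 g3 g4 g5 g6 (fun j => h1' _) hseq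
  have hvl : ∀ s, ∃ y : κ → Fin m, (∀ k, χ (E (Sum.inl (s, k))) = Sum.inr (y k)) ∧
      Btw N A' e' Tm Tp y := by
    intro s
    refine vlim hW hP hG g2 g3 g4 g5 g6 (fun j => ?_) hseq (fun j => v (φ j) s)
      (fun j => hv _ s) (fun k => χ (E (Sum.inl (s, k)))) (fun k a hk => g7 _ a hk) ?_
    · have := h1 (φ j)
      show n' (φ j) + 1 < L' (φ j)
      omega
    · intro j k
      have h0 := g8 j (E (Sum.inl (s, k)))
      simp only [Equiv.symm_apply_apply, Sum.elim_inl] at h0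
      exact h0
  have hwl : ∀ s : Fin p, ∃ w : κ → Fin m, (∀ k, χ (E (Sum.inr (s, k))) = Sum.inr (w k)) ∧
      Btw N A' e' Tm Tp w := by
    intro s
    refine vlim hW hP hG g2 g3 g4 g5 g6 (fun j => ?_) hseq
      (fun j => x (n' (φ j) + 1 + (s : ℕ))) (fun j => ?_) (fun k => χ (E (Sum.inr (s, k))))
      (fun k a hk => g7 _ a hk) ?_
    · have := h1 (φ j)
      show n' (φ j) + 1 < L' (φ j)
      omega
    · refine VL_self hP ?_ ?_
      · show n' (φ j) < n' (φ j) + 1 + (s : ℕ)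
        omega
      · have := h1 (φ j)
        have := s.2
        show n' (φ j) + 1 + (s : ℕ) < L' (φ j)
        omega
    · intro j k
      have h0 := g8 j (E (Sum.inr (s, k)))
      simp only [Equiv.symm_apply_apply, Sum.elim_inr] at h0
      exact h0
  choose y hy1 hy2 using hvl
  choose w hw1 hw2 using hwl
  have hyv : ∀ j s k, e' j (y s k) = v (φ j) s k := by
    intro j s k
    have h0 := g8 j (E (Sum.inl (s, k)))
    simp only [Equiv.symm_apply_apply, Sum.elim_inl, hy1, Sum.elim_inr] at h0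
    exact h0.symm
  have hwv : ∀ j s k, e' j (w s k) = x (n' (φ j) + 1 + (s : ℕ)) k := by
    intro j s k
    have h0 := g8 j (E (Sum.inr (s, k)))
    simp only [Equiv.symm_apply_apply, hw1, Sum.elim_inr] at h0
    exact h0.symm
  refine ⟨φ, A', m, e', Tm, Tp, y, w, S, T, g2, g4, cm, cp, htp, hy2, hw2, ?_, ?_, hyv, hwv,
    g9, g10, g11⟩
  · intro s s' hss
    by_contra hnd
    have hne : (range (y s) ∩ range (y s')).Nonempty := by
      rw [Set.not_disjoint_iff] at hnd
      obtain ⟨a, k1, k2⟩ := hnd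
      exact ⟨a, k1, k2⟩
    have hrr := c3 hW g4 g2 (hy2 s).ca (hy2 s').ca hne
    refine hr (φ 0) s s' hss ?_
    have e1 : ∀ s, range (v (φ 0) s) = e' 0 '' range (y s) := by
      intro s
      rw [← Set.range_comp]
      congr 1
      funext k
      exact (hyv 0 s k).symm
    rw [e1, e1, hrr]
  · intro s s' hss
    have hss' : (s : ℕ) < (s' : ℕ) := hss
    obtain ⟨-, -, -, k1, k2⟩ := copy_prec hW hP hG g2 g3 g4 (hwv · s) (hwv · s')
      (by
        intro j
        show n' (φ j) + 1 + (s : ℕ) < n' (φ j) + 1 + (s' : ℕ)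
        omega)
      (by
        intro j
        have k3 := h1 (φ j)
        have k4 := hseq j
        have k5 := s'.2
        show n' (φ j) + 1 + (s' : ℕ) < n' (φ (j + 1)) + 1 + (s : ℕ)
        omega)
    exact ⟨k1, k2⟩

/-- a common bound `L` for finitely many cells -/
private theorem vt_bound (hP : PCh N A x) {p n : ℕ} {v : Fin p → κ → ℕ}
    (hv : ∀ s, v s ∈ VV N A x n) : ∃ L, n + (p + 1) < L ∧ ∀ s, VL N A x n L (v s) := by
  choose L hL1 hL2 using hv
  obtain ⟨B, hB⟩ := (Set.finite_range L).bddAbove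
  refine ⟨B + n + p + 2, by omega, fun s => (hL2 s).mono hP le_rfl ?_ (hL1 s)⟩
  have : L s ≤ B := hB (mem_range_self s)
  omega

/-- TYPE. For large `n` any `p` cells of `VV n` with different ranges are pairwise disjoint and
look, in some order, like `x (n + 1), …, x (n + p)`. PROOF. Suppose not: for infinitely many `n` there
are cells `v s`, `s < p`, of `VV n` with different ranges such that two of them meet, or such that for
all permutations `π` and all `L > n + p` the property `VT n L (v ∘ π)` fails. Choose a sequence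
`n j` of such `n` with the same reason, and `L j > n j + p` with `VL (n j) (L j) (v s)` for all `s`, and
(second reason) for every `π` a context `t j π` on which `VT (n j) (L j) (v ∘ π)` fails, of constant
shape; `L j < n (j + 1)` after thinning. `lim` with `u` = the cells `v s`, `x (n j + 1 + s)`, and `l` =
the numbers of the blocks in all `t j π`. By `vlim` the `v s` are atoms `y s` between `Tm` and `Tp`;
with different ranges, so disjoint (`c3`): this settles the first reason. Let `π` sort them by `Prec`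
(`c5`, `c6`). `inv_static` with `v = y ∘ π`, `w s` = copy of `x (n j + 1 + s)` (`vlim`, `VL_self`; in
increasing order by `copy_prec`), `S` = letters of the copies of the blocks in `t j π`, as in `cl`:
the colours are equal, a contradiction. -/
theorem vt_exists (hW : ¬ Wild N univ) (hN : (range N).Finite) (hP : PCh N A x) [Finite κ]
    (hG : MG N A x) (p : ℕ) :
    ∃ n₀, ∀ n, n₀ ≤ n → ∀ v : Fin p → κ → ℕ, (∀ s, v s ∈ VV N A x n) →
      (∀ s s', s ≠ s' → range (v s) ≠ range (v s')) →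
        (∀ s s', s ≠ s' → Disjoint (range (v s)) (range (v s'))) ∧
          ∃ (π : Equiv.Perm (Fin p)) (L : ℕ), n + p < L ∧ VT N A x n L (fun s => v (π s)) := by
  classical
  by_cases hb : ∀ n₀, ∃ n, n₀ ≤ n ∧ ∃ v : Fin p → κ → ℕ, (∀ s, v s ∈ VV N A x n) ∧
      (∀ s s', s ≠ s' → range (v s) ≠ range (v s')) ∧
      ¬ ∀ s s', s ≠ s' → Disjoint (range (v s)) (range (v s'))
  · exfalso
    obtain ⟨n', L', v, g1, g2, g3⟩ := lx_seq (D := Fin p → κ → ℕ) (p + 1)
      (fun n L v => (∀ s, VL N A x n L (v s)) ∧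
        (∀ s s', s ≠ s' → range (v s) ≠ range (v s')) ∧
        ¬ ∀ s s', s ≠ s' → Disjoint (range (v s)) (range (v s')))
      (by
        intro n₀
        obtain ⟨n, hn, v, h1, h2, h3⟩ := hb n₀
        obtain ⟨L, hL1, hL2⟩ := vt_bound hP h1
        exact ⟨n, L, v, hn, hL1, hL2, h2, h3⟩)
    obtain ⟨φ, A', m, e', Tm, Tp, y, w, S, T, -, k2, -, -, -, -, -, k8, -, k10, -⟩ :=
      vt_lim hW hN hP hG n' L' g1 g2 v (fun j => (g3 j).1) (fun j => (g3 j).2.1) (P := Empty)
        (fun _ π => π.elim) (fun _ π => π.elim) (fun _ π => π.elim)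
    apply (g3 (φ 0)).2.2
    intro s s' hss
    rw [Set.disjoint_left]
    rintro _ ⟨k, rfl⟩ ⟨k', hk'⟩
    rw [← k10 0, ← k10 0] at hk'
    have h1 := (k2.inj _ _ _ _ hk').2
    exact Set.disjoint_left.1 (k8 s s' hss) (mem_range_self k) (by
      rw [← h1]
      exact mem_range_self k')
  · push Not at hb
    obtain ⟨n₁, hn₁⟩ := hb
    by_contra hcon
    push Not at hcon
    obtain ⟨n', L', d, g1, g2, g3⟩ := lx_seq
      (D := (Fin p → κ → ℕ) × (Equiv.Perm (Fin p) → Fin r → ℕ ⊕ ((ℕ × κ) ⊕ (Fin p × κ)))) (p + 1)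
      (fun n L d => (∀ s, VL N A x n L (d.1 s)) ∧
        (∀ s s', s ≠ s' → range (d.1 s) ≠ range (d.1 s')) ∧ ∀ π : Equiv.Perm (Fin p),
          (∀ j a, d.2 π j = Sum.inl a → a ∈ A) ∧
          (∀ j p, d.2 π j = Sum.inr (Sum.inl p) → p.1 ≤ n ∨ L ≤ p.1) ∧
          N (fun j => Sum.elim id (Sum.elim (fun p => x p.1 p.2) (fun q => d.1 (π q.1) q.2))
            (d.2 π j)) ≠ N (fun j => Sum.elim id (Sum.elim (fun p => x p.1 p.2)
              (fun q => x (n + 1 + (q.1 : ℕ)) q.2)) (d.2 π j)))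
      (by
        intro n₀
        obtain ⟨n, hn, v, h1, h2, h3⟩ := hcon (n₀ + n₁)
        have h4 := hn₁ n (by omega) v h1 h2
        obtain ⟨L, hL1, hL2⟩ := vt_bound hP h1
        have h5 : ∀ π : Equiv.Perm (Fin p), ∃ t : Fin r → ℕ ⊕ ((ℕ × κ) ⊕ (Fin p × κ)),
            (∀ j a, t j = Sum.inl a → a ∈ A) ∧
            (∀ j p, t j = Sum.inr (Sum.inl p) → p.1 ≤ n ∨ L ≤ p.1) ∧
            N (fun j => Sum.elim id (Sum.elim (fun p => x p.1 p.2) (fun q => v (π q.1) q.2))
              (t j)) ≠ N (fun j => Sum.elim id (Sum.elim (fun p => x p.1 p.2)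
                (fun q => x (n + 1 + (q.1 : ℕ)) q.2)) (t j)) := by
          intro π
          have h6 := h3 (fun s s' hss => h4 s s' hss) π L (by omega)
          unfold VT at h6
          push Not at h6
          exact h6
        choose t ht1 ht2 ht3 using h5
        exact ⟨n, L, (v, t), by omega, hL1, hL2, h2, fun π => ⟨ht1 π, ht2 π, ht3 π⟩⟩)
    obtain ⟨φ, A', m, e', Tm, Tp, y, w, S, T, k1, k2, k3, k4, k5, k6, k7, k8, k9, k10, k11, k12,
        k13, k14⟩ :=
      vt_lim hW hN hP hG n' L' g1 g2 (fun j => (d j).1) (fun j => (g3 j).1)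
        (fun j => (g3 j).2.1) (fun j => (d j).2) (fun j π => ((g3 j).2.2 π).1)
        (fun j π => ((g3 j).2.2 π).2.1)
    have hsim : ∀ s s', Teq N A' e' (blk 0 (y s)) (blk 0 (y s')) := fun s s' =>
      (k6 s).teq.trans (k6 s').teq.symm
    have hasym : ∀ s s', Prec N A' e' (y s) (y s') → ¬ Prec N A' e' (y s') (y s) := by
      intro s s' h h'
      exact Bef.asymm k2 ((k6 s).ca.not_perp k2 ⟨Equiv.refl κ, hsim s s'⟩)
        (Teq.refl k2 (blk 0 (y s))) (Teq.refl k2 (blk 0 (y s')))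
        ((bef_blk_iff k2 0 (y s) (y s')).2 h) ((bef_blk_iff k2 0 (y s') (y s)).2 h')
    obtain ⟨π, hπ⟩ := vt_sort (fun s s' => Prec N A' e' (y s) (y s'))
      (fun s s' hss => c5 hW k2 k1 (k6 s).ca (k6 s').ca ⟨Equiv.refl κ, hsim s s'⟩
        (k8 s s' hss))
      (fun s s' _ => hasym s s')
      (fun a b c _ _ _ p1 p2 => lx_trans hW k2 k1 (k6 a).ca (k6 b).ca (k6 c).ca (hsim a b)
        (hsim b c) p1 p2)
    have hex := exch hW k2 k1 k3 k4 k5 S k12 (fun s => y (π s)) w (fun s => k6 _) k7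
      (fun s s' hss => k8 _ _ (fun h => hss (π.injective h)))
      (fun s s' hss => by
        rcases lt_or_gt_of_ne hss with h | h
        · exact (k9 s s' h).2
        · exact (k9 s' s h).2.symm)
      (fun s s' hss h => by
        rcases lt_or_gt_of_ne hss with h1 | h1
        · exact (k9 s s' h1).1
        · exact absurd h (hasym _ _ (hπ s' s h1)))
      (T π) (k13 π) 0
    apply ((g3 (φ 0)).2.2 π).2.2
    have ev : ∀ ρ : Fin p × κ → ℕ, (fun i => Sum.elim id (Sum.elim (fun p => x p.1 p.2) ρ)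
        ((d (φ 0)).2 π i)) = fun i => Sum.elim id (Sum.elim (fun a : S => e' 0 a) ρ) (T π i) :=
      fun ρ => funext fun i => k14 0 π ρ i
    rw [ev, ev]
    have e1 : (fun q : Fin p × κ => (d (φ 0)).1 (π q.1) q.2) =
        fun q : Fin p × κ => e' 0 (y (π q.1) q.2) := funext fun q => (k10 0 _ _).symm
    have e2 : (fun q : Fin p × κ => x (n' (φ 0) + 1 + (q.1 : ℕ)) q.2) =
        fun q : Fin p × κ => e' 0 (w q.1 q.2) := funext fun q => (k11 0 _ _).symm
    rw [e1, e2]
    exact hex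

end Pool.H17.TB
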