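import Pool.Agent.H17.TB.Lim3

/-!
# Labels and order of cells
-/

set_option autoImplicit false

namespace Pool.H17.TB

open Pool.H22.VC Function Set Pool.H17.TA

variable {r : ℕ} {K ι κ κ' : Type} {N : Col r K ℕ} {A : Set ℕ} {x : ℕ → κ → ℕ}

private theorem plT_inl' {f b : ℕ} {z : κ → ℕ × ι} {u : ℕ ⊕ ((ℕ × ι) ⊕ (κ ⊕ (ℕ × ι)))} {a : ℕ}
    (h : plT f b z u = Sum.inl a) : u = Sum.inl a := by
  rcases u with a' | p | k | p
  · exact congrArg Sum.inl (Sum.inl.inj h)
  · exact absurd h (by simp [plT])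
  · exact absurd h (by simp [plT])
  · exact absurd h (by simp [plT])

private theorem label_back {n : ℕ} {v : κ → ℕ} (hv : v ∈ VV N A x n) (σ : κ ≃ κ)
    (hσ : Teq N A x (blk 0 (fun k => σ k)) (blk 0 (fun k => k))) :
    (fun k => v (σ k)) ∈ VV N A x n := by
  obtain ⟨L, hL, h1, h2, h3, h4⟩ := hv
  refine ⟨L, hL, h1.comp σ.injective, fun k => h2 _, fun i c k h => h3 i c _ h, ?_⟩
  intro t htA htL
  have g1 := h4 (fun j => Sum.map id (Sum.map id (fun k => σ k)) (t j)) (by
      intro j a hj
      rcases htj : t j with a' | p | k <;> simp only [htj, Sum.map_inl, Sum.map_inr, id,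
        Sum.inl.injEq, reduceCtorEq] at hj
      rw [← hj]
      exact htA j a' htj) (by
      intro j p hj
      rcases htj : t j with a' | p' | k <;> simp only [htj, Sum.map_inl, Sum.map_inr, id,
        Sum.inr.injEq, Sum.inl.injEq, reduceCtorEq] at hj
      rw [← hj]
      exact htL j p' htj)
  have e1 : ∀ w : κ → ℕ, (fun j => Sum.elim id (Sum.elim (fun p => x p.1 p.2) (fun k => w (σ k))) (t j)) =
      fun j => Sum.elim id (Sum.elim (fun p => x p.1 p.2) w)
        (Sum.map id (Sum.map id (fun k => σ k)) (t j)) := by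
    intro w
    funext j
    rcases t j with a | p | k <;> rfl
  rw [e1 v, g1, ← e1]
  -- contexts of `Teq`
  have g2 := hσ (n + 1) L L (by omega) (by omega) (fun k => hL) (fun k => hL)
    (fun j => Sum.elim Sum.inl (Sum.elim (fun p => if p.1 ≤ n then Sum.inr (Sum.inl p) else
      Sum.inr (Sum.inr (Sum.inr (p.1 - L, p.2)))) (fun k => Sum.inr (Sum.inr (Sum.inl k)))) (t j))
    (by
      constructor
      · intro j a hj
        rcases htj : t j with a' | p | k
        · simp only [htj, Sum.elim_inl, Sum.inl.injEq] at hj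
          rw [← hj]
          exact htA j a' htj
        · simp only [htj, Sum.elim_inl, Sum.elim_inr] at hj
          split_ifs at hj
        · simp only [htj, Sum.elim_inr, reduceCtorEq] at hj
      · intro j p hj
        rcases htj : t j with a' | p' | k
        · simp only [htj, Sum.elim_inl, reduceCtorEq] at hj
        · simp only [htj, Sum.elim_inl, Sum.elim_inr] at hj
          split_ifs at hj with h
          · rw [← Sum.inl.inj (Sum.inr.inj hj)]
            omega
          · exact absurd (Sum.inr.inj hj) (by simp)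
        · simp only [htj, Sum.elim_inr, Sum.inr.injEq, reduceCtorEq] at hj)
  have e2 : ∀ (ρ : κ → κ), (fun j => pl x (n + 1) L (blk 0 ρ)
      (Sum.elim Sum.inl (Sum.elim (fun p => if p.1 ≤ n then Sum.inr (Sum.inl p) else
      Sum.inr (Sum.inr (Sum.inr (p.1 - L, p.2)))) (fun k => Sum.inr (Sum.inr (Sum.inl k)))) (t j))) =
      fun j => Sum.elim id (Sum.elim (fun p => x p.1 p.2) (fun k => x (n + 1) (ρ k))) (t j) := by
    intro ρ
    funext j
    rcases htj : t j with a' | p | k
    · rfl
    · have h5 := htL j p htj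
      simp only [Sum.elim_inl, Sum.elim_inr]
      split_ifs with h
      · rfl
      · show x (L + (p.1 - L)) p.2 = x p.1 p.2
        congr 1
        omega
    · rfl
  rw [e2, e2] at g2
  exact g2

/-- LABELS. For large `n` the labellings of a cell of `VV n` which are in `VV n` are those given by
the label symmetries of the chain. PROOF. If `σ` is a symmetry then `VL n L (v ∘ σ)` follows from
`VL n L v` for all `n`: relabel the context, and use `Teq` for `blk 0 σ`, `blk 0 id` in the context.
Conversely suppose that for infinitely many `n` there are `v` in `VV n` and `σ` (constant) not a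
symmetry with `v ∘ σ` in `VV n`: `lim`, `vlim` for `v` and `v ∘ σ`: `y` and `y ∘ σ` have the type of
`Tm`, so `Tm ∘ σ` and `Tm` have the same type in `e'`, hence (`Ext.teq`) `σ` is a symmetry. -/
theorem vv_label (hW : ¬ Wild N univ) (hN : (range N).Finite) (hP : PCh N A x) [Finite κ]
    (hG : MG N A x) :
    ∃ n₀, ∀ n, n₀ ≤ n → ∀ v ∈ VV N A x n, ∀ σ : κ ≃ κ,
      (fun k => v (σ k)) ∈ VV N A x n ↔
        Teq N A x (blk 0 (fun k => σ k)) (blk 0 (fun k => k)) := by
  classical
  by_contra hcon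
  push Not at hcon
  have h1 : ∀ n₀, ∃ n, n₀ ≤ n ∧ ∃ v ∈ VV N A x n, ∃ σ : κ ≃ κ, (fun k => v (σ k)) ∈ VV N A x n ∧
      ¬ Teq N A x (blk 0 (fun k => σ k)) (blk 0 (fun k => k)) := by
    intro n₀
    obtain ⟨n, hn, v, hv, σ, hσ⟩ := hcon n₀
    refine ⟨n, hn, v, hv, σ, ?_⟩
    rcases hσ with ⟨h, h'⟩ | ⟨h, h'⟩
    · exact ⟨h, h'⟩
    · exact absurd (label_back hv σ h') h
  obtain ⟨σ, hσ⟩ : ∃ σ : κ ≃ κ, ∀ n₀, ∃ n, n₀ ≤ n ∧ ∃ v ∈ VV N A x n,
      (fun k => v (σ k)) ∈ VV N A x n ∧
      ¬ Teq N A x (blk 0 (fun k => σ k)) (blk 0 (fun k => k)) := by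
    by_contra hc
    push Not at hc
    choose g hg using hc
    obtain ⟨M, hM⟩ := (Set.finite_range g).bddAbove
    obtain ⟨n, hn, v, hv, σ, h2, h3⟩ := h1 M
    exact h3 (hg σ n ((hM (mem_range_self σ)).trans hn) v hv h2)
  have hns : ¬ Teq N A x (blk 0 (fun k => σ k)) (blk 0 (fun k => k)) := by
    obtain ⟨n, -, v, -, -, h⟩ := hσ 0
    exact h
  have h2 : ∀ n₀, ∃ (n L : ℕ) (v : κ → ℕ), n₀ ≤ n ∧ n + 1 < L ∧ VL N A x n L v ∧
      VL N A x n L (fun k => v (σ k)) := by
    intro n₀
    obtain ⟨n, hn, v, ⟨L, hL, hv⟩, ⟨L', hL', hv'⟩, -⟩ := hσ n₀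
    exact ⟨n, max L L', v, hn, lt_of_lt_of_le hL (le_max_left _ _),
      hv.mono hP le_rfl (le_max_left _ _) hL, hv'.mono hP le_rfl (le_max_right _ _) hL'⟩
  choose nf Lf vf hnf hLf hvf hvf' using h2
  obtain ⟨s, hs⟩ : ∃ s : ℕ → ℕ, s = fun j => Nat.rec 0 (fun _ a => Lf a + 1) j := ⟨_, rfl⟩
  have hss : ∀ j, s (j + 1) = Lf (s j) + 1 := by
    intro j
    rw [hs]
  obtain ⟨n, hn⟩ : ∃ n : ℕ → ℕ, n = fun j => nf (s j) := ⟨_, rfl⟩
  obtain ⟨L, hL⟩ : ∃ L : ℕ → ℕ, L = fun j => Lf (s j) := ⟨_, rfl⟩
  have hnL : ∀ j, n j + 1 < L j := by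
    intro j
    rw [hn, hL]
    exact hLf (s j)
  have hLn : ∀ j, L j < n (j + 1) := by
    intro j
    rw [hn, hL]
    show Lf (s j) < nf (s (j + 1))
    have := hnf (s (j + 1))
    rw [hss j] at this ⊢
    omega
  have hmono : StrictMono n := strictMono_nat_of_lt_succ (fun j => by
    have := hnL j
    have := hLn j
    omega)
  obtain ⟨q, ⟨E⟩⟩ := Finite.exists_equiv_fin κ
  obtain ⟨φ, A', m, e', Tm, Tp, χ, X, hφ, hA', hAA', hH', hTm, hTp, hχ, hu, -, -⟩ :=
    lim hN hP hP.fin Subset.rfl n L (fun k => by have := hnL k; omega) hLn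
      (fun j c => vf (s j) (E.symm c)) (fun _ i => Fin.elim0 i)
  have hLn' : ∀ j, L (φ j) < n (φ (j + 1)) := fun j =>
    (hLn (φ j)).trans_le (hmono.monotone (Nat.succ_le_of_lt (hφ (Nat.lt_succ_self j))))
  obtain ⟨y, hy1, hy2⟩ := vlim hW hP hG hA' hAA' hH' hTm hTp (n := fun j => n (φ j))
    (L := fun j => L (φ j)) (fun j => hnL (φ j)) hLn' (fun j => vf (s (φ j))) (fun j => by
      rw [hn, hL]
      exact hvf (s (φ j))) (fun k => χ (E k)) (fun k a h => hχ _ a h) (fun j k => by
      have := hu j (E k)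
      rw [E.symm_apply_apply] at this
      exact this)
  obtain ⟨y', hy1', hy2'⟩ := vlim hW hP hG hA' hAA' hH' hTm hTp (n := fun j => n (φ j))
    (L := fun j => L (φ j)) (fun j => hnL (φ j)) hLn' (fun j k => vf (s (φ j)) (σ k)) (fun j => by
      rw [hn, hL]
      exact hvf' (s (φ j))) (fun k => χ (E (σ k))) (fun k a h => hχ _ a h) (fun j k => by
      have := hu j (E (σ k))
      rw [E.symm_apply_apply] at this
      exact this)
  have hyy : y' = fun k => y (σ k) := by
    funext k
    have h3 := hy1 (σ k)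
    have h4 := hy1' k
    rw [h3] at h4
    exact (Sum.inr.inj h4).symm
  have h3 : Teq N A' e' (blk 0 (fun k => Tm (σ k))) (blk 0 Tm) := by
    have g1 := Teq.comp hH' hy2.teq (fun k => σ k)
    have g2 := hy2'.teq
    rw [hyy] at g2
    exact (Teq.symm g1).trans g2
  refine hns ?_
  have hE : Ext A x A' e' Tm := ⟨hAA', fun j => n (φ j), fun a b h => hmono (hφ h), fun j k => hTm j k⟩
  exact hE.teq hP.hom hH' h3

/-- the order `LT` passes to larger `n` and is `Prec` in the limit. Let `y`, `z` be atoms between `Tm`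
and `Tp` which are cells `v j`, `w j` with `VT (n j) (L j) ![v j, w j]`: then `Prec y z` (otherwise
`Prec z y` (`c5`) and the pair `(x 0, x 1)` has the type of `(x 1, x 0)` in the chain). -/
theorem prec_of_VT (hW : ¬ Wild N univ) (hP : PCh N A x) [Finite κ]
    (hG : MG N A x) {A' : Set ℕ} {m : ℕ} {e' : ℕ → Fin m → ℕ} (hA' : A'.Finite) (hAA' : A ⊆ A')
    (hH' : Hom N A' e') {Tm Tp : κ → Fin m} {n L : ℕ → ℕ} (hTm : ∀ j k, e' j (Tm k) = x (n j) k)
    (hTp : ∀ j k, e' j (Tp k) = x (L j) k) (hnL : ∀ j, n j + 2 < L j)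
    (hLn : ∀ j, L j < n (j + 1)) {y z : κ → Fin m} (hy : Btw N A' e' Tm Tp y)
    (hz : Btw N A' e' Tm Tp z) (hd : Disjoint (range y) (range z))
    (h : ∀ j, VT N A x (n j) (L j) ![fun k => e' j (y k), fun k => e' j (z k)]) :
    Prec N A' e' y z := by
  classical
  have hs : Sim N A' e' y z := ⟨Equiv.refl κ, hy.teq.trans hz.teq.symm⟩
  rcases c5 hW hH' hA' hy.ca hz.ca hs hd with h1 | h1
  · exact h1
  exfalso
  apply hP.ca.nperp
  have e1 : Teq N A' e' (Sum.elim (blk 0 y) (blk 0 z)) (Sum.elim (blk 1 Tm) (blk 0 Tm)) := by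
    have g1 := Teq.comp hH' h1 (Sum.swap : κ ⊕ κ → κ ⊕ κ)
    have e0 : ∀ (i j : ℕ) (α β : κ → Fin m),
        (fun k : κ ⊕ κ => Sum.elim (blk i α) (blk j β) (Sum.swap k)) =
          Sum.elim (blk j β) (blk i α) := by
      intro i j α β
      funext k
      rcases k with k | k <;> rfl
    rw [e0, e0] at g1
    have t1 : Teq N A' e' (blk 1 y) (blk 1 Tm) :=
      ((teq_blk hH' 1 0 y).trans hy.teq).trans (teq_blk hH' 0 1 Tm)
    exact g1.trans (cp_front hH' t1 hz.teq (fun _ _ => Nat.zero_lt_one) (fun _ _ => Nat.zero_lt_one))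
  have hmono : StrictMono n := strictMono_nat_of_lt_succ (fun j => by
    have := hnL j
    have := hLn j
    omega)
  intro f b b' hb hb' hz0 hz0' t ht
  obtain ⟨M, hM⟩ : ∃ M : ℕ ⊕ ((ℕ × κ) ⊕ ((κ ⊕ κ) ⊕ (ℕ × κ))) →
      ℕ ⊕ ((ℕ × Fin m) ⊕ ((κ ⊕ κ) ⊕ (ℕ × Fin m))), M = Sum.map id (Sum.map
        (fun p => (p.1, Tm p.2)) (Sum.map id (fun p => (p.1, Tm p.2)))) := ⟨_, rfl⟩
  have hAdm : Adm A' f (fun j => M (t j)) := by
    constructor
    · intro j a hj
      rcases htj : t j with a' | p | k | p <;> simp only [htj, hM, Sum.map_inl, Sum.map_inr, id,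
        Sum.inl.injEq, reduceCtorEq] at hj
      rw [← hj]
      exact hAA' (ht.1 j a' htj)
    · intro j p hj
      rcases htj : t j with a' | p' | k | p' <;> simp only [htj, hM, Sum.map_inl, Sum.map_inr, id,
        Sum.inr.injEq, Sum.inl.injEq, reduceCtorEq] at hj
      rw [← hj]
      exact ht.2 j p' htj
  have g2 := e1 f (f + 1) (f + 2) (by omega) (by omega)
    (by rintro (k | k) <;> simp [blk]) (by rintro (k | k) <;> simp [blk]) _ hAdm
  -- left side
  have hLft : N (fun j => pl x f b (Sum.elim (blk 0 (id : κ → κ)) (blk 1 id)) (t j)) =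
      N (fun j => pl e' f (f + 1) (Sum.elim (blk 0 y) (blk 0 z)) (M (t j))) := by
    obtain ⟨φ, hφ⟩ : ∃ φ : ℕ → ℕ, φ = fun i => if i < f then n i else if i = f then n f + 1 else
      if i = f + 1 then n f + 2 else n (i - 1) := ⟨_, rfl⟩
    have hφm : StrictMono φ := by
      refine strictMono_nat_of_lt_succ (fun i => ?_)
      rw [hφ]
      simp only
      have q1 := hnL f
      have q2 := hLn f
      by_cases c1 : i + 1 < f
      · rw [if_pos (by omega), if_pos c1]
        exact hmono (Nat.lt_succ_self i)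
      · by_cases c2 : i + 1 = f
        · rw [if_pos (by omega), if_neg c1, if_pos c2]
          have := hmono (show i < f by omega)
          omega
        · by_cases c3 : i = f
          · subst c3
            rw [if_neg (by omega), if_pos rfl, if_neg (by omega), if_neg (by omega), if_pos rfl]
            omega
          · by_cases c4 : i = f + 1
            · subst c4
              rw [if_neg (by omega), if_neg (by omega), if_pos rfl, if_neg (by omega),
                if_neg (by omega), if_neg (by omega)]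
              have : f + 1 + 1 - 1 = f + 1 := by omega
              rw [this]
              omega
            · rw [if_neg (by omega), if_neg (by omega), if_neg (by omega), if_neg (by omega),
                if_neg (by omega), if_neg (by omega)]
              exact hmono (by omega)
    rw [pl_shift hP.hom (Sum.elim (blk 0 (id : κ → κ)) (blk 1 id)) le_rfl hb
      (show f ≤ f + 2 by omega) hz0 (by rintro (k | k) <;> simp [blk]) t ht]
    simp only [pl_eq x]
    rw [← hP.hom.hom φ hφm (fun j => plT f (f + 2) (Sum.elim (blk 0 (id : κ → κ)) (blk 1 id)) (t j))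
      (fun j a hj => ht.1 j a (plT_inl' hj))]
    have g3 := h f (fun j => Sum.elim Sum.inl (Sum.elim (fun p => Sum.inr (Sum.inl (n p.1, p.2)))
      (Sum.elim (Sum.elim (fun k => Sum.inr (Sum.inr (0, k))) (fun k => Sum.inr (Sum.inr (1, k))))
        (fun p => Sum.inr (Sum.inl (n (f + 1 + p.1), p.2))))) (t j)) (by
        intro j a hj
        rcases htj : t j with a' | p | (k | k) | p <;> simp only [htj, Sum.elim_inl, Sum.elim_inr,
          Sum.inl.injEq, reduceCtorEq] at hj
        rw [← hj]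
        exact ht.1 j a' htj) (by
        intro j p hj
        rcases htj : t j with a' | p' | (k | k) | p' <;> simp only [htj, Sum.elim_inl, Sum.elim_inr,
          Sum.inr.injEq, Sum.inl.injEq, reduceCtorEq] at hj
        · left
          rw [← hj]
          have := ht.2 j p' htj
          exact hmono.monotone this.le
        · right
          rw [← hj]
          exact (hLn f).le.trans (hmono.monotone (by omega)))
    have e2 : (fun j => pl e' f (f + 1) (Sum.elim (blk 0 y) (blk 0 z)) (M (t j))) =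
        fun j => Sum.elim id (Sum.elim (fun p => x p.1 p.2)
          (fun q => (![fun k => e' f (y k), fun k => e' f (z k)] : Fin 2 → κ → ℕ) q.1 q.2))
          (Sum.elim Sum.inl (Sum.elim (fun p => Sum.inr (Sum.inl (n p.1, p.2)))
      (Sum.elim (Sum.elim (fun k => Sum.inr (Sum.inr (0, k))) (fun k => Sum.inr (Sum.inr (1, k))))
        (fun p => Sum.inr (Sum.inl (n (f + 1 + p.1), p.2))))) (t j)) := by
      funext j
      rw [hM]
      rcases htj : t j with a' | p | (k | k) | p
      · rfl
      · exact hTm _ _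
      · rfl
      · rfl
      · exact hTm _ _
    rw [e2, g3]
    congr 1
    funext j
    rcases htj : t j with a' | p | (k | k) | p
    · rfl
    · show x (φ p.1) p.2 = x (n p.1) p.2
      have h5 := ht.2 j p htj
      rw [hφ]
      simp only
      rw [if_pos h5]
    · show x (φ (f + 0)) k = x (n f + 1 + ((0 : Fin 2) : ℕ)) k
      rw [hφ]
      simp only
      rw [if_neg (by omega), if_pos (by omega)]
      rfl
    · show x (φ (f + 1)) k = x (n f + 1 + ((1 : Fin 2) : ℕ)) k
      rw [hφ]
      show x (if f + 1 < f then n (f + 1) else if f + 1 = f then n f + 1 else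
        if f + 1 = f + 1 then n f + 2 else n (f + 1 - 1)) k = x (n f + 1 + 1) k
      rw [if_neg (by omega), if_neg (by omega), if_pos rfl]
    · show x (φ (f + 2 + p.1)) p.2 = x (n (f + 1 + p.1)) p.2
      rw [hφ]
      simp only
      rw [if_neg (by omega), if_neg (by omega), if_neg (by omega)]
      have : f + 2 + p.1 - 1 = f + 1 + p.1 := by omega
      rw [this]
  -- right side
  have hRgt : N (fun j => pl x f b' (Sum.elim (blk 1 (id : κ → κ)) (blk 0 id)) (t j)) =
      N (fun j => pl e' f (f + 2) (Sum.elim (blk 1 Tm) (blk 0 Tm)) (M (t j))) := by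
    rw [pl_shift hP.hom (Sum.elim (blk 1 (id : κ → κ)) (blk 0 id)) le_rfl hb'
      (show f ≤ f + 2 by omega) hz0' (by rintro (k | k) <;> simp [blk]) t ht]
    simp only [pl_eq x]
    rw [← hP.hom.hom n hmono (fun j => plT f (f + 2) (Sum.elim (blk 1 (id : κ → κ)) (blk 0 id)) (t j))
      (fun j a hj => ht.1 j a (plT_inl' hj))]
    congr 1
    funext j
    rw [hM]
    rcases htj : t j with a' | p | (k | k) | p
    · rfl
    · exact (hTm _ _).symm
    · exact (hTm _ _).symm
    · exact (hTm _ _).symm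
    · exact (hTm _ _).symm
  rw [hLft, hRgt]
  exact g2

end Pool.H17.TB
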