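import Pool.Agent.H17.TB.Dyn1
import Pool.Agent.H17.TB.Dyn2
import Pool.Agent.H17.TB.Dyn3

/-!
# Invariance
-/

set_option autoImplicit false

namespace Pool.H17.TB

open Pool.H22.VC Function Set Pool.H17.TA

variable {r : ℕ} {K ι κ κ' : Type} {N : Col r K ℕ} {A : Set ℕ} {x : ℕ → κ → ℕ}

private structure Bad (N : Col r K ℕ) (A : Set ℕ) (x : ℕ → κ → ℕ) (p : ℕ)
    (S0 : Fin r → Option (Fin p × κ)) (R : Fin p → Fin p → Prop) (n : ℕ) (v w : Fin p → κ → ℕ)
    (a : Fin r → ℕ) : Prop where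
  hv : ∀ s, v s ∈ VV N A x n
  hw : ∀ s, w s ∈ VV N A x n
  dv : ∀ s s', s ≠ s' → range (v s) ≠ range (v s')
  dw : ∀ s s', s ≠ s' → range (w s) ≠ range (w s')
  out : ∀ i, S0 i = none → ∀ c ∈ VV N A x n, a i ∉ range c
  ord : ∀ s s', R s s' ↔ LT N A x n (v s) (v s')
  ord' : ∀ s s', (∀ k, ∃ j, S0 j = some (s, k)) → (∀ k, ∃ j, S0 j = some (s', k)) → R s s' →
    LT N A x n (w s) (w s')
  ne : N (fun j => (S0 j).elim (a j) (fun q => v q.1 q.2)) ≠
    N (fun j => (S0 j).elim (a j) (fun q => w q.1 q.2))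

private theorem vl_ev (hP : PCh N A x) {n : ℕ} {v : κ → ℕ} (h : v ∈ VV N A x n) :
    ∀ᶠ L in Filter.atTop, VL N A x n L v := by
  obtain ⟨L, hL, h⟩ := h
  filter_upwards [Filter.eventually_ge_atTop L] with L' hL'
  exact h.mono hP le_rfl hL' hL

private theorem vt_ev (hP : PCh N A x) {n : ℕ} {v w : κ → ℕ} (h : LT N A x n v w) :
    ∀ᶠ L in Filter.atTop, VT N A x n L ![v, w] := by
  obtain ⟨L, hL, h⟩ := h
  filter_upwards [Filter.eventually_ge_atTop L] with L' hL'
  exact h.mono hP hL'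

private theorem lt_total {n : ℕ} {v w : κ → ℕ}
    (h : ∃ (π : Equiv.Perm (Fin 2)) (L : ℕ), n + 2 < L ∧
      VT N A x n L (fun s => (![v, w] : Fin 2 → κ → ℕ) (π s))) :
    LT N A x n v w ∨ LT N A x n w v := by
  obtain ⟨π, L, hL, h⟩ := h
  by_cases h0 : π 0 = 0
  · left
    have h1 : π 1 = 1 := by
      have : π 1 ≠ π 0 := fun h => by simpa using π.injective h
      omega
    have e : (fun s => (![v, w] : Fin 2 → κ → ℕ) (π s)) = ![v, w] := by
      funext s
      fin_cases s
      · show (![v, w] : Fin 2 → κ → ℕ) (π 0) = v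
        rw [h0]
        rfl
      · show (![v, w] : Fin 2 → κ → ℕ) (π 1) = w
        rw [h1]
        rfl
    rw [e] at h
    exact ⟨L, hL, h⟩
  · right
    have h0' : π 0 = 1 := by omega
    have h1 : π 1 = 0 := by
      have : π 1 ≠ π 0 := fun h => by simpa using π.injective h
      omega
    have e : (fun s => (![v, w] : Fin 2 → κ → ℕ) (π s)) = ![w, v] := by
      funext s
      fin_cases s
      · show (![v, w] : Fin 2 → κ → ℕ) (π 0) = w
        rw [h0']
        rfl
      · show (![v, w] : Fin 2 → κ → ℕ) (π 1) = v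
        rw [h1]
        rfl
    rw [e] at h
    exact ⟨L, hL, h⟩

/-- the limit argument -/
private theorem no_bad (hW : ¬ Wild N univ) (hN : (range N).Finite) (hP : PCh N A x) [Finite κ]
    (hG : MG N A x) (p : ℕ) (S0 : Fin r → Option (Fin p × κ)) (R : Fin p → Fin p → Prop)
    (h : ∀ n₀, ∃ n, n₀ ≤ n ∧ ∃ v w a, Bad N A x p S0 R n v w a) : False := by
  classical
  obtain ⟨n₁, hn₁⟩ := vt_exists hW hN hP hG 2
  have h2 : ∀ n₀, ∃ (n L : ℕ) (v w : Fin p → κ → ℕ) (a : Fin r → ℕ), n₀ ≤ n ∧ n + 2 < L ∧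
      Bad N A x p S0 R n v w a ∧ (∀ s, VL N A x n L (v s)) ∧ (∀ s, VL N A x n L (w s)) ∧
      (∀ s s', s ≠ s' → (R s s' → VT N A x n L ![v s, v s']) ∧
        (¬ R s s' → VT N A x n L ![v s', v s])) ∧
      ∀ s s', (∀ k, ∃ j, S0 j = some (s, k)) → (∀ k, ∃ j, S0 j = some (s', k)) → R s s' →
        VT N A x n L ![w s, w s'] := by
    intro n₀
    obtain ⟨n, hn, v, w, a, hB⟩ := h (max n₀ n₁)
    have e1 : ∀ᶠ L in Filter.atTop, ∀ s, VL N A x n L (v s) :=
      Filter.eventually_all.2 fun s => vl_ev hP (hB.hv s)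
    have e2 : ∀ᶠ L in Filter.atTop, ∀ s, VL N A x n L (w s) :=
      Filter.eventually_all.2 fun s => vl_ev hP (hB.hw s)
    have e3 : ∀ᶠ L in Filter.atTop, ∀ s s', s ≠ s' → (R s s' → VT N A x n L ![v s, v s']) ∧
        (¬ R s s' → VT N A x n L ![v s', v s]) := by
      refine Filter.eventually_all.2 fun s => Filter.eventually_all.2 fun s' => ?_
      by_cases hss : s = s'
      · exact Filter.Eventually.of_forall fun L hne => absurd hss hne
      by_cases hR : R s s'
      · filter_upwards [vt_ev hP ((hB.ord s s').1 hR)] with L hL _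
        exact ⟨fun _ => hL, fun hn => absurd hR hn⟩
      · have hlt : LT N A x n (v s') (v s) := by
          have g := hn₁ n ((le_max_right _ _).trans hn) ![v s, v s'] (by
            rw [Fin.forall_fin_two]
            exact ⟨hB.hv s, hB.hv s'⟩) (by
            rw [Fin.forall_fin_two, Fin.forall_fin_two, Fin.forall_fin_two]
            refine ⟨⟨fun h => absurd rfl h, fun _ => hB.dv s s' hss⟩,
              ⟨fun _ => (hB.dv s s' hss).symm, fun h => absurd rfl h⟩⟩)
          rcases lt_total g.2 with g1 | g1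
          · exact absurd ((hB.ord s s').2 g1) hR
          · exact g1
        filter_upwards [vt_ev hP hlt] with L hL _
        exact ⟨fun hR' => absurd hR' hR, fun _ => hL⟩
    have e4 : ∀ᶠ L in Filter.atTop, ∀ s s', (∀ k, ∃ j, S0 j = some (s, k)) →
        (∀ k, ∃ j, S0 j = some (s', k)) → R s s' → VT N A x n L ![w s, w s'] := by
      refine Filter.eventually_all.2 fun s => Filter.eventually_all.2 fun s' => ?_
      by_cases hc : (∀ k, ∃ j, S0 j = some (s, k)) ∧ (∀ k, ∃ j, S0 j = some (s', k)) ∧ R s s'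
      · filter_upwards [vt_ev hP (hB.ord' s s' hc.1 hc.2.1 hc.2.2)] with L hL _ _ _
        exact hL
      · exact Filter.Eventually.of_forall fun L c1 c2 c3 => absurd ⟨c1, c2, c3⟩ hc
    obtain ⟨L, ⟨⟨⟨hL1, hL2⟩, hL3⟩, hL4⟩, hL5⟩ :=
      ((((e1.and e2).and e3).and e4).and (Filter.eventually_gt_atTop (n + 2))).exists
    exact ⟨n, L, v, w, a, (le_max_left _ _).trans hn, hL5, hB, hL1, hL2, hL3, hL4⟩
  choose nf Lf vf wf af hnf hLf hB hVv hVw hTv hTw using h2
  obtain ⟨s, hs⟩ : ∃ s : ℕ → ℕ, s = fun j => Nat.rec 0 (fun _ a => Lf a + 1) j := ⟨_, rfl⟩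
  have hss : ∀ j, s (j + 1) = Lf (s j) + 1 := by
    intro j
    rw [hs]
  obtain ⟨n, hn⟩ : ∃ n : ℕ → ℕ, n = fun j => nf (s j) := ⟨_, rfl⟩
  obtain ⟨L, hL⟩ : ∃ L : ℕ → ℕ, L = fun j => Lf (s j) := ⟨_, rfl⟩
  have hnL : ∀ j, n j + 2 < L j := by
    intro j
    rw [hn, hL]
    exact hLf (s j)
  have hLn : ∀ j, L j < n (j + 1) := by
    intro j
    rw [hn, hL]
    show Lf (s j) < nf (s (j + 1))
    have := hnf (s (j + 1))
    rw [hss j] at this ⊢
    omega
  have hmono : StrictMono n := strictMono_nat_of_lt_succ (fun j => by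
    have := hnL j
    have := hLn j
    omega)
  obtain ⟨q, ⟨E⟩⟩ := Finite.exists_equiv_fin (Fin r ⊕ ((Fin p × κ) ⊕ (Fin p × κ)))
  obtain ⟨U, hU⟩ : ∃ U : ℕ → Fin r ⊕ ((Fin p × κ) ⊕ (Fin p × κ)) → ℕ, U = fun j =>
    Sum.elim (fun i => af (s j) i) (Sum.elim (fun q => vf (s j) q.1 q.2)
      (fun q => wf (s j) q.1 q.2)) := ⟨_, rfl⟩
  obtain ⟨φ, A', m, e', Tm, Tp, χ, X, hφ, hA', hAA', hH', hTm, hTp, hχ, hu, -, -⟩ :=
    lim hN hP hP.fin Subset.rfl n L (fun k => by have := hnL k; omega) hLn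
      (fun j c => U j (E.symm c)) (fun _ i => Fin.elim0 i)
  have hu' : ∀ j c, U (φ j) c = Sum.elim id (e' j) (χ (E c)) := by
    intro j c
    have := hu j (E c)
    rw [E.symm_apply_apply] at this
    exact this
  have hnφ : StrictMono (fun j => n (φ j)) := fun a b h => hmono (hφ h)
  have hLn' : ∀ j, L (φ j) < n (φ (j + 1)) := fun j =>
    (hLn (φ j)).trans_le (hmono.monotone (Nat.succ_le_of_lt (hφ (Nat.lt_succ_self j))))
  have hnL1 : ∀ j, n (φ j) + 1 < L (φ j) := fun j => by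
    have := hnL (φ j)
    omega
  -- the atoms of the cells
  have hy : ∀ c : Fin p, ∃ y : κ → Fin m, (∀ k, χ (E (Sum.inr (Sum.inl (c, k)))) = Sum.inr (y k)) ∧
      Btw N A' e' Tm Tp y := by
    intro c
    exact vlim hW hP hG hA' hAA' hH' hTm hTp (n := fun j => n (φ j)) (L := fun j => L (φ j))
      hnL1 hLn' (fun j => vf (s (φ j)) c) (fun j => by
        rw [hn, hL]
        exact hVv (s (φ j)) c) (fun k => χ (E (Sum.inr (Sum.inl (c, k)))))
      (fun k a h => hχ _ a h) (fun j k => by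
        have := hu' j (Sum.inr (Sum.inl (c, k)))
        rw [hU] at this
        exact this)
  have hz : ∀ c : Fin p, ∃ y : κ → Fin m, (∀ k, χ (E (Sum.inr (Sum.inr (c, k)))) = Sum.inr (y k)) ∧
      Btw N A' e' Tm Tp y := by
    intro c
    exact vlim hW hP hG hA' hAA' hH' hTm hTp (n := fun j => n (φ j)) (L := fun j => L (φ j))
      hnL1 hLn' (fun j => wf (s (φ j)) c) (fun j => by
        rw [hn, hL]
        exact hVw (s (φ j)) c) (fun k => χ (E (Sum.inr (Sum.inr (c, k)))))
      (fun k a h => hχ _ a h) (fun j k => by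
        have := hu' j (Sum.inr (Sum.inr (c, k)))
        rw [hU] at this
        exact this)
  choose y hy1 hy2 using hy
  choose z hz1 hz2 using hz
  have hyv : ∀ j c, (fun k => e' j (y c k)) = vf (s (φ j)) c := by
    intro j c
    funext k
    have := hu' j (Sum.inr (Sum.inl (c, k)))
    rw [hU, hy1 c k] at this
    exact this.symm
  have hzw : ∀ j c, (fun k => e' j (z c k)) = wf (s (φ j)) c := by
    intro j c
    funext k
    have := hu' j (Sum.inr (Sum.inr (c, k)))
    rw [hU, hz1 c k] at this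
    exact this.symm
  have hrange : ∀ (j : ℕ) (τ : κ → Fin m), range (fun k => e' j (τ k)) = e' j '' range τ := by
    intro j τ
    rw [← Set.range_comp]
    rfl
  have dy : ∀ c c', c ≠ c' → Disjoint (range (y c)) (range (y c')) := by
    intro c c' hcc
    rw [Set.disjoint_iff_inter_eq_empty]
    by_contra hne
    have h3 := c3 hW hH' hA' (hy2 c).ca (hy2 c').ca (Set.nonempty_iff_ne_empty.2 hne)
    refine (hB (s (φ 0))).dv c c' hcc ?_
    rw [← hyv 0 c, ← hyv 0 c', hrange, hrange, h3]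
  have dz : ∀ c c', c ≠ c' → Disjoint (range (z c)) (range (z c')) := by
    intro c c' hcc
    rw [Set.disjoint_iff_inter_eq_empty]
    by_contra hne
    have h3 := c3 hW hH' hA' (hz2 c).ca (hz2 c').ca (Set.nonempty_iff_ne_empty.2 hne)
    refine (hB (s (φ 0))).dw c c' hcc ?_
    rw [← hzw 0 c, ← hzw 0 c', hrange, hrange, h3]
  -- the other letters
  obtain ⟨S, hS⟩ : ∃ S : Set (Fin m), S = {c | ∃ i, S0 i = none ∧ χ (E (Sum.inl i)) = Sum.inr c} :=
    ⟨_, rfl⟩
  have hSa : ∀ c ∈ S, ∃ i, S0 i = none ∧ ∀ j, af (s (φ j)) i = e' j c := by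
    intro c hc
    rw [hS] at hc
    obtain ⟨i, hi, hi'⟩ := hc
    refine ⟨i, hi, fun j => ?_⟩
    have := hu' j (Sum.inl i)
    rw [hU, hi'] at this
    exact this
  have hSout : ∀ c ∈ S, ∀ (j : ℕ) (u : κ → ℕ), u ∈ VV N A x (n (φ j)) → ∀ k, u k ≠ e' j c := by
    intro c hc j u hu k hk
    obtain ⟨i, hi, hi'⟩ := hSa c hc
    have hu2 : u ∈ VV N A x (nf (s (φ j))) := by
      rw [hn] at hu
      exact hu
    refine (hB (s (φ j))).out i hi u hu2 ⟨k, ?_⟩
    rw [hk, hi' j]
  have Sy : ∀ c, Disjoint S (range (y c)) := by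
    intro c
    rw [Set.disjoint_left]
    rintro d hd ⟨k, hk⟩
    refine hSout d hd 0 (vf (s (φ 0)) c) ?_ k ?_
    · rw [hn]
      exact (hB (s (φ 0))).hv c
    · rw [← hyv 0 c, ← hk]
  have Sz : ∀ c, Disjoint S (range (z c)) := by
    intro c
    rw [Set.disjoint_left]
    rintro d hd ⟨k, hk⟩
    refine hSout d hd 0 (wf (s (φ 0)) c) ?_ k ?_
    · rw [hn]
      exact (hB (s (φ 0))).hw c
    · rw [← hzw 0 c, ← hk]
  -- order
  have hprec : ∀ c c', (∀ k, ∃ j, S0 j = some (c, k)) → (∀ k, ∃ j, S0 j = some (c', k)) → c ≠ c' →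
      Prec N A' e' (y c) (y c') → Prec N A' e' (z c) (z c') := by
    intro c c' hc hc' hcc hpr
    by_cases hR : R c c'
    · refine prec_of_VT hW hP hG hA' hAA' hH' hTm hTp (n := fun j => n (φ j))
        (L := fun j => L (φ j)) (fun j => hnL (φ j)) hLn' (hz2 c) (hz2 c') (dz c c' hcc) ?_
      intro j
      rw [hzw j c, hzw j c', hn, hL]
      exact hTw (s (φ j)) c c' hc hc' hR
    · exfalso
      have h3 : Prec N A' e' (y c') (y c) := by
        refine prec_of_VT hW hP hG hA' hAA' hH' hTm hTp (n := fun j => n (φ j))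
          (L := fun j => L (φ j)) (fun j => hnL (φ j)) hLn' (hy2 c') (hy2 c)
          (dy c' c hcc.symm) ?_
        intro j
        rw [hyv j c, hyv j c', hn, hL]
        exact (hTv (s (φ j)) c c' hcc).2 hR
      have hnp : ¬ Perp N A' e' (y c) (y c') :=
        (hy2 c).ca.not_perp hH' ⟨Equiv.refl κ, (hy2 c).teq.trans (hy2 c').teq.symm⟩
      exact Bef.asymm hH' hnp (Teq.refl hH' _) (Teq.refl hH' _)
        ((bef_blk_iff hH' 0 _ _).2 hpr) ((bef_blk_iff hH' 0 _ _).2 h3)
  obtain ⟨hm1, hp1, hmp, hpmp, -⟩ := copy_prec hW hP hG hA' hAA' hH' (X := Tm) (Y := Tp)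
    (a := fun j => n (φ j)) (b := fun j => L (φ j)) hTm hTp (fun j => by
      have := hnL1 j
      omega) hLn'
  have hκ := hm1.nonempty hH'
  have hfin := inv_static hW hH' hA' hm1 hp1 hmp S y z hy2 hz2 dy dz Sy Sz
    (fun c => {k | ∃ j, S0 j = some (c, k)})
    (fun c c' hc hc' hcc hpr => hprec c c' (fun k => (hc ▸ mem_univ k : k ∈ {k | ∃ j, S0 j = some (c, k)}))
      (fun k => (hc' ▸ mem_univ k : k ∈ {k | ∃ j, S0 j = some (c', k)})) hcc hpr)
    (by
      intro y' hy' hyt hyS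
      have hsm : Sim N A' e' y' Tm := ⟨Equiv.refl κ, hyt⟩
      have hsp : Sim N A' e' y' Tp := ⟨Equiv.refl κ, hyt.trans hmp.symm⟩
      by_cases d1 : (range y' ∩ range Tm).Nonempty
      · exact Or.inr (Or.inl (c3 hW hH' hA' hy' hm1 d1))
      by_cases d2 : (range y' ∩ range Tp).Nonempty
      · exact Or.inr (Or.inr (Or.inl (c3 hW hH' hA' hy' hp1 d2)))
      rw [Set.not_nonempty_iff_eq_empty, ← Set.disjoint_iff_inter_eq_empty] at d1 d2
      rcases c5 hW hH' hA' hy' hm1 hsm d1 with g1 | g1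
      · exact Or.inl g1
      rcases c5 hW hH' hA' hy' hp1 hsp d2 with g2 | g2
      · exfalso
        obtain ⟨j, -, hj⟩ := cl hW hN hP hG hA' hAA' hH' hTm hTp (n := fun j => n (φ j))
          (L := fun j => L (φ j)) hnL1 hLn' (y := y') ⟨hy', hyt, g1, g2⟩ 0
        obtain ⟨k⟩ := hκ
        exact hSout (y' k) (hyS k) j _ hj k rfl
      · exact Or.inr (Or.inr (Or.inr g2)))
  -- evaluation
  have hctx : ∀ i, ∃ t : ℕ ⊕ ((ℕ × Fin m) ⊕ ((S ⊕ {q : Fin p × κ // q.2 ∈ {k | ∃ j, S0 j = some (q.1, k)}}) ⊕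
      (ℕ × Fin m))), (∀ a, t = Sum.inl a → a ∈ A') ∧ (∀ p, t ≠ Sum.inr (Sum.inl p)) ∧
      (pl e' 0 1 (blk 0 (Sum.elim (fun a : S => (a : Fin m))
        (fun q : {q : Fin p × κ // q.2 ∈ {k | ∃ j, S0 j = some (q.1, k)}} => y q.1.1 q.1.2))) t =
        (S0 i).elim (af (s (φ 0)) i) (fun q => vf (s (φ 0)) q.1 q.2)) ∧
      (pl e' 0 1 (blk 0 (Sum.elim (fun a : S => (a : Fin m))
        (fun q : {q : Fin p × κ // q.2 ∈ {k | ∃ j, S0 j = some (q.1, k)}} => z q.1.1 q.1.2))) t =
        (S0 i).elim (af (s (φ 0)) i) (fun q => wf (s (φ 0)) q.1 q.2)) := by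
    intro i
    rcases hi : S0 i with _ | q
    · rcases hχi : χ (E (Sum.inl i)) with a | c
      · refine ⟨Sum.inl a, ?_, ?_, ?_, ?_⟩
        · intro a' ha'
          rw [← Sum.inl.inj ha']
          exact hχ _ a hχi
        · intro p h
          exact absurd h (by simp)
        · have := hu' 0 (Sum.inl i)
          rw [hU, hχi] at this
          exact this.symm
        · have := hu' 0 (Sum.inl i)
          rw [hU, hχi] at this
          exact this.symm
      · have hcS : c ∈ S := by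
          rw [hS]
          exact ⟨i, hi, hχi⟩
        refine ⟨Sum.inr (Sum.inr (Sum.inl (Sum.inl ⟨c, hcS⟩))), ?_, ?_, ?_, ?_⟩
        · intro a' ha'
          exact absurd ha' (by simp)
        · intro p h
          exact absurd h (by simp)
        · have := hu' 0 (Sum.inl i)
          rw [hU, hχi] at this
          exact this.symm
        · have := hu' 0 (Sum.inl i)
          rw [hU, hχi] at this
          exact this.symm
    · refine ⟨Sum.inr (Sum.inr (Sum.inl (Sum.inr ⟨q, ⟨i, hi⟩⟩))), ?_, ?_, ?_, ?_⟩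
      · intro a' ha'
        exact absurd ha' (by simp)
      · intro p h
        exact absurd h (by simp)
      · exact congrFun (hyv 0 q.1) q.2
      · exact congrFun (hzw 0 q.1) q.2
  choose t ht1 ht2 ht3 ht4 using hctx
  have g := hfin 0 1 1 (by omega) (by omega) (fun _ => Nat.zero_lt_one) (fun _ => Nat.zero_lt_one) t
    ⟨fun j a h => ht1 j a h, fun j p h => absurd h (ht2 j p)⟩
  have e1 : (fun i => pl e' 0 1 (blk 0 (Sum.elim (fun a : S => (a : Fin m))
        (fun q : {q : Fin p × κ // q.2 ∈ {k | ∃ j, S0 j = some (q.1, k)}} => y q.1.1 q.1.2))) (t i)) =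
      fun i => (S0 i).elim (af (s (φ 0)) i) (fun q => vf (s (φ 0)) q.1 q.2) := funext ht3
  have e2 : (fun i => pl e' 0 1 (blk 0 (Sum.elim (fun a : S => (a : Fin m))
        (fun q : {q : Fin p × κ // q.2 ∈ {k | ∃ j, S0 j = some (q.1, k)}} => z q.1.1 q.1.2))) (t i)) =
      fun i => (S0 i).elim (af (s (φ 0)) i) (fun q => wf (s (φ 0)) q.1 q.2) := funext ht4
  rw [e1, e2] at g
  exact (hB (s (φ 0))).ne g

/-- INVARIANCE. For large `n`: `t` is an `r`-tuple of points outside all cells of `VV n` and of places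
`(s, k)` in `p ≤ r` cells; `v s`, `w s` are cells of `VV n` with different ranges; the order of the
full cells is the same for `v` and for `w`. Then `N` does not change if `v` is replaced by `w`. PROOF.
Suppose that it fails for infinitely many `n`, with the same `p` and the same shape of `t`
(`t j = Sum.inl _` or `Sum.inr (s, k)`). Choose `L j` with `VL (n j) (L j)` for all `v s`, `w s` and
`VT (n j) (L j) ![v s, v s']`, `VT (n j) (L j) ![w s, w s']` for all full `s`, `s'` in the right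
order. `lim` with `u` = the points of `t`, the cells `v s`, `w s`. By `vlim` these cells are atoms `y s`,
`z s` between `Tm` and `Tp`, pairwise disjoint (`c3`, different ranges). Let `S` be the set of the
letters which occur as points outside the cells in `t`: disjoint from all `y s`, `z s`. `inv_static`
for `y`, `z`, `U s` = the labels used: the order is given by `prec_of_VT`; for the hypothesis on `S` let
`y'` be an atom of the type of `Tm` inside `S`: by `c5` it is comparable with `Tm` and `Tp` or equal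
to one of them (`c3`); if it is between them then by `cl` the cell `e' j ∘ y'` is in `VV (n j)` for
some `j`, but its points are outside all cells of `VV (n j)`. So the colours are equal:
contradiction. -/
theorem vv_inv (hW : ¬ Wild N univ) (hN : (range N).Finite) (hP : PCh N A x) [Finite κ]
    (hG : MG N A x) :
    ∃ n₀, ∀ n, n₀ ≤ n → ∀ p ≤ r, ∀ (v w : Fin p → κ → ℕ) (t : Fin r → ℕ ⊕ (Fin p × κ)),
      (∀ s, v s ∈ VV N A x n) → (∀ s, w s ∈ VV N A x n) →
      (∀ s s', s ≠ s' → range (v s) ≠ range (v s')) →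
      (∀ s s', s ≠ s' → range (w s) ≠ range (w s')) →
      (∀ j a, t j = Sum.inl a → ∀ c ∈ VV N A x n, a ∉ range c) →
      (∀ s s', (∀ k, ∃ j, t j = Sum.inr (s, k)) → (∀ k, ∃ j, t j = Sum.inr (s', k)) →
        LT N A x n (v s) (v s') → LT N A x n (w s) (w s')) →
      N (fun j => Sum.elim id (fun q => v q.1 q.2) (t j)) =
        N (fun j => Sum.elim id (fun q => w q.1 q.2) (t j)) := by
  classical
  by_contra hcon
  push Not at hcon
  have h1 : ∀ n₀, ∃ n, n₀ ≤ n ∧ ∃ sh : (Σ p : Fin (r + 1), (Fin r → Option (Fin (p : ℕ) × κ)) ×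
      (Fin (p : ℕ) → Fin (p : ℕ) → Prop)), ∃ v w a, Bad N A x sh.1 sh.2.1 sh.2.2 n v w a := by
    intro n₀
    obtain ⟨n, hn, p, hp, v, w, t, hv, hw, dv, dw, hout, hord, hne⟩ := hcon n₀
    have key : ∀ (u : Fin p → κ → ℕ) (j : Fin r), Sum.elim id (fun q => u q.1 q.2) (t j) =
        ((Sum.elim (fun _ => none) some (t j) : Option (Fin p × κ))).elim
          (Sum.elim id (fun _ => 0) (t j)) (fun q => u q.1 q.2) := by
      intro u j
      rcases t j with a | q <;> rfl
    have hsome : ∀ j q, (Sum.elim (fun _ => none) some (t j) : Option (Fin p × κ)) = some q ↔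
        t j = Sum.inr q := by
      intro j q
      rcases t j with a | q' <;> simp
    refine ⟨n, hn, ⟨⟨p, by omega⟩, fun j => Sum.elim (fun _ => none) some (t j),
      fun s s' => LT N A x n (v s) (v s')⟩, v, w, fun j => Sum.elim id (fun _ => 0) (t j), ?_⟩
    refine ⟨hv, hw, dv, dw, ?_, fun _ _ => Iff.rfl, ?_, ?_⟩
    · intro j hj c hc
      rcases htj : t j with a | q
      · exact hout j a htj c hc
      · simp [htj] at hj
    · intro s s' hs hs' hR
      refine hord s s' (fun k => ?_) (fun k => ?_) hR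
      · obtain ⟨j, hj⟩ := hs k
        exact ⟨j, (hsome j _).1 hj⟩
      · obtain ⟨j, hj⟩ := hs' k
        exact ⟨j, (hsome j _).1 hj⟩
    · intro h
      refine hne ?_
      simp only [key]
      exact h
  obtain ⟨sh, hsh⟩ : ∃ sh : (Σ p : Fin (r + 1), (Fin r → Option (Fin (p : ℕ) × κ)) ×
      (Fin (p : ℕ) → Fin (p : ℕ) → Prop)), ∀ n₀, ∃ n, n₀ ≤ n ∧ ∃ v w a,
        Bad N A x sh.1 sh.2.1 sh.2.2 n v w a := by
    by_contra hc
    push Not at hc
    choose g hg using hc
    obtain ⟨M, hM⟩ := (Set.finite_range g).bddAbove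
    obtain ⟨n, hn, sh, v, w, a, hB⟩ := h1 M
    exact hg sh n ((hM (mem_range_self sh)).trans hn) v w a hB
  exact no_bad hW hN hP hG sh.1 sh.2.1 sh.2.2 hsh

end Pool.H17.TB
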