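import Pool.Agent.H17.TA.Flat
import Pool.Agent.H17.TA.Norm

/-!
# Extensions of homogeneous block sequences
-/

set_option autoImplicit false

namespace Pool.H17.TB

open Pool.H22.VC Function Set Pool.H17.TA

variable {r : ℕ} {K ι ι' ι'' κ κ' : Type} {N : Col r K ℕ} {A A' A'' : Set ℕ} {e : ℕ → ι → ℕ}
  {e' : ℕ → ι' → ℕ} {e'' : ℕ → ι'' → ℕ}

/-- The block sequence `e'` over `A'` contains a subsequence of `e`, `lam` are its letters. -/
def Ext (A : Set ℕ) (e : ℕ → ι → ℕ) (A' : Set ℕ) (e' : ℕ → ι' → ℕ) (lam : ι → ι') : Prop :=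
  A ⊆ A' ∧ ∃ φ : ℕ → ℕ, StrictMono φ ∧ ∀ i c, e' i (lam c) = e (φ i) c

theorem Ext.injective (hH : Hom N A e) {lam : ι → ι'} (h : Ext A e A' e' lam) :
    Injective lam := by
  obtain ⟨-, φ, -, h⟩ := h
  intro c d hcd
  have h1 := h 0 c
  rw [hcd, h 0 d] at h1
  exact (hH.inj _ _ _ _ h1).2.symm

theorem Ext.trans {lam : ι → ι'} {mu : ι' → ι''} (h : Ext A e A' e' lam)
    (h' : Ext A' e' A'' e'' mu) : Ext A e A'' e'' (fun c => mu (lam c)) := by
  obtain ⟨h1, φ, hφ, h2⟩ := h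
  obtain ⟨h1', φ', hφ', h2'⟩ := h'
  refine ⟨h1.trans h1', φ ∘ φ', hφ.comp hφ', fun i c => ?_⟩
  rw [h2', h2]
  rfl

private theorem plT_inl {f b : ℕ} {z : κ → ℕ × ι} {u : ℕ ⊕ ((ℕ × ι) ⊕ (κ ⊕ (ℕ × ι)))} {a : ℕ}
    (h : plT f b z u = Sum.inl a) : u = Sum.inl a := by
  rcases u with a' | p | k | p
  · exact congrArg Sum.inl (Sum.inl.inj h)
  · exact absurd h (by simp [plT])
  · exact absurd h (by simp [plT])
  · exact absurd h (by simp [plT])

/-- types over `e'` are finer than types over `e` (`Hom.pat`: relocate a context of `e` to the blocks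
`φ i`, where it is a context of `e'`) -/
theorem Ext.teq (hH : Hom N A e) (hH' : Hom N A' e') [Finite κ] {lam : ι → ι'}
    (h : Ext A e A' e' lam) {z z' : κ → ℕ × ι}
    (ht : Teq N A' e' (fun k => ((z k).1, lam (z k).2)) (fun k => ((z' k).1, lam (z' k).2))) :
    Teq N A e z z' := by
  obtain ⟨hA, φ, hφ, he⟩ := h
  intro f b b' hb hb' hz hz' t htA
  let m : ℕ ⊕ ((ℕ × ι) ⊕ (κ ⊕ (ℕ × ι))) → ℕ ⊕ ((ℕ × ι') ⊕ (κ ⊕ (ℕ × ι'))) :=
    Sum.map id (Sum.map (fun p => (p.1, lam p.2)) (Sum.map id (fun p => (p.1, lam p.2))))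
  have key : ∀ (b : ℕ) (z : κ → ℕ × ι), N (fun j => pl e f b z (t j)) =
      N (fun j => pl e' f b (fun k => ((z k).1, lam (z k).2)) (m (t j))) := by
    intro b z
    have h1 := hH.hom φ hφ (fun j => plT f b z (t j)) (fun j a hj => htA.1 j a (plT_inl hj))
    have h2 : (fun j => TA.ev e (sh φ (plT f b z (t j)))) =
        fun j => pl e' f b (fun k => ((z k).1, lam (z k).2)) (m (t j)) := by
      funext j
      rcases t j with a | p | k | p
      · rfl
      · exact (he _ _).symm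
      · exact (he _ _).symm
      · exact (he _ _).symm
    simp only [pl_eq e]
    rw [← h1, h2]
  rw [key b z, key b' z']
  refine ht f b b' hb hb' hz hz' _ ⟨?_, ?_⟩
  · intro j a hj
    rcases htj : t j with a' | p | k | p <;> simp only [htj, m, Sum.map_inl, Sum.map_inr, id,
      Sum.inl.injEq, reduceCtorEq] at hj
    rw [← hj]
    exact hA (htA.1 j a' htj)
  · intro j p hj
    rcases htj : t j with a' | p' | k | p' <;> simp only [htj, m, Sum.map_inl, Sum.map_inr, id,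
      Sum.inr.injEq, Sum.inl.injEq, reduceCtorEq] at hj
    rw [← hj]
    exact htA.2 j p' htj

private theorem ext_elim (lam : ι → ι') (i j : ℕ) (τ : κ → ι) (τ' : κ' → ι) :
    (fun k => ((Sum.elim (blk i τ) (blk j τ') k).1, lam (Sum.elim (blk i τ) (blk j τ') k).2)) =
      Sum.elim (blk i (fun k => lam (τ k))) (blk j (fun k => lam (τ' k))) := by
  funext k
  rcases k with k | k <;> rfl

theorem Ext.perp (hH : Hom N A e) (hH' : Hom N A' e') [Finite κ] [Finite κ'] {lam : ι → ι'}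
    (h : Ext A e A' e' lam) {τ : κ → ι} {τ' : κ' → ι}
    (ht : Perp N A' e' (fun k => lam (τ k)) (fun k => lam (τ' k))) : Perp N A e τ τ' := by
  refine h.teq hH hH' ?_
  rw [ext_elim, ext_elim]
  exact ht

theorem Ext.prec (hH : Hom N A e) (hH' : Hom N A' e') [Finite κ] [Finite κ'] {lam : ι → ι'}
    (h : Ext A e A' e' lam) {τ : κ → ι} {τ' : κ' → ι}
    (ht : Prec N A' e' (fun k => lam (τ k)) (fun k => lam (τ' k))) : Prec N A e τ τ' := by
  refine h.teq hH hH' ?_
  rw [ext_elim, ext_elim]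
  exact ht

theorem Ext.sim (hH : Hom N A e) (hH' : Hom N A' e') [Finite κ] [Finite κ'] {lam : ι → ι'}
    (h : Ext A e A' e' lam) {τ : κ → ι} {τ' : κ' → ι}
    (ht : Sim N A' e' (fun k => lam (τ k)) (fun k => lam (τ' k))) : Sim N A e τ τ' := by
  obtain ⟨σ, hσ⟩ := ht
  exact ⟨σ, h.teq hH hH' hσ⟩

/-- a subsequence is homogeneous -/
theorem Hom.sub (hH : Hom N A e) {φ : ℕ → ℕ} (hφ : StrictMono φ) :
    Hom N A (fun i => e (φ i)) := by
  refine ⟨fun i j c d h => ?_, fun i c => hH.notA _ c, fun φ' hφ' t ht => ?_⟩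
  · obtain ⟨h1, h2⟩ := hH.inj _ _ _ _ h
    exact ⟨hφ.injective h1, h2⟩
  · have h1 := hH.hom (φ ∘ φ') (hφ.comp hφ') t ht
    have h2 := hH.hom φ hφ t ht
    have e1 : (fun j => TA.ev (fun i => e (φ i)) (sh φ' (t j))) =
        fun j => TA.ev e (sh (φ ∘ φ') (t j)) := by
      funext j
      rcases t j with a | p <;> rfl
    have e2 : (fun j => TA.ev (fun i => e (φ i)) (t j)) = fun j => TA.ev e (sh φ (t j)) := by
      funext j
      rcases t j with a | p <;> rfl
    rw [e1, e2, h1, h2]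

/-- and has the same types -/
theorem teq_sub (hH : Hom N A e) [Finite κ] {φ : ℕ → ℕ} (hφ : StrictMono φ)
    (z z' : κ → ℕ × ι) : Teq N A (fun i => e (φ i)) z z' ↔ Teq N A e z z' := by
  have key : ∀ (f b : ℕ) (z : κ → ℕ × ι) (t : Fin r → ℕ ⊕ ((ℕ × ι) ⊕ (κ ⊕ (ℕ × ι)))),
      Adm A f t → N (fun j => pl (fun i => e (φ i)) f b z (t j)) =
        N (fun j => pl e f b z (t j)) := by
    intro f b z t ht
    have h1 := hH.hom φ hφ (fun j => plT f b z (t j)) (fun j a hj => ht.1 j a (plT_inl hj))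
    have e2 : (fun j => pl (fun i => e (φ i)) f b z (t j)) =
        fun j => TA.ev e (sh φ (plT f b z (t j))) := by
      funext j
      rcases t j with a | p | k | p <;> rfl
    simp only [pl_eq e]
    rw [e2, h1]
  constructor
  · intro h f b b' hb hb' hz hz' t ht
    rw [← key f b z t ht, ← key f b' z' t ht]
    exact h f b b' hb hb' hz hz' t ht
  · intro h f b b' hb hb' hz hz' t ht
    rw [key f b z t ht, key f b' z' t ht]
    exact h f b b' hb hb' hz hz' t ht

/-- Extension by an arbitrary sequence of `n`-tuples (`norm` for `ι ⊕ Fin n`; the letters of `e` are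
not constant because `e` is injective). -/
theorem exists_ext (hN : (range N).Finite) (hH : Hom N A e) (hA : A.Finite) [Finite ι] {n : ℕ}
    (u : ℕ → Fin n → ℕ) :
    ∃ (A' : Set ℕ) (φ : ℕ → ℕ) (m : ℕ) (e' : ℕ → Fin m → ℕ) (lam : ι → Fin m)
      (χ : Fin n → ℕ ⊕ Fin m), A'.Finite ∧ A ⊆ A' ∧ StrictMono φ ∧ Hom N A' e' ∧
      (∀ i c, e' i (lam c) = e (φ i) c) ∧ (∀ c a, χ c = Sum.inl a → a ∈ A') ∧
      ∀ i c, u (φ i) c = Sum.elim id (e' i) (χ c) := by
  classical
  obtain ⟨k, ⟨E⟩⟩ := Finite.exists_equiv_fin ι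
  obtain ⟨A', φ, m, e', χ, h1, h2, h3, h4, h5, -, h7⟩ := norm (N := N) (A := A) hN hA
    (fun i => Fin.append (fun c : Fin k => e i (E.symm c)) (u i))
  have h8 : ∀ c : ι, ∃ d : Fin m, χ (Fin.castAdd n (E c)) = Sum.inr d := by
    intro c
    rcases hc : χ (Fin.castAdd n (E c)) with a | d
    · exfalso
      have g : ∀ i, e (φ i) c = a := by
        intro i
        have g1 := h7 i (Fin.castAdd n (E c))
        rw [hc, Fin.append_left, E.symm_apply_apply] at g1
        exact g1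
      have g2 := (hH.inj _ _ _ _ ((g 0).trans (g 1).symm)).1
      exact absurd (h3.injective g2) (by omega)
    · exact ⟨d, rfl⟩
  choose lam hlam using h8
  refine ⟨A', φ, m, e', lam, fun c => χ (Fin.natAdd k c), h1, h2, h3, h4, ?_, ?_, ?_⟩
  · intro i c
    have g1 := h7 i (Fin.castAdd n (E c))
    rw [hlam, Fin.append_left, E.symm_apply_apply] at g1
    exact g1.symm
  · exact fun c a hc => h5 _ a hc
  · intro i c
    have g1 := h7 i (Fin.natAdd k c)
    rw [Fin.append_right] at g1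
    exact g1

end Pool.H17.TB
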