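import Pool.Agent.H17.TA.Flat

/-!
# Atoms and images of sets of labels
-/

set_option autoImplicit false

namespace Pool.H17.TB

open Pool.H22.VC Function Set Pool.H17.TA

variable {r : ℕ} {K ι κ κ₁ κ₂ κ' κ'' : Type} {N : Col r K ℕ} {A : Set ℕ} {e : ℕ → ι → ℕ}

/-- being an atom depends on the type of the labels in question only -/
theorem isAt_congr [Finite κ] {z w : κ → ℕ × ι} {L : Set κ} (h1 : IsAt N A e z L)
    (h : Teq N A e (res L z) (res L w)) : IsAt N A e w L := by
  obtain ⟨τ, h2, h3⟩ := h1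
  exact ⟨τ, h2, h.symm.trans h3⟩

theorem image_equiv' {f : κ₁ → κ₂} (hf : Injective f) (L : Set κ₁) :
    ∃ E : (f '' L : Set κ₂) ≃ L, ∀ k, f (E k) = k :=
  ⟨(Equiv.Set.image f L hf).symm, fun k =>
    congrArg Subtype.val ((Equiv.Set.image f L hf).apply_symm_apply k)⟩

theorem teq_image (hH : Hom N A e) [Finite κ₁] [Finite κ₂] {f : κ₁ → κ₂} (hf : Injective f)
    {z w : κ₂ → ℕ × ι} {L : Set κ₁} :
    Teq N A e (res (f '' L) z) (res (f '' L) w) ↔
      Teq N A e (res L (fun k => z (f k))) (res L (fun k => w (f k))) := by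
  obtain ⟨E, hE⟩ := image_equiv' hf L
  constructor
  · intro h
    have := h.comp hH (fun k : L => (⟨f k, mem_image_of_mem f k.2⟩ : ↥(f '' L)))
    exact this
  · intro h
    have := h.comp hH (fun k => E k)
    have e1 : ∀ z : κ₂ → ℕ × ι, (fun k => res L (fun k => z (f k)) (E k)) = res (f '' L) z := by
      intro z
      funext k
      show z (f (E k)) = z k
      rw [hE]
    rw [e1, e1] at this
    exact this

theorem isAt_image (hH : Hom N A e) [Finite κ₁] [Finite κ₂] {f : κ₁ → κ₂} (hf : Injective f)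
    {z : κ₂ → ℕ × ι} {L : Set κ₁} :
    IsAt N A e z (f '' L) ↔ IsAt N A e (fun k => z (f k)) L := by
  obtain ⟨E, hE⟩ := image_equiv' hf L
  have hE' : ∀ k : L, E ⟨f k, mem_image_of_mem f k.2⟩ = k := fun k =>
    Subtype.ext (hf (hE ⟨f k, mem_image_of_mem f k.2⟩))
  constructor
  · rintro ⟨τ, h1, h2⟩
    refine ⟨fun k => τ (E.symm k), h1.equiv hH E.symm, ?_⟩
    have := h2.comp hH (fun k : L => (⟨f k, mem_image_of_mem f k.2⟩ : ↥(f '' L)))
    have e2 : (fun k : L => (blk 0 τ : ↥(f '' L) → ℕ × ι) ⟨f k, mem_image_of_mem f k.2⟩) =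
        blk 0 (fun k => τ (E.symm k)) := by
      funext k
      show ((0 : ℕ), τ _) = (0, τ _)
      rw [← hE' k, E.symm_apply_apply, hE' k]
    rw [e2] at this
    exact this
  · rintro ⟨τ, h1, h2⟩
    refine ⟨fun k => τ (E k), h1.equiv hH E, ?_⟩
    have := h2.comp hH (fun k => E k)
    have e1 : (fun k => res L (fun k => z (f k)) (E k)) = res (f '' L) z := by
      funext k
      show z (f (E k)) = z k
      rw [hE]
    rw [e1] at this
    exact this

theorem lt'_image {f : κ₁ → κ₂} (hf : Injective f) (z : κ₂ → ℕ × ι) (L : Set κ₁) :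
    ∃ E : (f '' L : Set κ₂) ≃ L, lt' z (f '' L) = fun k => lt' (fun k => z (f k)) L (E k) := by
  obtain ⟨E, hE⟩ := image_equiv' hf L
  refine ⟨E, funext fun k => ?_⟩
  show (z k).2 = (z (f (E k))).2
  rw [hE]

theorem sim_image (hH : Hom N A e) [Finite κ₁] [Finite κ₂] [Finite κ'] {f : κ₁ → κ₂}
    (hf : Injective f) {z : κ₂ → ℕ × ι} {L : Set κ₁} {ζ : κ' → ι} :
    Sim N A e (lt' z (f '' L)) ζ ↔ Sim N A e (lt' (fun k => z (f k)) L) ζ := by
  obtain ⟨E, hE⟩ := lt'_image hf z L
  rw [hE]
  constructor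
  · intro h
    have := h.equiv_left hH E.symm
    simp only [Equiv.apply_symm_apply] at this
    exact this
  · intro h
    exact h.equiv_left hH E

theorem bef_image (hH : Hom N A e) [Finite κ₁] [Finite κ₂] [Finite κ'] {f : κ₁ → κ'}
    (hf : Injective f) {g : κ₂ → κ'} (hg : Injective g) {z : κ' → ℕ × ι} {L : Set κ₁}
    {L' : Set κ₂} :
    Bef N A e (res (f '' L) z) (res (g '' L') z) ↔
      Bef N A e (res L (fun k => z (f k))) (res L' (fun k => z (g k))) := by
  obtain ⟨E, hE⟩ := image_equiv' hf L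
  obtain ⟨E', hE'⟩ := image_equiv' hg L'
  constructor
  · intro h
    exact Bef.comp hH h (fun k : L => (⟨f k, mem_image_of_mem f k.2⟩ : ↥(f '' L)))
      (fun k : L' => (⟨g k, mem_image_of_mem g k.2⟩ : ↥(g '' L')))
  · intro h
    have := Bef.comp hH h (fun k => E k) (fun k => E' k)
    have e1 : (fun k => res L (fun k => z (f k)) (E k)) = res (f '' L) z := by
      funext k
      show z (f (E k)) = z k
      rw [hE]
    have e2 : (fun k => res L' (fun k => z (g k)) (E' k)) = res (g '' L') z := by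
      funext k
      show z (g (E' k)) = z k
      rw [hE']
    rw [e1, e2] at this
    exact this

/-- letter tuples with the same range are similar -/
theorem sim_of_range (hH : Hom N A e) {τ : κ → ι} {τ' : κ' → ι} (h : Injective τ)
    (h' : Injective τ') (hr : range τ = range τ') : Sim N A e τ τ' := by
  classical
  have h1 : ∀ k : κ, ∃ k' : κ', τ' k' = τ k := by
    intro k
    have : τ k ∈ range τ' := hr ▸ mem_range_self k
    exact this
  choose g hg using h1
  have hgi : Injective g := fun a b hab => h (by rw [← hg a, ← hg b, hab])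
  have hgs : Surjective g := by
    intro k'
    have : τ' k' ∈ range τ := hr ▸ mem_range_self k'
    obtain ⟨k, hk⟩ := this
    exact ⟨k, h' (by rw [hg, hk])⟩
  refine ⟨Equiv.ofBijective g ⟨hgi, hgs⟩, ?_⟩
  have : (fun k => τ' (Equiv.ofBijective g ⟨hgi, hgs⟩ k)) = τ := by
    funext k
    exact hg k
  rw [this]
  exact Teq.refl hH _

end Pool.H17.TB
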