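import Pool.Agent.H17.TB.V

/-!
# Limits of sequences of data around a pure chain
-/

set_option autoImplicit false

namespace Pool.H17.TB

open Pool.H22.VC Function Set Pool.H17.TA

variable {r : ℕ} {K ι κ κ' : Type} {N : Col r K ℕ} {A : Set ℕ} {x : ℕ → κ → ℕ}

/-- `norm` for tuples with an arbitrary finite set of labels -/
theorem norm' {J : Type} [Finite J] (hN : (range N).Finite) (hA : A.Finite) (u : ℕ → J → ℕ) :
    ∃ (A' : Set ℕ) (φ : ℕ → ℕ) (m : ℕ) (e' : ℕ → Fin m → ℕ) (χ : J → ℕ ⊕ Fin m),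
      A'.Finite ∧ A ⊆ A' ∧ StrictMono φ ∧ Hom N A' e' ∧
      (∀ c a, χ c = Sum.inl a → a ∈ A') ∧
      ∀ i c, u (φ i) c = Sum.elim id (e' i) (χ c) := by
  obtain ⟨n, ⟨E⟩⟩ := Finite.exists_equiv_fin J
  obtain ⟨A', φ, m, e', χ, h1, h2, h3, h4, h5, -, h7⟩ :=
    norm hN hA (fun i c => u i (E.symm c))
  refine ⟨A', φ, m, e', fun c => χ (E c), h1, h2, h3, h4, fun c a h => h5 _ a h, fun i c => ?_⟩
  have := h7 i (E c)
  rw [E.symm_apply_apply] at this
  exact this

/-- LIM. `A₀ ⊇ A` finite, `n k < L k < n (k + 1)`, `u k` are finite tuples of points and `l k` finite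
tuples of numbers of cells of the chain. There is a subsequence `φ` and a homogeneous block sequence
`e'` over a finite set `A' ⊇ A₀` in which `x (n k)`, `x (L k)` are letters `Tm`, `Tp`, all `u k c` are
constants or letters, and for every `i` either `l k i` is constant and the cell `x (l k i)` consists
of constants, or the cells `x (l k i)` are letters, and the numbers `l k i` with different `k` are
separated from each other and from `n`, `L`. PROOF. First `sub_sep` for the tuples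
`(n k, L k, l k i)`: a subsequence such that each `l k i` is constant or separated. Then
`exists_ext`-like: `norm` for the tuples `(x (n k), x (L k), u k, x (l k i))`, over
`A₀` and the constant cells. -/
theorem lim (hN : (range N).Finite) (hP : PCh N A x) [Finite κ] {A₀ : Set ℕ} (hA₀ : A₀.Finite)
    (hAA₀ : A ⊆ A₀) {q s : ℕ} (n L : ℕ → ℕ) (hnL : ∀ k, n k < L k) (hLn : ∀ k, L k < n (k + 1))
    (u : ℕ → Fin q → ℕ) (l : ℕ → Fin s → ℕ) :
    ∃ (φ : ℕ → ℕ) (A' : Set ℕ) (m : ℕ) (e' : ℕ → Fin m → ℕ) (Tm Tp : κ → Fin m)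
      (χ : Fin q → ℕ ⊕ Fin m) (X : Fin s → Option (κ → Fin m)),
      StrictMono φ ∧ A'.Finite ∧ A₀ ⊆ A' ∧ Hom N A' e' ∧
      (∀ j k, e' j (Tm k) = x (n (φ j)) k) ∧ (∀ j k, e' j (Tp k) = x (L (φ j)) k) ∧
      (∀ c a, χ c = Sum.inl a → a ∈ A') ∧
      (∀ j c, u (φ j) c = Sum.elim id (e' j) (χ c)) ∧
      (∀ i, X i = none → ∃ l₀, ∀ j, l (φ j) i = l₀ ∧ ∀ k, x l₀ k ∈ A') ∧
      (∀ i T, X i = some T → (∀ j k, e' j (T k) = x (l (φ j) i) k) ∧
        ∀ j, L (φ j) < l (φ (j + 1)) i ∧ l (φ j) i < n (φ (j + 1)) ∧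
          ∀ i' T', X i' = some T' → l (φ j) i < l (φ (j + 1)) i') := by
  classical
  have hn : StrictMono n := strictMono_nat_of_lt_succ (fun k => (hnL k).trans (hLn k))
  have hL : StrictMono L := strictMono_nat_of_lt_succ (fun k => (hLn k).trans (hnL (k + 1)))
  let w : ℕ → Fin (s + 2) → ℕ := fun k => Fin.cons (n k) (Fin.cons (L k) (l k))
  obtain ⟨φ₁, I, a, E, hφ₁, h1, -, h3, -⟩ := sub_sep w ∅ Set.finite_empty
  have w0 : ∀ k, w k 0 = n k := fun k => rfl
  have w1 : ∀ k, w k (Fin.succ 0) = L k := fun k => rfl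
  have w2 : ∀ k (i : Fin s), w k i.succ.succ = l k i := fun k i => rfl
  have hI0 : (0 : Fin (s + 2)) ∈ I := by
    by_contra h
    have e0 := h1 0 h 0
    have e1 := h1 0 h 1
    rw [w0] at e0 e1
    have := hn (hφ₁ (Nat.zero_lt_one))
    omega
  have hI1 : (Fin.succ 0 : Fin (s + 2)) ∈ I := by
    by_contra h
    have e0 := h1 _ h 0
    have e1 := h1 _ h 1
    rw [w1] at e0 e1
    have := hL (hφ₁ (Nat.zero_lt_one))
    omega
  -- constant cells
  let A₁ : Set ℕ := A₀ ∪ range (fun p : Fin s × κ => x (a p.1.succ.succ) p.2)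
  have hA₁ : A₁.Finite := hA₀.union (Set.finite_range _)
  obtain ⟨A', φ₂, m, e', χ, g1, g2, hφ₂, g3, g4, g5⟩ :=
    norm' (J := κ ⊕ (κ ⊕ (Fin q ⊕ (Fin s × κ)))) hN hA₁ (fun i => Sum.elim (x (n (φ₁ i)))
      (Sum.elim (x (L (φ₁ i))) (Sum.elim (u (φ₁ i)) (fun p => x (l (φ₁ i) p.1) p.2))))
  -- non-constant sequences of cells are letters
  have key : ∀ (c : κ ⊕ (κ ⊕ (Fin q ⊕ (Fin s × κ)))) (f : ℕ → ℕ) (k : κ), f 0 ≠ f 1 →
      (∀ j, Sum.elim id (e' j) (χ c) = x (f j) k) → ∃ d, χ c = Sum.inr d := by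
    intro c f k hf hc
    rcases hχ : χ c with b | d
    · exfalso
      have e0 := hc 0
      have e1 := hc 1
      rw [hχ] at e0 e1
      exact hf (hP.hom.inj _ _ _ _ (e0.symm.trans e1)).1
    · exact ⟨d, rfl⟩
  have hφ2 : φ₂ 0 < φ₂ 1 := hφ₂ Nat.zero_lt_one
  have kTm : ∀ k, ∃ d, χ (Sum.inl k) = Sum.inr d := fun k =>
    key _ (fun j => n (φ₁ (φ₂ j))) k (ne_of_lt (hn (hφ₁ hφ2))) (fun j => (g5 j (Sum.inl k)).symm)
  have kTp : ∀ k, ∃ d, χ (Sum.inr (Sum.inl k)) = Sum.inr d := fun k =>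
    key _ (fun j => L (φ₁ (φ₂ j))) k (ne_of_lt (hL (hφ₁ hφ2)))
      (fun j => (g5 j (Sum.inr (Sum.inl k))).symm)
  have kX : ∀ (i : Fin s), i.succ.succ ∈ I → ∀ k,
      ∃ d, χ (Sum.inr (Sum.inr (Sum.inr (i, k)))) = Sum.inr d := by
    intro i hi k
    refine key _ (fun j => l (φ₁ (φ₂ j)) i) k (ne_of_lt ?_)
      (fun j => (g5 j (Sum.inr (Sum.inr (Sum.inr (i, k))))).symm)
    have := h3 _ hi _ hi _ _ hφ2
    rw [w2, w2] at this
    exact this
  choose Tm hTm using kTm
  choose Tp hTp using kTp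
  choose X₀ hX₀ using kX
  let X : Fin s → Option (κ → Fin m) := fun i =>
    if hi : i.succ.succ ∈ I then some (X₀ i hi) else none
  refine ⟨fun j => φ₁ (φ₂ j), A', m, e', Tm, Tp, fun c => χ (Sum.inr (Sum.inr (Sum.inl c))), X,
    hφ₁.comp hφ₂, g1, subset_union_left.trans g2, g3, ?_, ?_, ?_, ?_, ?_, ?_⟩
  · intro j k
    have := g5 j (Sum.inl k)
    rw [hTm] at this
    exact this.symm
  · intro j k
    have := g5 j (Sum.inr (Sum.inl k))
    rw [hTp] at this
    exact this.symm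
  · intro c a hc
    exact g4 _ a hc
  · intro j c
    exact g5 j (Sum.inr (Sum.inr (Sum.inl c)))
  · intro i hi
    have hi' : i.succ.succ ∉ I := by
      intro h
      simp only [X, dif_pos h] at hi
      exact absurd hi (by simp)
    refine ⟨a i.succ.succ, fun j => ⟨?_, fun k => ?_⟩⟩
    · have := h1 _ hi' (φ₂ j)
      rw [w2] at this
      exact this
    · exact g2 (Or.inr ⟨(i, k), rfl⟩)
  · intro i T hi
    have hi' : i.succ.succ ∈ I := by
      by_contra h
      simp only [X, dif_neg h] at hi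
      exact absurd hi (by simp)
    have hT : X₀ i hi' = T := by
      simp only [X, dif_pos hi'] at hi
      exact Option.some.inj hi
    refine ⟨fun j k => ?_, fun j => ⟨?_, ?_, fun i' T' hiT' => ?_⟩⟩
    · have := g5 j (Sum.inr (Sum.inr (Sum.inr (i, k))))
      rw [hX₀ i hi' k, hT] at this
      exact this.symm
    · have := h3 _ hI1 _ hi' _ _ (hφ₂ (Nat.lt_succ_self j))
      rw [w1, w2] at this
      exact this
    · have := h3 _ hi' _ hI0 _ _ (hφ₂ (Nat.lt_succ_self j))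
      rw [w0, w2] at this
      exact this
    · have hi'' : i'.succ.succ ∈ I := by
        by_contra h
        simp only [X, dif_neg h] at hiT'
        exact absurd hiT' (by simp)
      have := h3 _ hi' _ hi'' _ _ (hφ₂ (Nat.lt_succ_self j))
      rw [w2, w2] at this
      exact this

end Pool.H17.TB
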