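import Pool.Agent.H17.TB.Lim1

/-!
# Copies of the chain and cells in a limit
-/

set_option autoImplicit false

namespace Pool.H17.TB

open Pool.H22.VC Function Set Pool.H17.TA

variable {r : ℕ} {K ι κ κ' : Type} {N : Col r K ℕ} {A : Set ℕ} {x : ℕ → κ → ℕ}

/-- evaluation of a context for a pair of cells, general positions -/
private def vEG (x : ℕ → κ → ℕ) (g h : ℕ → ℕ) (u u' : κ → ℕ) :
    ℕ ⊕ ((ℕ × κ) ⊕ ((κ ⊕ κ) ⊕ (ℕ × κ))) → ℕ :=
  Sum.elim id (Sum.elim (fun p => x (g p.1) p.2) (Sum.elim (Sum.elim u u')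
    (fun p => x (h p.1) p.2)))

private theorem v_ctx3 (hP : PCh N A x) :
    ∃ (t : Fin r → ℕ ⊕ ((ℕ × κ) ⊕ ((κ ⊕ κ) ⊕ (ℕ × κ)))) (c c' : K),
    (∀ j a, t j = Sum.inl a → a ∈ A) ∧ (∀ j p, t j = Sum.inr (Sum.inl p) → p.1 < r) ∧ c ≠ c' ∧
    ∀ (g h : ℕ → ℕ) (l l' : ℕ), StrictMono g → StrictMono h → (∀ i < r, g i < l) → l < l' →
      (∀ i, l' < h i) → N (fun j => vEG x g h (x l) (x l') (t j)) = c ∧
      N (fun j => vEG x g h (x l') (x l) (t j)) = c' := by
  classical
  obtain ⟨t, c, c', t1, t2, hc, t3⟩ := v_ctx2 hP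
  refine ⟨t, c, c', t1, t2, hc, fun g h l l' hg hh h1 h2 h3 => ?_⟩
  obtain ⟨c1, c2⟩ := t3 r (r + 1) (r + 2) le_rfl (Nat.lt_succ_self _) (Nat.lt_succ_self _)
  let τ : Fin r → ℕ ⊕ ((ℕ ⊕ (Bool ⊕ ℕ)) × κ) := fun j => Sum.map id
    (Sum.elim (fun p => (Sum.inl p.1, p.2)) (Sum.elim
      (Sum.elim (fun k => (Sum.inr (Sum.inl false), k)) (fun k => (Sum.inr (Sum.inl true), k)))
      (fun p => (Sum.inr (Sum.inr p.1), p.2)))) (t j)
  have hτ : ∀ j a, τ j = Sum.inl a → a ∈ A := by
    intro j a hj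
    rcases htj : t j with a' | p
    · have h3 : τ j = Sum.inl a' := by
        simp only [τ, htj, Sum.map_inl, id]
      rw [h3] at hj
      rw [← Sum.inl.inj hj]
      exact t1 j a' htj
    · have h3 : ∃ q, τ j = Sum.inr q := by
        simp only [τ, htj, Sum.map_inr]
        exact ⟨_, rfl⟩
      obtain ⟨q, hq⟩ := h3
      rw [hq] at hj
      exact absurd hj (by simp)
  have key : ∀ (m₀ m₁ q₀ q₁ : ℕ), (m₀ < m₁ ↔ q₀ < q₁) → (m₁ < m₀ ↔ q₁ < q₀) →
      r ≤ m₀ → r ≤ m₁ → m₀ < r + 2 → m₁ < r + 2 → (∀ i < r, g i < q₀) → (∀ i < r, g i < q₁) →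
      (∀ i, q₀ < h i) → (∀ i, q₁ < h i) →
      N (fun j => vEC x (r + 2) (x m₀) (x m₁) (t j)) = N (fun j => vEG x g h (x q₀) (x q₁) (t j)) := by
    intro m₀ m₁ q₀ q₁ g1 g2 g3 g4 g5 g6 g7 g8 g9 g10
    have h0 := v_reblk hP.hom (Sum.elim id (Sum.elim (fun c => cond c m₁ m₀) (fun i => r + 2 + i)))
      (Sum.elim g (Sum.elim (fun c => cond c q₁ q₀) h)) τ hτ ?_
    · have e1 : (fun j => Sum.elim id (fun p => x ((Sum.elim id (Sum.elim (fun c => cond c m₁ m₀)
          (fun i => r + 2 + i)) : ℕ ⊕ (Bool ⊕ ℕ) → ℕ) p.1) p.2) (τ j)) =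
          fun j => vEC x (r + 2) (x m₀) (x m₁) (t j) := by
        funext j
        simp only [τ]
        rcases t j with a | p | (k | k) | p <;> rfl
      have e2 : (fun j => Sum.elim id (fun p => x ((Sum.elim g
          (Sum.elim (fun c => cond c q₁ q₀) h) : ℕ ⊕ (Bool ⊕ ℕ) → ℕ) p.1) p.2)
            (τ j)) = fun j => vEG x g h (x q₀) (x q₁) (t j) := by
        funext j
        simp only [τ]
        rcases t j with a | p | (k | k) | p <;> rfl
      rw [e1, e2] at h0
      exact h0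
    · intro j j' q q' hj hj'
      rcases htj : t j with a' | p | (k | k) | p <;> rcases htj' : t j' with a' | p' | (k' | k') | p'
        <;> simp only [τ, htj, htj', Sum.map_inr, Sum.map_inl, Sum.elim_inl, Sum.elim_inr,
          Sum.inr.injEq, reduceCtorEq] at hj hj'
      all_goals rw [← hj, ← hj']
      all_goals simp only [Sum.elim_inl, Sum.elim_inr, id, cond_true, cond_false]
      · exact hg.lt_iff_lt.symm
      · have := t2 j p htj
        have := g7 p.1 (by omega)
        omega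
      · have := t2 j p htj
        have := g8 p.1 (by omega)
        omega
      · have := t2 j p htj
        have := g7 p.1 (by omega)
        have := g9 p'.1
        omega
      · have := t2 j' p' htj'
        have := g7 p'.1 (by omega)
        omega
      · omega
      · omega
      · have := g9 p'.1
        omega
      · have := t2 j' p' htj'
        have := g8 p'.1 (by omega)
        omega
      · omega
      · omega
      · have := g10 p'.1
        omega
      · have := t2 j' p' htj'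
        have := g7 p'.1 (by omega)
        have := g9 p.1
        omega
      · have := g9 p.1
        omega
      · have := g10 p.1
        omega
      · have := hh.lt_iff_lt (a := p.1) (b := p'.1)
        omega
  constructor
  · rw [← c1]
    exact (key r (r + 1) l l' (by omega) (by omega) (by omega) (by omega) (by omega) (by omega)
      h1 (fun i hi => (h1 i hi).trans h2) (fun i => h2.trans (h3 i)) h3).symm
  · rw [← c2]
    exact (key (r + 1) r l' l (by omega) (by omega) (by omega) (by omega) (by omega) (by omega)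
      (fun i hi => (h1 i hi).trans h2) h1 h3 (fun i => h2.trans (h3 i))).symm

/-- a pair context of the chain inside `e'` -/
private theorem pair_tr {A' : Set ℕ} {m : ℕ} {e' : ℕ → Fin m → ℕ} (hAA' : A ⊆ A')
    {X : κ → Fin m} {a : ℕ → ℕ} (hX : ∀ j k, e' j (X k) = x (a j) k)
    {t : Fin r → ℕ ⊕ ((ℕ × κ) ⊕ ((κ ⊕ κ) ⊕ (ℕ × κ)))} (t1 : ∀ j a, t j = Sum.inl a → a ∈ A)
    (t2 : ∀ j p, t j = Sum.inr (Sum.inl p) → p.1 < r) {γ : Type} {z z' : γ → ℕ × Fin m}
    (hT : Teq N A' e' z z') (hz : ∀ k, (z k).1 < 2) (hz' : ∀ k, (z' k).1 < 2)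
    (π π' : κ → ℕ ⊕ γ) (hπ : ∀ k a, π k = Sum.inl a → a ∈ A')
    (hπ' : ∀ k a, π' k = Sum.inl a → a ∈ A') :
    N (fun j => vEG x a (fun i => a (r + 2 + i))
        (fun k => Sum.elim id (fun s => e' (r + (z s).1) (z s).2) (π k))
        (fun k => Sum.elim id (fun s => e' (r + (z s).1) (z s).2) (π' k)) (t j)) =
      N (fun j => vEG x a (fun i => a (r + 2 + i))
        (fun k => Sum.elim id (fun s => e' (r + (z' s).1) (z' s).2) (π k))
        (fun k => Sum.elim id (fun s => e' (r + (z' s).1) (z' s).2) (π' k)) (t j)) := by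
  let c : ℕ ⊕ γ → ℕ ⊕ ((ℕ × Fin m) ⊕ (γ ⊕ (ℕ × Fin m))) :=
    Sum.elim Sum.inl (fun s => Sum.inr (Sum.inr (Sum.inl s)))
  let M : ℕ ⊕ ((ℕ × κ) ⊕ ((κ ⊕ κ) ⊕ (ℕ × κ))) → ℕ ⊕ ((ℕ × Fin m) ⊕ (γ ⊕ (ℕ × Fin m))) :=
    Sum.elim Sum.inl (Sum.elim (fun p => Sum.inr (Sum.inl (p.1, X p.2)))
      (Sum.elim (Sum.elim (fun k => c (π k)) (fun k => c (π' k)))
        (fun p => Sum.inr (Sum.inr (Sum.inr (p.1, X p.2))))))
  have h0 := hT r (r + 2) (r + 2) (by omega) (by omega) (fun k => by
    have := hz k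
    omega) (fun k => by
    have := hz' k
    omega) (fun j => M (t j)) ⟨?_, ?_⟩
  · have e1 : ∀ z : γ → ℕ × Fin m, (fun j => pl e' r (r + 2) z (M (t j))) =
        fun j => vEG x a (fun i => a (r + 2 + i))
          (fun k => Sum.elim id (fun s => e' (r + (z s).1) (z s).2) (π k))
          (fun k => Sum.elim id (fun s => e' (r + (z s).1) (z s).2) (π' k)) (t j) := by
      intro z
      funext j
      rcases t j with a' | p | (k | k) | p
      · rfl
      · exact hX _ _
      · show pl e' r (r + 2) z (c (π k)) = Sum.elim id _ (π k)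
        rcases π k with a' | s <;> rfl
      · show pl e' r (r + 2) z (c (π' k)) = Sum.elim id _ (π' k)
        rcases π' k with a' | s <;> rfl
      · exact hX _ _
    rw [e1, e1] at h0
    exact h0
  · intro j a' hj
    change M (t j) = _ at hj
    rcases htj : t j with b | p | (k | k) | p <;> rw [htj] at hj
    · rw [← Sum.inl.inj hj]
      exact hAA' (t1 j b htj)
    · exact absurd hj (by simp [M])
    · have hj' : c (π k) = Sum.inl a' := hj
      rcases hk : π k with b | s
      · rw [hk] at hj'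
        rw [← Sum.inl.inj hj']
        exact hπ k b hk
      · rw [hk] at hj'
        exact absurd hj' (by simp [c])
    · have hj' : c (π' k) = Sum.inl a' := hj
      rcases hk : π' k with b | s
      · rw [hk] at hj'
        rw [← Sum.inl.inj hj']
        exact hπ' k b hk
      · rw [hk] at hj'
        exact absurd hj' (by simp [c])
    · exact absurd hj (by simp [M])
  · intro j q hj
    change M (t j) = _ at hj
    rcases htj : t j with b | p | (k | k) | p <;> rw [htj] at hj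
    · exact absurd hj (by simp [M])
    · have hj' : (p.1, X p.2) = q := Sum.inl.inj (Sum.inr.inj hj)
      rw [← hj']
      exact t2 j p htj
    · have hj' : c (π k) = Sum.inr (Sum.inl q) := hj
      rcases hk : π k with b | s <;> rw [hk] at hj' <;> exact absurd hj' (by simp [c])
    · have hj' : c (π' k) = Sum.inr (Sum.inl q) := hj
      rcases hk : π' k with b | s <;> rw [hk] at hj' <;> exact absurd hj' (by simp [c])
    · exact absurd hj (by simp [M])

/-- a cell which looks like a cell of the chain, in a pair context -/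
private theorem vl_fst {n L : ℕ} {v : κ → ℕ} (hv : VL N A x n L v)
    {t : Fin r → ℕ ⊕ ((ℕ × κ) ⊕ ((κ ⊕ κ) ⊕ (ℕ × κ)))} (t1 : ∀ j a, t j = Sum.inl a → a ∈ A)
    (t2 : ∀ j p, t j = Sum.inr (Sum.inl p) → p.1 < r) {g h : ℕ → ℕ} {l : ℕ}
    (hg : ∀ i < r, g i ≤ n) (hl : l ≤ n ∨ L ≤ l) (hh : ∀ i, L ≤ h i) :
    N (fun j => vEG x g h v (x l) (t j)) = N (fun j => vEG x g h (x (n + 1)) (x l) (t j)) := by
  let M : ℕ ⊕ ((ℕ × κ) ⊕ ((κ ⊕ κ) ⊕ (ℕ × κ))) → ℕ ⊕ ((ℕ × κ) ⊕ κ) :=
    Sum.elim Sum.inl (Sum.elim (fun p => Sum.inr (Sum.inl (g p.1, p.2)))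
      (Sum.elim (Sum.elim (fun k => Sum.inr (Sum.inr k)) (fun k => Sum.inr (Sum.inl (l, k))))
        (fun p => Sum.inr (Sum.inl (h p.1, p.2)))))
  have h0 := hv.2.2.2 (fun j => M (t j)) ?_ ?_
  · have e1 : ∀ u : κ → ℕ, (fun j => Sum.elim id (Sum.elim (fun p => x p.1 p.2) u) (M (t j))) =
        fun j => vEG x g h u (x l) (t j) := by
      intro u
      funext j
      rcases t j with a | p | (k | k) | p <;> rfl
    rw [e1, e1] at h0
    exact h0
  · intro j a' hj
    change M (t j) = _ at hj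
    rcases htj : t j with b | p | (k | k) | p <;> rw [htj] at hj
    · rw [← Sum.inl.inj hj]
      exact t1 j b htj
    all_goals exact absurd hj (by simp [M])
  · intro j q hj
    change M (t j) = _ at hj
    rcases htj : t j with b | p | (k | k) | p <;> rw [htj] at hj
    · exact absurd hj (by simp [M])
    · have hj' : (g p.1, p.2) = q := Sum.inl.inj (Sum.inr.inj hj)
      rw [← hj']
      exact Or.inl (hg _ (t2 j p htj))
    · exact absurd hj (by simp [M])
    · have hj' : (l, k) = q := Sum.inl.inj (Sum.inr.inj hj)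
      rw [← hj']
      exact hl
    · have hj' : (h p.1, p.2) = q := Sum.inl.inj (Sum.inr.inj hj)
      rw [← hj']
      exact Or.inr (hh _)

private theorem vl_snd {n L : ℕ} {v : κ → ℕ} (hv : VL N A x n L v)
    {t : Fin r → ℕ ⊕ ((ℕ × κ) ⊕ ((κ ⊕ κ) ⊕ (ℕ × κ)))} (t1 : ∀ j a, t j = Sum.inl a → a ∈ A)
    (t2 : ∀ j p, t j = Sum.inr (Sum.inl p) → p.1 < r) {g h : ℕ → ℕ} {l : ℕ}
    (hg : ∀ i < r, g i ≤ n) (hl : l ≤ n ∨ L ≤ l) (hh : ∀ i, L ≤ h i) :
    N (fun j => vEG x g h (x l) v (t j)) = N (fun j => vEG x g h (x l) (x (n + 1)) (t j)) := by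
  let M : ℕ ⊕ ((ℕ × κ) ⊕ ((κ ⊕ κ) ⊕ (ℕ × κ))) → ℕ ⊕ ((ℕ × κ) ⊕ κ) :=
    Sum.elim Sum.inl (Sum.elim (fun p => Sum.inr (Sum.inl (g p.1, p.2)))
      (Sum.elim (Sum.elim (fun k => Sum.inr (Sum.inl (l, k))) (fun k => Sum.inr (Sum.inr k)))
        (fun p => Sum.inr (Sum.inl (h p.1, p.2)))))
  have h0 := hv.2.2.2 (fun j => M (t j)) ?_ ?_
  · have e1 : ∀ u : κ → ℕ, (fun j => Sum.elim id (Sum.elim (fun p => x p.1 p.2) u) (M (t j))) =
        fun j => vEG x g h (x l) u (t j) := by
      intro u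
      funext j
      rcases t j with a | p | (k | k) | p <;> rfl
    rw [e1, e1] at h0
    exact h0
  · intro j a' hj
    change M (t j) = _ at hj
    rcases htj : t j with b | p | (k | k) | p <;> rw [htj] at hj
    · rw [← Sum.inl.inj hj]
      exact t1 j b htj
    all_goals exact absurd hj (by simp [M])
  · intro j q hj
    change M (t j) = _ at hj
    rcases htj : t j with b | p | (k | k) | p <;> rw [htj] at hj
    · exact absurd hj (by simp [M])
    · have hj' : (g p.1, p.2) = q := Sum.inl.inj (Sum.inr.inj hj)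
      rw [← hj']
      exact Or.inl (hg _ (t2 j p htj))
    · have hj' : (l, k) = q := Sum.inl.inj (Sum.inr.inj hj)
      rw [← hj']
      exact hl
    · exact absurd hj (by simp [M])
    · have hj' : (h p.1, p.2) = q := Sum.inl.inj (Sum.inr.inj hj)
      rw [← hj']
      exact Or.inr (hh _)

/-- evaluation of a context for one cell -/
private def vE1 (x : ℕ → κ → ℕ) (g h : ℕ → ℕ) (u : κ → ℕ) :
    ℕ ⊕ ((ℕ × κ) ⊕ (κ ⊕ (ℕ × κ))) → ℕ :=
  Sum.elim id (Sum.elim (fun p => x (g p.1) p.2) (Sum.elim u (fun p => x (h p.1) p.2)))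

/-- relocation of a context for one cell -/
private theorem cell_re (hH : Hom N A x) (ρ : κ → κ) {f b : ℕ} (hfb : f ≤ b)
    (hb : ∀ k : κ, f + (blk 0 ρ k).1 < b) {g h : ℕ → ℕ} {q : ℕ} (hg : StrictMono g)
    (hh : StrictMono h) (h1 : ∀ i < f, g i < q) (h2 : ∀ i, q < h i)
    (t : Fin r → ℕ ⊕ ((ℕ × κ) ⊕ (κ ⊕ (ℕ × κ)))) (ht : Adm A f t) :
    N (fun j => pl x f b (blk 0 ρ) (t j)) =
      N (fun j => vE1 x g h (fun k => x q (ρ k)) (t j)) := by
  let τ : Fin r → ℕ ⊕ ((ℕ ⊕ (κ ⊕ ℕ)) × κ) := fun j => Sum.map id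
    (Sum.elim (fun p => (Sum.inl p.1, p.2)) (Sum.elim (fun k => (Sum.inr (Sum.inl k), ρ k))
      (fun p => (Sum.inr (Sum.inr p.1), p.2)))) (t j)
  have h0 := v_reblk hH (Sum.elim id (Sum.elim (fun _ : κ => f) (fun i => b + i)))
    (Sum.elim g (Sum.elim (fun _ : κ => q) h)) τ ?_ ?_
  · have e1 : (fun j => Sum.elim id (fun p => x ((Sum.elim id (Sum.elim (fun _ : κ => f)
        (fun i => b + i)) : ℕ ⊕ (κ ⊕ ℕ) → ℕ) p.1) p.2) (τ j)) =
        fun j => pl x f b (blk 0 ρ) (t j) := by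
      funext j
      simp only [τ]
      rcases t j with a | p | k | p <;> rfl
    have e2 : (fun j => Sum.elim id (fun p => x ((Sum.elim g (Sum.elim (fun _ : κ => q) h) :
        ℕ ⊕ (κ ⊕ ℕ) → ℕ) p.1) p.2) (τ j)) =
        fun j => vE1 x g h (fun k => x q (ρ k)) (t j) := by
      funext j
      simp only [τ]
      rcases t j with a | p | k | p <;> rfl
    rw [e1, e2] at h0
    exact h0
  · intro j a hj
    rcases htj : t j with a' | p
    · have h3 : τ j = Sum.inl a' := by
        simp only [τ, htj, Sum.map_inl, id]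
      rw [h3] at hj
      rw [← Sum.inl.inj hj]
      exact ht.1 j a' htj
    · have h3 : ∃ q, τ j = Sum.inr q := by
        simp only [τ, htj, Sum.map_inr]
        exact ⟨_, rfl⟩
      obtain ⟨q, hq⟩ := h3
      rw [hq] at hj
      exact absurd hj (by simp)
  · intro j j' s s' hj hj'
    rcases htj : t j with a' | p | k | p <;> rcases htj' : t j' with a' | p' | k' | p'
      <;> simp only [τ, htj, htj', Sum.map_inr, Sum.map_inl, Sum.elim_inl, Sum.elim_inr,
        Sum.inr.injEq, reduceCtorEq] at hj hj'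
    all_goals rw [← hj, ← hj']
    all_goals simp only [Sum.elim_inl, Sum.elim_inr, id]
    · exact hg.lt_iff_lt.symm
    · have g1 := ht.2 j p htj
      have g2 := h1 _ g1
      omega
    · have g1 := ht.2 j p htj
      have g2 := h1 _ g1
      have g3 := h2 p'.1
      omega
    · have g1 := ht.2 j' p' htj'
      have g2 := h1 _ g1
      omega
    · omega
    · have g3 := h2 p'.1
      have g4 : f + 0 < b := hb k
      omega
    · have g1 := ht.2 j' p' htj'
      have g2 := h1 _ g1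
      have g3 := h2 p.1
      omega
    · have g3 := h2 p.1
      have g4 : f + 0 < b := hb k'
      omega
    · have := hh.lt_iff_lt (a := p.1) (b := p'.1)
      omega

/-- label symmetries: letters `y` of `e'` which look like the cells `p j` of the chain -/
private theorem one_cell (hP : PCh N A x) {A' : Set ℕ} {m : ℕ} {e' : ℕ → Fin m → ℕ}
    (hAA' : A ⊆ A') {X : κ → Fin m} {a : ℕ → ℕ} (hX : ∀ j k, e' j (X k) = x (a j) k)
    (ha : StrictMono a) {y : κ → Fin m} {p : ℕ → ℕ}
    (hy : ∀ (j : ℕ) (t : Fin r → ℕ ⊕ ((ℕ × κ) ⊕ κ)), (∀ j' b, t j' = Sum.inl b → b ∈ A) →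
      (∀ j' q, t j' = Sum.inr (Sum.inl q) → ∃ i, i ≠ j ∧ q.1 = a i) →
      N (fun j' => Sum.elim id (Sum.elim (fun q => x q.1 q.2) (fun k => e' j (y k))) (t j')) =
        N (fun j' => Sum.elim id (Sum.elim (fun q => x q.1 q.2) (x (p j))) (t j')))
    (hp : ∀ j i, (i < j → a i < p j) ∧ (j < i → p j < a i)) {σ : κ → κ}
    (hT : Teq N A' e' (blk 0 y) (blk 0 (fun k => X (σ k)))) :
    Teq N A x (blk 0 (fun k => k)) (blk 0 σ) := by
  intro f b b' hb hb' hz hz' t ht
  have hha : StrictMono (fun i => a (f + 1 + i)) := fun i i' h => ha (Nat.add_lt_add_left h _)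
  rw [cell_re hP.hom (fun k => k) hb hz ha hha (fun i hi => (hp f i).1 hi)
      (fun i => (hp f (f + 1 + i)).2 (by omega)) t ht,
    cell_re hP.hom σ hb' hz' ha hha (q := a f) (fun i hi => ha hi)
      (fun i => ha (by omega)) t ht]
  let M : ℕ ⊕ ((ℕ × κ) ⊕ (κ ⊕ (ℕ × κ))) → ℕ ⊕ ((ℕ × κ) ⊕ κ) :=
    Sum.elim Sum.inl (Sum.elim (fun q => Sum.inr (Sum.inl (a q.1, q.2)))
      (Sum.elim (fun k => Sum.inr (Sum.inr k)) (fun q => Sum.inr (Sum.inl (a (f + 1 + q.1), q.2)))))
  have h0 := hy f (fun j => M (t j)) ?_ ?_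
  · have e1 : ∀ u : κ → ℕ, (fun j => Sum.elim id (Sum.elim (fun q => x q.1 q.2) u) (M (t j))) =
        fun j => vE1 x a (fun i => a (f + 1 + i)) u (t j) := by
      intro u
      funext j
      rcases t j with a | q | k | q <;> rfl
    rw [e1, e1] at h0
    rw [← h0]
    let T : ℕ ⊕ ((ℕ × κ) ⊕ (κ ⊕ (ℕ × κ))) → ℕ ⊕ ((ℕ × Fin m) ⊕ (κ ⊕ (ℕ × Fin m))) :=
      Sum.map id (Sum.map (fun q => (q.1, X q.2)) (Sum.map id (fun q => (q.1, X q.2))))
    have h1 := hT f (f + 1) (f + 1) (by omega) (by omega) (fun _ => Nat.lt_succ_self f)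
      (fun _ => Nat.lt_succ_self f) (fun j => T (t j)) ⟨?_, ?_⟩
    · have e2 : ∀ y : κ → Fin m, (fun j => pl e' f (f + 1) (blk 0 y) (T (t j))) =
          fun j => vE1 x a (fun i => a (f + 1 + i)) (fun k => e' f (y k)) (t j) := by
        intro y
        funext j
        rcases t j with a' | q | k | q
        · rfl
        · exact hX _ _
        · rfl
        · exact hX _ _
      rw [e2, e2] at h1
      rw [h1]
      have e3 : (fun k => e' f (X (σ k))) = fun k => x (a f) (σ k) := by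
        funext k
        exact hX _ _
      rw [e3]
    · intro j a' hj
      change T (t j) = _ at hj
      rcases htj : t j with b | q | k | q <;> rw [htj] at hj
      · rw [← Sum.inl.inj hj]
        exact hAA' (ht.1 j b htj)
      all_goals exact absurd hj (by simp [T])
    · intro j q hj
      change T (t j) = _ at hj
      rcases htj : t j with b | q' | k | q' <;> rw [htj] at hj
      · exact absurd hj (by simp [T])
      · have hj' : (q'.1, X q'.2) = q := Sum.inl.inj (Sum.inr.inj hj)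
        rw [← hj']
        exact ht.2 j q' htj
      · exact absurd hj (by simp [T])
      · exact absurd hj (by simp [T])
  · intro j a' hj
    change M (t j) = _ at hj
    rcases htj : t j with b | q | k | q <;> rw [htj] at hj
    · rw [← Sum.inl.inj hj]
      exact ht.1 j b htj
    all_goals exact absurd hj (by simp [M])
  · intro j q hj
    change M (t j) = _ at hj
    rcases htj : t j with b | q' | k | q' <;> rw [htj] at hj
    · exact absurd hj (by simp [M])
    · have hj' : (a q'.1, q'.2) = q := Sum.inl.inj (Sum.inr.inj hj)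
      rw [← hj']
      exact ⟨q'.1, (ht.2 j q' htj).ne, rfl⟩
    · exact absurd hj (by simp [M])
    · have hj' : (a (f + 1 + q'.1), q'.2) = q := Sum.inl.inj (Sum.inr.inj hj)
      rw [← hj']
      exact ⟨f + 1 + q'.1, by omega, rfl⟩

/-- a subtuple of the letters which contains a copy of the chain atom is everything -/
private theorem sim_full {κ₁ : Type} (hW : ¬ Wild N univ) {A' : Set ℕ} {m : ℕ}
    {e' : ℕ → Fin m → ℕ} [Finite κ] [Finite κ₁] (hA' : A'.Finite) (hH' : Hom N A' e')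
    {X : κ → Fin m} (hX : CA N A' e' X) {y : κ₁ → Fin m} (hy : Injective y)
    (hn : ¬ Perp N A' e' y X) : ∃ (s : Set κ₁) (σ : s ≃ κ), CA N A' e' (res s y) ∧
      Teq N A' e' (blk 0 (res s y)) (blk 0 (fun k => X (σ k))) := by
  obtain ⟨s, s', c1, c2, c3⟩ := c1' hW hH' hA' hy hX.inj hn
  have h4 := hX.sub_eq hH' s' c2
  subst h4
  obtain ⟨σ, hσ⟩ := c3
  exact ⟨s, σ.trans (Equiv.Set.univ κ), c1, hσ⟩

/-- Two copies `X`, `Y` of the chain in a block, with numbers `a j < b j < a (j + 1)`: same type, `X`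
before `Y`. PROOF. Both are chain atoms (`CA.ext`), they do not commute (`Ext.perp`-like: the pair has
the types of `(x 0, x 1)`, `(x 1, x 0)` in the chain); so they are similar (`c1'`, `CA.sub_eq`) with
some `σ`, which is a label symmetry of the chain (`Ext.teq`); `MG`. Disjoint ranges; `c5`; `Prec Y X`
would give in the chain that `(x 0, x 1)` has the type of `(x 1, x 0)`. -/
theorem copy_prec (hW : ¬ Wild N univ) (hP : PCh N A x) [Finite κ] (hG : MG N A x) {A' : Set ℕ}
    {m : ℕ} {e' : ℕ → Fin m → ℕ} (hA' : A'.Finite) (hAA' : A ⊆ A') (hH' : Hom N A' e')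
    {X Y : κ → Fin m} {a b : ℕ → ℕ} (hX : ∀ j k, e' j (X k) = x (a j) k)
    (hY : ∀ j k, e' j (Y k) = x (b j) k) (hab : ∀ j, a j < b j) (hba : ∀ j, b j < a (j + 1)) :
    CA N A' e' X ∧ CA N A' e' Y ∧ Teq N A' e' (blk 0 Y) (blk 0 X) ∧ Prec N A' e' X Y ∧
      Disjoint (range X) (range Y) := by
  classical
  have ha : StrictMono a := strictMono_nat_of_lt_succ fun j => (hab j).trans (hba j)
  have hb : StrictMono b := strictMono_nat_of_lt_succ fun j => (hba j).trans (hab (j + 1))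
  have eX : Ext A x A' e' X := ⟨hAA', a, ha, hX⟩
  have eY : Ext A x A' e' Y := ⟨hAA', b, hb, hY⟩
  have cX : CA N A' e' X := CA.ext hW hP.hom hP.fin hH' hA' eX hP.ca
  have cY : CA N A' e' Y := CA.ext hW hP.hom hP.fin hH' hA' eY hP.ca
  obtain ⟨t, c, c', t1, t2, hc, t3⟩ := v_ctx3 hP
  have hha : StrictMono (fun i => a (r + 2 + i)) := fun i i' h => ha (Nat.add_lt_add_left h _)
  have hba' : ∀ i j, i < j → b i < a j := fun i j h => (hba i).trans_le (ha.monotone h)
  have hn : ¬ Perp N A' e' Y X := by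
    intro hp
    have h1 := pair_tr hAA' hX t1 t2 hp (by rintro (k | k) <;> simp [blk])
      (by rintro (k | k) <;> simp [blk]) (fun k => Sum.inr (Sum.inl k))
      (fun k => Sum.inr (Sum.inr k)) (fun k a h => absurd h (by simp))
      (fun k a h => absurd h (by simp))
    have e1 : ∀ i j : ℕ, (fun k : κ => Sum.elim id (fun s => e' (r + ((Sum.elim (blk i Y)
        (blk j X) : κ ⊕ κ → ℕ × Fin m) s).1) ((Sum.elim (blk i Y)
        (blk j X) : κ ⊕ κ → ℕ × Fin m) s).2) ((Sum.inr (Sum.inl k) : ℕ ⊕ (κ ⊕ κ)))) =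
          x (b (r + i)) := by
      intro i j
      funext k
      exact hY _ _
    have e2 : ∀ i j : ℕ, (fun k : κ => Sum.elim id (fun s => e' (r + ((Sum.elim (blk i Y)
        (blk j X) : κ ⊕ κ → ℕ × Fin m) s).1) ((Sum.elim (blk i Y)
        (blk j X) : κ ⊕ κ → ℕ × Fin m) s).2) ((Sum.inr (Sum.inr k) : ℕ ⊕ (κ ⊕ κ)))) =
          x (a (r + j)) := by
      intro i j
      funext k
      exact hX _ _
    rw [e1, e1, e2, e2, (t3 a _ (b (r + 0)) (a (r + 1)) ha hha
      (fun i hi => (ha hi).trans (hab r)) (hba' _ _ (by omega)) (fun i => ha (by omega))).1,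
      (t3 a _ (a (r + 0)) (b (r + 1)) ha hha
        (fun i hi => ha hi) ((hab _).trans (hb (by omega))) (fun i => hba' _ _ (by omega))).2]
      at h1
    exact hc h1
  -- similar
  obtain ⟨s, σ, c1, hσ⟩ := sim_full hW hA' hH' cX cY.inj hn
  have hs := cY.sub_eq hH' s c1
  subst hs
  let σ' : κ ≃ κ := (Equiv.Set.univ κ).symm.trans σ
  have hσ' : Teq N A' e' (blk 0 Y) (blk 0 (fun k => X (σ' k))) :=
    hσ.comp hH' (Equiv.Set.univ κ).symm
  have h1 : Teq N A x (blk 0 (fun k => k)) (blk 0 (fun k => σ' k)) := by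
    refine one_cell hP hAA' hX ha (p := b) (fun j t _ _ => ?_) (fun j i => ⟨fun h => ?_, fun h => ?_⟩)
      hσ'
    · have e1 : (fun k => e' j (Y k)) = x (b j) := by
        funext k
        exact hY _ _
      rw [e1]
    · exact (ha h).trans (hab j)
    · exact hba' _ _ h
  have h2 : Teq N A' e' (blk 0 Y) (blk 0 X) :=
    hσ'.trans (hG A' m e' X hA' hH' eX σ' h1.symm)
  have hd : Disjoint (range X) (range Y) := by
    rw [Set.disjoint_left]
    rintro _ ⟨k, rfl⟩ ⟨k', hk'⟩
    have g1 := hX 0 k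
    rw [← hk', hY 0 k'] at g1
    have g2 := (hP.hom.inj _ _ _ _ g1).1
    have g3 := hab 0
    omega
  refine ⟨cX, cY, h2, ?_, hd⟩
  rcases c5 hW hH' hA' cX cY ⟨Equiv.refl κ, h2.symm⟩ hd with h3 | h3
  · exact h3
  · exfalso
    have h1 := pair_tr hAA' hX t1 t2 h3 (by rintro (k | k) <;> simp [blk])
      (by rintro (k | k) <;> simp [blk]) (fun k => Sum.inr (Sum.inl k))
      (fun k => Sum.inr (Sum.inr k)) (fun k a h => absurd h (by simp))
      (fun k a h => absurd h (by simp))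
    have e1 : ∀ i j : ℕ, (fun k : κ => Sum.elim id (fun s => e' (r + ((Sum.elim (blk i Y)
        (blk j X) : κ ⊕ κ → ℕ × Fin m) s).1) ((Sum.elim (blk i Y)
        (blk j X) : κ ⊕ κ → ℕ × Fin m) s).2) ((Sum.inr (Sum.inl k) : ℕ ⊕ (κ ⊕ κ)))) =
          x (b (r + i)) := by
      intro i j
      funext k
      exact hY _ _
    have e2 : ∀ i j : ℕ, (fun k : κ => Sum.elim id (fun s => e' (r + ((Sum.elim (blk i Y)
        (blk j X) : κ ⊕ κ → ℕ × Fin m) s).1) ((Sum.elim (blk i Y)
        (blk j X) : κ ⊕ κ → ℕ × Fin m) s).2) ((Sum.inr (Sum.inr k) : ℕ ⊕ (κ ⊕ κ)))) =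
          x (a (r + j)) := by
      intro i j
      funext k
      exact hX _ _
    rw [e1, e1, e2, e2, (t3 a _ (a (r + 0)) (b (r + 0)) ha hha
      (fun i hi => ha hi) (hab _) (fun i => hba' _ _ (by omega))).2,
      (t3 a _ (b (r + 0)) (a (r + 1)) ha hha
        (fun i hi => (ha hi).trans (hab r)) (hba' _ _ (by omega)) (fun i => ha (by omega))).1]
      at h1
    exact hc h1.symm

/-- VLIM. A sequence of cells `v j` between `x (n j)` and `x (L j)`, consisting of constants and
letters of `e'`, consists of letters, which form a chain atom between `Tm` and `Tp`. PROOF. Let `ν` be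
the set of the `k` with `χ k` a letter. The letters `χ k`, `k ∈ ν`, and `Tm` do not commute in `e'`:
take a context showing the difference of `(x 0, x 1)` and `(x 1, x 0)`; put it into the blocks of
`e'` (letters `Tm`), and the constants `χ k`, `k ∉ ν`; by `VL` the cell `v j` in the block `j` behaves
like `x (n j + 1)`. So (`c1'`) a subset of the letters of `v` is similar to a subset of `Tm`, which is
all of `Tm` (`CA.sub_eq`): `ν = univ` and `v` is a chain atom similar to `Tm` by `σ`; `σ` is a label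
symmetry of the chain (a context in `e'` again), so by `MG` the types of `v` and `Tm` agree. Order:
`c5` and again the types in the chain, as in `copy_prec`. -/
theorem vlim (hW : ¬ Wild N univ) (hP : PCh N A x) [Finite κ] (hG : MG N A x) {A' : Set ℕ}
    {m : ℕ} {e' : ℕ → Fin m → ℕ} (hA' : A'.Finite) (hAA' : A ⊆ A') (hH' : Hom N A' e')
    {Tm Tp : κ → Fin m} {n L : ℕ → ℕ} (hTm : ∀ j k, e' j (Tm k) = x (n j) k)
    (hTp : ∀ j k, e' j (Tp k) = x (L j) k) (hnL : ∀ j, n j + 1 < L j)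
    (hLn : ∀ j, L j < n (j + 1)) (v : ℕ → κ → ℕ) (hv : ∀ j, VL N A x (n j) (L j) (v j))
    (χ : κ → ℕ ⊕ Fin m) (hχ : ∀ k a, χ k = Sum.inl a → a ∈ A')
    (hvχ : ∀ j k, v j k = Sum.elim id (e' j) (χ k)) :
    ∃ y : κ → Fin m, (∀ k, χ k = Sum.inr (y k)) ∧ Btw N A' e' Tm Tp y := by
  classical
  have hn : StrictMono n := strictMono_nat_of_lt_succ fun j => by
    have := hnL j
    have := hLn j
    omega
  have hL : StrictMono L := strictMono_nat_of_lt_succ fun j => by
    have := hnL (j + 1)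
    have := hLn j
    omega
  have hLn' : ∀ i j, i < j → L i < n j := fun i j h => (hLn i).trans_le (hn.monotone h)
  obtain ⟨cm, cp, hpm, -, -⟩ := copy_prec hW hP hG hA' hAA' hH' hTm hTp
    (fun j => (Nat.lt_succ_self _).trans (hnL j)) hLn
  obtain ⟨t, c, c', t1, t2, hc, t3⟩ := v_ctx3 hP
  have hhn : StrictMono (fun i => n (r + 2 + i)) := fun i i' h => hn (Nat.add_lt_add_left h _)
  have em : Ext A x A' e' Tm := ⟨hAA', n, hn, hTm⟩
  -- letters of `v`
  let ν : Set κ := {k | ∃ d, χ k = Sum.inr d}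
  have hν : ∀ k : ν, ∃ d, χ k = Sum.inr d := fun k => k.2
  choose y₀ hy₀ using hν
  have hvy : ∀ j (k : ν), e' j (y₀ k) = v j k := by
    intro j k
    rw [hvχ, hy₀]
    rfl
  have hyi : Injective y₀ := by
    intro k k' hk
    apply Subtype.ext
    apply (hv 0).1
    rw [← hvy, ← hvy, hk]
  let π : κ → ℕ ⊕ (ν ⊕ κ) := fun k =>
    if h : k ∈ ν then Sum.inr (Sum.inl ⟨k, h⟩) else Sum.inl (v 0 k)
  have hπ : ∀ k a, π k = Sum.inl a → a ∈ A' := by
    intro k a hk
    by_cases h : k ∈ ν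
    · simp only [π, dif_pos h, reduceCtorEq] at hk
    · simp only [π, dif_neg h, Sum.inl.injEq] at hk
      rcases hχk : χ k with b | d
      · rw [← hk, hvχ, hχk]
        exact hχ k b hχk
      · exact absurd ⟨d, hχk⟩ h
  have hvc : ∀ j k, k ∉ ν → v j k = v 0 k := by
    intro j k h
    rcases hχk : χ k with b | d
    · rw [hvχ, hvχ, hχk]
      rfl
    · exact absurd ⟨d, hχk⟩ h
  have e1 : ∀ i j : ℕ, (fun k : κ => Sum.elim id (fun s => e' (r + ((Sum.elim (blk i y₀)
      (blk j Tm) : ν ⊕ κ → ℕ × Fin m) s).1) ((Sum.elim (blk i y₀)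
      (blk j Tm) : ν ⊕ κ → ℕ × Fin m) s).2) (π k)) = v (r + i) := by
    intro i j
    funext k
    by_cases h : k ∈ ν
    · simp only [π, dif_pos h]
      exact hvy _ _
    · simp only [π, dif_neg h]
      exact (hvc _ k h).symm
  have e2 : ∀ i j : ℕ, (fun k : κ => Sum.elim id (fun s => e' (r + ((Sum.elim (blk i y₀)
      (blk j Tm) : ν ⊕ κ → ℕ × Fin m) s).1) ((Sum.elim (blk i y₀)
      (blk j Tm) : ν ⊕ κ → ℕ × Fin m) s).2) ((Sum.inr (Sum.inr k) : ℕ ⊕ (ν ⊕ κ)))) =
        x (n (r + j)) := by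
    intro i j
    funext k
    exact hTm _ _
  have hno : ¬ Perp N A' e' y₀ Tm := by
    intro hp
    have h1 := pair_tr hAA' hTm t1 t2 hp (by rintro (k | k) <;> simp [blk])
      (by rintro (k | k) <;> simp [blk]) π (fun k => Sum.inr (Sum.inr k)) hπ
      (fun k a h => absurd h (by simp))
    rw [e1, e1, e2, e2, vl_fst (hv (r + 0)) t1 t2 (fun i hi => (hn hi).le)
      (Or.inr (hLn' _ _ (by omega)).le) (fun i => (hLn' _ _ (by omega)).le),
      vl_fst (hv (r + 1)) t1 t2 (fun i hi => (hn (by omega)).le)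
      (Or.inl (hn (by omega)).le) (fun i => (hLn' _ _ (by omega)).le),
      (t3 n _ (n (r + 0) + 1) (n (r + 1)) hn hhn (fun i hi => (hn hi).trans (Nat.lt_succ_self _))
        ((hnL _).trans (hLn' _ _ (by omega))) (fun i => hn (by omega))).1,
      (t3 n _ (n (r + 0)) (n (r + 1) + 1) hn hhn (fun i hi => hn hi)
        ((hn (by omega)).trans (Nat.lt_succ_self _))
        (fun i => (hnL _).trans (hLn' _ _ (by omega)))).2] at h1
    exact hc h1
  obtain ⟨s, σ, c1, hσ⟩ := sim_full hW hA' hH' cm hyi hno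
  -- all labels
  have hall : ∀ k, k ∈ ν := by
    have g1 : Injective (fun k : κ => ((σ.symm k : ν) : κ)) := by
      intro k k' hk
      exact σ.symm.injective (Subtype.ext (Subtype.ext hk))
    have g2 := Finite.surjective_of_injective g1
    intro k
    obtain ⟨k', hk'⟩ := g2 k
    rw [← hk']
    exact ((σ.symm k' : ν)).2
  choose y hy using hall
  have hyy : ∀ k (h : k ∈ ν), y₀ ⟨k, h⟩ = y k := by
    intro k h
    have g1 := hy₀ ⟨k, h⟩
    rw [hy k] at g1
    exact (Sum.inr.inj g1).symm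
  have hvy' : ∀ j k, e' j (y k) = v j k := by
    intro j k
    rw [← hyy k ⟨y k, hy k⟩]
    exact hvy j ⟨k, ⟨y k, hy k⟩⟩
  -- the bijection
  have hsu : ∀ k : κ, ∃ h : k ∈ ν, (⟨k, h⟩ : ν) ∈ s := by
    have g1 : Injective (fun k : κ => ((σ.symm k : ν) : κ)) := by
      intro k k' hk
      exact σ.symm.injective (Subtype.ext (Subtype.ext hk))
    have g2 := Finite.surjective_of_injective g1
    intro k
    obtain ⟨k', hk'⟩ := g2 k
    refine ⟨⟨y k, hy k⟩, ?_⟩
    have g3 : (⟨k, ⟨y k, hy k⟩⟩ : ν) = (σ.symm k' : ν) := Subtype.ext hk'.symm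
    rw [g3]
    exact (σ.symm k').2
  let E : κ ≃ s := Equiv.ofBijective (fun k => ⟨⟨k, (hsu k).1⟩, (hsu k).2⟩) ⟨fun k k' hk => by
    have g1 := congrArg (fun q : s => ((q : ν) : κ)) hk
    exact g1, fun q => ⟨((q : ν) : κ), rfl⟩⟩
  have hEy : (fun k => res s y₀ (E k)) = y := by
    funext k
    exact hyy k _
  have cy : CA N A' e' y := by
    have g1 := c1.equiv hH' E
    rw [hEy] at g1
    exact g1
  have hσ' : Teq N A' e' (blk 0 y) (blk 0 (fun k => Tm ((E.trans σ) k))) := by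
    have g1 := hσ.comp hH' E
    have e3 : (fun k => blk 0 (res s y₀) (E k)) = blk 0 y := by
      funext k
      show (0, res s y₀ (E k)) = (0, y k)
      rw [← hEy]
    rw [e3] at g1
    exact g1
  have h1 : Teq N A x (blk 0 (fun k => k)) (blk 0 (fun k => (E.trans σ) k)) := by
    refine one_cell hP hAA' hTm hn (p := fun j => n j + 1) (fun j t ht htb => ?_)
      (fun j i => ⟨fun h => ?_, fun h => ?_⟩) hσ'
    · have e3 : (fun k => e' j (y k)) = v j := by
        funext k
        exact hvy' _ _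
      rw [e3]
      refine (hv j).2.2.2 t ht fun j' q hj' => ?_
      obtain ⟨i, hi, hq⟩ := htb j' q hj'
      rw [hq]
      rcases Nat.lt_or_gt_of_ne hi with h | h
      · exact Or.inl (hn h).le
      · exact Or.inr (hLn' _ _ h).le
    · exact (hn h).trans (Nat.lt_succ_self _)
    · exact (hnL j).trans (hLn' _ _ h)
  have h2 : Teq N A' e' (blk 0 y) (blk 0 Tm) :=
    hσ'.trans (hG A' m e' Tm hA' hH' em (E.trans σ) h1.symm)
  have hdm : Disjoint (range Tm) (range y) := by
    rw [Set.disjoint_left]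
    rintro _ ⟨k, rfl⟩ ⟨k', hk'⟩
    have g1 := hTm 0 k
    rw [← hk', hvy'] at g1
    exact (hv 0).2.2.1 (n 0) k k' (Or.inl le_rfl) g1
  have hdp : Disjoint (range y) (range Tp) := by
    rw [Set.disjoint_left]
    rintro _ ⟨k, rfl⟩ ⟨k', hk'⟩
    have g1 := hTp 0 k'
    rw [hk', hvy'] at g1
    exact (hv 0).2.2.1 (L 0) k' k (Or.inr le_rfl) g1
  refine ⟨y, hy, cy, h2, ?_, ?_⟩
  · rcases c5 hW hH' hA' cm cy ⟨Equiv.refl κ, h2.symm⟩ hdm with h3 | h3
    · exact h3
    · exfalso
      have h1 := pair_tr hAA' hTm t1 t2 h3 (by rintro (k | k) <;> simp [blk])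
        (by rintro (k | k) <;> simp [blk]) (fun k => Sum.inr (Sum.inl k))
        (fun k => Sum.inr (Sum.inr k)) (fun k a h => absurd h (by simp))
        (fun k a h => absurd h (by simp))
      have e1 : ∀ i j : ℕ, (fun k : κ => Sum.elim id (fun s => e' (r + ((Sum.elim (blk i y)
          (blk j Tm) : κ ⊕ κ → ℕ × Fin m) s).1) ((Sum.elim (blk i y)
          (blk j Tm) : κ ⊕ κ → ℕ × Fin m) s).2) ((Sum.inr (Sum.inl k) : ℕ ⊕ (κ ⊕ κ)))) =
            v (r + i) := by
        intro i j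
        funext k
        exact hvy' _ _
      have e2 : ∀ i j : ℕ, (fun k : κ => Sum.elim id (fun s => e' (r + ((Sum.elim (blk i y)
          (blk j Tm) : κ ⊕ κ → ℕ × Fin m) s).1) ((Sum.elim (blk i y)
          (blk j Tm) : κ ⊕ κ → ℕ × Fin m) s).2) ((Sum.inr (Sum.inr k) : ℕ ⊕ (κ ⊕ κ)))) =
            x (n (r + j)) := by
        intro i j
        funext k
        exact hTm _ _
      rw [e1 0 0, e1 0 1, e2 0 0, e2 0 1, vl_fst (hv (r + 0)) t1 t2 (fun i hi => (hn hi).le)
        (Or.inl le_rfl) (fun i => (hLn' _ _ (by omega)).le),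
        vl_fst (hv (r + 0)) t1 t2 (fun i hi => (hn hi).le)
        (Or.inr (hLn' _ _ (by omega)).le) (fun i => (hLn' _ _ (by omega)).le),
        (t3 n _ (n (r + 0)) (n (r + 0) + 1) hn hhn (fun i hi => hn hi)
          (Nat.lt_succ_self _) (fun i => (hnL _).trans (hLn' _ _ (by omega)))).2,
        (t3 n _ (n (r + 0) + 1) (n (r + 1)) hn hhn (fun i hi => (hn hi).trans (Nat.lt_succ_self _))
          ((hnL _).trans (hLn' _ _ (by omega))) (fun i => hn (by omega))).1] at h1
      exact hc h1.symm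
  · rcases c5 hW hH' hA' cy cp ⟨Equiv.refl κ, h2.trans hpm.symm⟩ hdp with h3 | h3
    · exact h3
    · exfalso
      have h1 := pair_tr hAA' hTm t1 t2 h3 (by rintro (k | k) <;> simp [blk])
        (by rintro (k | k) <;> simp [blk]) (fun k => Sum.inr (Sum.inl k))
        (fun k => Sum.inr (Sum.inr k)) (fun k a h => absurd h (by simp))
        (fun k a h => absurd h (by simp))
      have e1 : ∀ i j : ℕ, (fun k : κ => Sum.elim id (fun s => e' (r + ((Sum.elim (blk i Tp)
          (blk j y) : κ ⊕ κ → ℕ × Fin m) s).1) ((Sum.elim (blk i Tp)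
          (blk j y) : κ ⊕ κ → ℕ × Fin m) s).2) ((Sum.inr (Sum.inl k) : ℕ ⊕ (κ ⊕ κ)))) =
            x (L (r + i)) := by
        intro i j
        funext k
        exact hTp _ _
      have e2 : ∀ i j : ℕ, (fun k : κ => Sum.elim id (fun s => e' (r + ((Sum.elim (blk i Tp)
          (blk j y) : κ ⊕ κ → ℕ × Fin m) s).1) ((Sum.elim (blk i Tp)
          (blk j y) : κ ⊕ κ → ℕ × Fin m) s).2) ((Sum.inr (Sum.inr k) : ℕ ⊕ (κ ⊕ κ)))) =
            v (r + j) := by
        intro i j
        funext k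
        exact hvy' _ _
      rw [e1 0 0, e1 0 1, e2 0 0, e2 0 1, vl_snd (hv (r + 0)) t1 t2 (fun i hi => (hn hi).le)
        (Or.inr le_rfl) (fun i => (hLn' _ _ (by omega)).le),
        vl_snd (hv (r + 1)) t1 t2 (fun i hi => (hn (by omega)).le)
        (Or.inl (hLn' _ _ (by omega)).le) (fun i => (hLn' _ _ (by omega)).le),
        (t3 n _ (n (r + 0) + 1) (L (r + 0)) hn hhn
          (fun i hi => (hn hi).trans (Nat.lt_succ_self _)) (hnL _)
          (fun i => hLn' _ _ (by omega))).2,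
        (t3 n _ (L (r + 0)) (n (r + 1) + 1) hn hhn
          (fun i hi => ((hn hi).trans (Nat.lt_succ_self _)).trans (hnL _))
          ((hLn' _ _ (by omega)).trans (Nat.lt_succ_self _))
          (fun i => (hnL _).trans (hLn' _ _ (by omega)))).1] at h1
      exact hc h1.symm

end Pool.H17.TB
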