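import Pool.Agent.H17.TB.Lim2

/-!
# Atoms between two copies in extensions
-/

set_option autoImplicit false

namespace Pool.H17.TB

open Pool.H22.VC Function Set Pool.H17.TA

variable {r : ℕ} {K ι κ κ' : Type} {N : Col r K ℕ} {A : Set ℕ} {x : ℕ → κ → ℕ} {e : ℕ → ι → ℕ}

/-- chain atoms which do not commute are similar -/
theorem sim_of_not_perp (hW : ¬ Wild N univ) (hH : Hom N A e) (hA : A.Finite) [Finite ι]
    [Finite κ] [Finite κ'] {τ : κ → ι} {τ' : κ' → ι} (hτ : CA N A e τ) (hτ' : CA N A e τ')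
    (hn : ¬ Perp N A e τ τ') : Sim N A e τ τ' := by
  obtain ⟨s, s', h1, h2, h3⟩ := c1' hW hH hA hτ.inj hτ'.inj hn
  have e1 := hτ.sub_eq hH s h1
  have e2 := hτ'.sub_eq hH s' h2
  subst e1 e2
  obtain ⟨σ, hσ⟩ := h3
  refine ⟨((Equiv.Set.univ κ).symm.trans σ).trans (Equiv.Set.univ κ'), ?_⟩
  have := hσ.comp hH (fun k : κ => (⟨k, mem_univ k⟩ : (univ : Set κ)))
  exact this

/-- `Prec` is asymmetric for similar chain atoms -/
theorem prec_asymm (hH : Hom N A e) [Finite κ] [Finite κ'] {v : κ → ι} {w : κ' → ι}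
    (hv : CA N A e v) (hs : Sim N A e v w) (h : Prec N A e v w) : ¬ Prec N A e w v := by
  intro h'
  exact Bef.asymm hH (hv.not_perp hH hs) (Teq.refl hH _) (Teq.refl hH _)
    ((bef_blk_iff hH 0 v w).2 h) ((bef_blk_iff hH 0 w v).2 h')

/-- tuples of the same type are similar -/
theorem sim_of_teq' {τ τ' : κ → ι} (h : Teq N A e (blk 0 τ) (blk 0 τ')) : Sim N A e τ τ' :=
  ⟨Equiv.refl κ, h⟩

/-- two copies of the chain which commute: so does the chain -/
theorem perp_of_sep (hH : Hom N A x) [Finite κ] {A' : Set ℕ} {e' : ℕ → ι → ℕ} (hAA' : A ⊆ A')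
    {Tm Tp : κ → ι} {a b : ℕ → ℕ} (hTm : ∀ j k, e' j (Tm k) = x (a j) k)
    (hTp : ∀ j k, e' j (Tp k) = x (b j) k)
    (hsep : ∀ i, a i < a (i + 1) ∧ a i < b (i + 1) ∧ b i < a (i + 1) ∧ b i < b (i + 1))
    (hp : Perp N A' e' Tm Tp) : Perp N A x (id : κ → κ) (id : κ → κ) := by
  classical
  intro f b₀ b₁ h1 h2 h3 h4 t ht
  have hmono : ∀ l : ℕ, StrictMono (fun n => if n = l then b n else a n) := by
    intro l
    apply strictMono_nat_of_lt_succ
    intro n
    obtain ⟨g1, g2, g3, g4⟩ := hsep n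
    split_ifs <;> omega
  let t' : Fin r → ℕ ⊕ ((ℕ × ι) ⊕ ((κ ⊕ κ) ⊕ (ℕ × ι))) := fun j =>
    Sum.elim Sum.inl (Sum.elim (fun p => Sum.inr (Sum.inl (p.1, Tm p.2)))
      (Sum.elim (fun k => Sum.inr (Sum.inr (Sum.inl k)))
        (fun p => Sum.inr (Sum.inr (Sum.inr (p.1, Tm p.2)))))) (t j)
  have key : ∀ (c c' b₀ : ℕ) (l : ℕ), f + c' = l → c ≠ c' → (∀ p, f + c < b₀ ∧ f + c' < b₀ + p) →
      N (fun j => pl x f b₀ (Sum.elim (blk c id) (blk c' id)) (t j)) =
        N (fun j => pl e' f b₀ (Sum.elim (blk c Tm) (blk c' Tp)) (t' j)) := by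
    intro c c' b₀ l hl hcc hb
    have g1 := hH.hom _ (hmono l) (fun j => plT f b₀ (Sum.elim (blk c id) (blk c' id)) (t j)) (by
      intro j a' hj
      rcases htj : t j with a | p | (k | k) | p
      · simp only [htj, plT, Sum.elim_inl, Sum.inl.injEq] at hj
        rw [← hj]
        exact ht.1 j a htj
      · simp [htj, plT] at hj
      · simp [htj, plT] at hj
      · simp [htj, plT] at hj
      · simp [htj, plT] at hj)
    simp only [pl_eq x]
    rw [← g1]
    congr 1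
    funext j
    rcases htj : t j with a' | p | (k | k) | p
    · simp only [t', htj]
      rfl
    · have hpf := ht.2 j p htj
      simp only [t', htj]
      show x (if p.1 = l then b p.1 else a p.1) p.2 = e' p.1 (Tm p.2)
      rw [if_neg (by omega), hTm]
    · simp only [t', htj]
      show x (if f + c = l then b (f + c) else a (f + c)) k = e' (f + c) (Tm k)
      rw [if_neg (by omega), hTm]
    · simp only [t', htj]
      show x (if f + c' = l then b (f + c') else a (f + c')) k = e' (f + c') (Tp k)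
      rw [if_pos hl, hTp]
    · have := hb p.1
      simp only [t', htj]
      show x (if b₀ + p.1 = l then b (b₀ + p.1) else a (b₀ + p.1)) p.2 = e' (b₀ + p.1) (Tm p.2)
      rw [if_neg (by omega), hTm]
  by_cases hκ : Nonempty κ
  · obtain ⟨k₀⟩ := hκ
    have i1 : f + 0 < b₀ := h3 (Sum.inl k₀)
    have i2 : f + 1 < b₀ := h3 (Sum.inr k₀)
    have i3 : f + 1 < b₁ := h4 (Sum.inl k₀)
    have i4 : f + 0 < b₁ := h4 (Sum.inr k₀)
    rw [key 0 1 b₀ (f + 1) rfl (by omega) (fun p => by omega),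
      key 1 0 b₁ f rfl (by omega) (fun p => by omega)]
    refine hp f b₀ b₁ h1 h2 (by rintro (k | k) <;> assumption) (by rintro (k | k) <;> assumption)
      t' ⟨?_, ?_⟩
    · intro j a' hj
      rcases htj : t j with a | p | k | p
      · simp only [t', htj, Sum.elim_inl, Sum.inl.injEq] at hj
        rw [← hj]
        exact hAA' (ht.1 j a htj)
      · simp [t', htj] at hj
      · simp [t', htj] at hj
      · simp [t', htj] at hj
    · intro j p' hj
      rcases htj : t j with a | p | k | p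
      · simp [t', htj] at hj
      · simp only [t', htj, Sum.elim_inl, Sum.elim_inr, Sum.inr.injEq, Sum.inl.injEq] at hj
        rw [← hj]
        exact ht.2 j p htj
      · simp [t', htj] at hj
      · simp [t', htj] at hj
  · haveI : IsEmpty κ := not_nonempty_iff.1 hκ
    refine (teq_pat hH (κ := κ ⊕ κ) (Sum.elim (blk 0 id) (blk 1 id))
      (Sum.elim (blk 1 id) (blk 0 id)) (fun k => ?_) (fun k k' => ?_)) f b₀ b₁ h1 h2 h3 h4 t ht
    · exact isEmptyElim k
    · exact isEmptyElim k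

/-- two copies of a pure chain do not commute -/
theorem not_perp_of_ext (hP : PCh N A x) [Finite κ] {A' : Set ℕ} {e' : ℕ → ι → ℕ}
    (hH' : Hom N A' e') {Tm Tp : κ → ι} (hTm : Ext A x A' e' Tm) (hTp : Ext A x A' e' Tp) :
    ¬ Perp N A' e' Tm Tp := by
  intro hp
  obtain ⟨hAA', φ₁, hφ₁, h1⟩ := hTm
  obtain ⟨-, φ₂, hφ₂, h2⟩ := hTp
  let g : ℕ → ℕ := fun n => Nat.rec 0 (fun _ g => φ₁ g + φ₂ g + 1) n
  have hg : ∀ n, g (n + 1) = φ₁ (g n) + φ₂ (g n) + 1 := fun n => rfl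
  have hgm : StrictMono g := strictMono_nat_of_lt_succ (fun n => by
    have := hφ₁.id_le (g n)
    have h3 : g n ≤ φ₁ (g n) := this
    rw [hg]
    omega)
  have hp' : Perp N A' (fun i => e' (g i)) Tm Tp := (teq_sub hH' hgm _ _).2 hp
  refine hP.ca.nperp (perp_of_sep hP.hom hAA' (a := fun i => φ₁ (g i)) (b := fun i => φ₂ (g i))
    (fun j k => h1 _ _) (fun j k => h2 _ _) (fun i => ?_) hp')
  have h3 : g (i + 1) ≤ φ₁ (g (i + 1)) := hφ₁.id_le _
  have h4 : g (i + 1) ≤ φ₂ (g (i + 1)) := hφ₂.id_le _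
  have h5 := hg i
  beta_reduce
  refine ⟨?_, ?_, ?_, ?_⟩ <;> omega

/-- the type of an atom of the type of `Tm` passes to extensions -/
theorem teq_ext_aux (hW : ¬ Wild N univ) (hP : PCh N A x) [Finite κ] (hG : MG N A x)
    {A' A'' : Set ℕ} {m m' : ℕ} {e' : ℕ → Fin m → ℕ} {e'' : ℕ → Fin m' → ℕ} (hA' : A'.Finite)
    (hA'' : A''.Finite) (hH' : Hom N A' e') (hH'' : Hom N A'' e'') {Tm : κ → Fin m}
    (hTm : Ext A x A' e' Tm) {mu : Fin m → Fin m'}
    (h : Ext A' e' A'' e'' mu) {y : κ → Fin m} (hy : CA N A' e' y)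
    (hyT : Teq N A' e' (blk 0 y) (blk 0 Tm)) :
    Teq N A'' e'' (blk 0 (fun k => mu (y k))) (blk 0 (fun k => mu (Tm k))) := by
  have hcm : CA N A' e' Tm := CA.ext hW hP.hom hP.fin hH' hA' hTm hP.ca
  have c1 : CA N A'' e'' (fun k => mu (y k)) := CA.ext hW hH' hA' hH'' hA'' h hy
  have c2 : CA N A'' e'' (fun k => mu (Tm k)) := CA.ext hW hH' hA' hH'' hA'' h hcm
  have hn : ¬ Perp N A'' e'' (fun k => mu (y k)) (fun k => mu (Tm k)) := fun hp =>
    hy.not_perp hH' (sim_of_teq' hyT) (Ext.perp hH' hH'' h hp)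
  obtain ⟨σ, hσ⟩ := sim_of_not_perp hW hH'' hA'' c1 c2 hn
  have h1 : Teq N A' e' (blk 0 y) (blk 0 (fun k => Tm (σ k))) := Ext.teq hH' hH'' h hσ
  have h2 : Teq N A' e' (blk 0 (fun k => Tm (σ k))) (blk 0 Tm) := h1.symm.trans hyT
  have h3 : Teq N A x (blk 0 (fun k => σ k)) (blk 0 (fun k => k)) := Ext.teq hP.hom hH' hTm h2
  have h4 := hG A'' m' e'' (fun k => mu (Tm k)) hA'' hH'' (Ext.trans hTm h) σ h3
  exact hσ.trans h4

/-- `Btw` passes to extensions. (Chain atoms by `CA.ext`; the pair `y`, `Tm` is similar in the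
extension because it does not commute; the labels by `Ext.teq` and `MG`; the order by `c5` and
`Ext.prec`.) -/
theorem Btw.ext (hW : ¬ Wild N univ) (hP : PCh N A x) [Finite κ] (hG : MG N A x)
    {A' A'' : Set ℕ} {m m' : ℕ} {e' : ℕ → Fin m → ℕ} {e'' : ℕ → Fin m' → ℕ} (hA' : A'.Finite)
    (hA'' : A''.Finite) (hH' : Hom N A' e') (hH'' : Hom N A'' e'') {Tm Tp : κ → Fin m}
    (hTm : Ext A x A' e' Tm) (hTp : Ext A x A' e' Tp) {mu : Fin m → Fin m'}
    (h : Ext A' e' A'' e'' mu) {y : κ → Fin m} (hy : Btw N A' e' Tm Tp y) :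
    Btw N A'' e'' (fun k => mu (Tm k)) (fun k => mu (Tp k)) (fun k => mu (y k)) := by
  have hmu : Injective mu := Ext.injective hH' h
  have hcm : CA N A' e' Tm := CA.ext hW hP.hom hP.fin hH' hA' hTm hP.ca
  have hcp : CA N A' e' Tp := CA.ext hW hP.hom hP.fin hH' hA' hTp hP.ca
  have c1 : CA N A'' e'' (fun k => mu (y k)) := CA.ext hW hH' hA' hH'' hA'' h hy.ca
  have c2 : CA N A'' e'' (fun k => mu (Tm k)) := CA.ext hW hH' hA' hH'' hA'' h hcm
  have c3 : CA N A'' e'' (fun k => mu (Tp k)) := CA.ext hW hH' hA' hH'' hA'' h hcp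
  have hteq := teq_ext_aux hW hP hG hA' hA'' hH' hH'' hTm h hy.ca hy.teq
  have hdis : ∀ {v w : κ → Fin m}, Disjoint (range v) (range w) →
      Disjoint (range (fun k => mu (v k))) (range (fun k => mu (w k))) := by
    intro v w hd
    rw [Set.disjoint_left] at hd ⊢
    rintro _ ⟨k, rfl⟩ ⟨k', hk'⟩
    exact hd ⟨k, rfl⟩ ⟨k', hmu hk'⟩
  -- `y` and `Tp` do not commute
  have hn : ¬ Perp N A' e' y Tp := fun hp =>
    not_perp_of_ext hP hH' hTm hTp (hp.congr hH' hy.teq (Teq.refl hH' _))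
  have hs' : Sim N A' e' y Tp := sim_of_not_perp hW hH' hA' hy.ca hcp hn
  have hn' : ¬ Perp N A'' e'' (fun k => mu (y k)) (fun k => mu (Tp k)) := fun hp =>
    hn (Ext.perp hH' hH'' h hp)
  have hs'' : Sim N A'' e'' (fun k => mu (y k)) (fun k => mu (Tp k)) :=
    sim_of_not_perp hW hH'' hA'' c1 c3 hn'
  have hsm : Sim N A' e' Tm y := sim_of_teq' hy.teq.symm
  refine ⟨c1, hteq, ?_, ?_⟩
  · rcases c5 hW hH'' hA'' c2 c1 (sim_of_teq' hteq.symm)
      (hdis (Prec.disjoint hW hH' hA' hcm hy.ca hsm hy.lo)) with h1 | h1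
    · exact h1
    · exact absurd (Ext.prec hH' hH'' h h1) (prec_asymm hH' hcm hsm hy.lo)
  · rcases c5 hW hH'' hA'' c1 c3 hs''
      (hdis (Prec.disjoint hW hH' hA' hy.ca hcp hs' hy.hi)) with h1 | h1
    · exact h1
    · exact absurd (Ext.prec hH' hH'' h h1) (prec_asymm hH' hy.ca hs' hy.hi)

/-- the order of two atoms between `Tm` and `Tp` passes to extensions (same proof) -/
theorem Btw.prec_ext (hW : ¬ Wild N univ) (hP : PCh N A x) [Finite κ] (hG : MG N A x)
    {A' A'' : Set ℕ} {m m' : ℕ} {e' : ℕ → Fin m → ℕ} {e'' : ℕ → Fin m' → ℕ} (hA' : A'.Finite)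
    (hA'' : A''.Finite) (hH' : Hom N A' e') (hH'' : Hom N A'' e'') {Tm Tp : κ → Fin m}
    (hTm : Ext A x A' e' Tm) (hTp : Ext A x A' e' Tp) {mu : Fin m → Fin m'}
    (h : Ext A' e' A'' e'' mu) {y z : κ → Fin m} (hy : Btw N A' e' Tm Tp y)
    (hz : Btw N A' e' Tm Tp z) (hyz : Prec N A' e' y z) :
    Prec N A'' e'' (fun k => mu (y k)) (fun k => mu (z k)) := by
  have hmu : Injective mu := Ext.injective hH' h
  have by' := hy.ext hW hP hG hA' hA'' hH' hH'' hTm hTp h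
  have bz := hz.ext hW hP hG hA' hA'' hH' hH'' hTm hTp h
  have hs : Sim N A' e' y z := sim_of_teq' (hy.teq.trans hz.teq.symm)
  have hs' : Sim N A'' e'' (fun k => mu (y k)) (fun k => mu (z k)) :=
    sim_of_teq' (by'.teq.trans bz.teq.symm)
  have hd : Disjoint (range (fun k => mu (y k))) (range (fun k => mu (z k))) := by
    have hd := Prec.disjoint hW hH' hA' hy.ca hz.ca hs hyz
    rw [Set.disjoint_left] at hd ⊢
    rintro _ ⟨k, rfl⟩ ⟨k', hk'⟩
    exact hd ⟨k, rfl⟩ ⟨k', hmu hk'⟩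
  rcases c5 hW hH'' hA'' by'.ca bz.ca hs' hd with h1 | h1
  · exact h1
  · exact absurd (Ext.prec hH' hH'' h h1) (prec_asymm hH' hy.ca hs hyz)

end Pool.H17.TB
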