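import Pool.Agent.H17.TB.Lim3

/-!
# Limits with contexts

`limy`: `lim` for numbers of cells `≤ n` or `≥ L`, whose copies are before or equal to `Tm` or equal
to or behind `Tp`. `limx`: the same for contexts of constant shape. `exch`: `inv_static` for the
colours. Used for `cl` and `vt_exists`.
-/

set_option autoImplicit false

namespace Pool.H17.TB

open Pool.H22.VC Function Set Pool.H17.TA

variable {r : ℕ} {K ι κ κ' : Type} {N : Col r K ℕ} {A : Set ℕ} {x : ℕ → κ → ℕ} {e : ℕ → ι → ℕ}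

/-- a function to a finite type is constant on a subsequence -/
theorem lx_thin {α : Type} [Finite α] (f : ℕ → α) :
    ∃ (ψ : ℕ → ℕ) (c : α), StrictMono ψ ∧ ∀ k, f (ψ k) = c := by
  obtain ⟨c, hc⟩ := Finite.exists_infinite_fiber f
  have h1 : (f ⁻¹' {c}).Infinite := Set.infinite_coe_iff.1 hc
  refine ⟨fun k => Nat.nth (fun n => f n = c) k, c, ?_, ?_⟩
  · exact Nat.nth_strictMono h1
  · intro k
    exact Nat.nth_mem_of_infinite h1 k

/-- a sequence of data, one behind the other -/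
theorem lx_seq {D : Type} (p : ℕ) (P : ℕ → ℕ → D → Prop)
    (h : ∀ n₀, ∃ n L d, n₀ ≤ n ∧ n + p < L ∧ P n L d) :
    ∃ (n L : ℕ → ℕ) (d : ℕ → D), (∀ j, n j + p < L j) ∧ (∀ j, L j < n (j + 1)) ∧
      ∀ j, P (n j) (L j) (d j) := by
  choose n L d h1 h2 h3 using h
  obtain ⟨a, ha⟩ : ∃ a : ℕ → ℕ, ∀ j, a (j + 1) = L (a j) + 1 :=
    ⟨fun j => Nat.rec 0 (fun _ b => L b + 1) j, fun j => rfl⟩
  refine ⟨fun j => n (a j), fun j => L (a j), fun j => d (a j), fun j => h2 _, fun j => ?_,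
    fun j => h3 _⟩
  have := h1 (a (j + 1))
  rw [ha] at this
  show L (a j) < n (a (j + 1))
  rw [ha]
  omega

/-- position of the copy of a cell of the chain -/
def Pos (N : Col r K ℕ) (A : Set ℕ) (e : ℕ → ι → ℕ) (Tm Tp Y : κ → ι) : Prop :=
  CA N A e Y ∧ Teq N A e (blk 0 Y) (blk 0 Tm) ∧
    (Prec N A e Y Tm ∨ range Y = range Tm ∨ range Y = range Tp ∨ Prec N A e Tp Y)

theorem lx_mono {n L : ℕ → ℕ} (hnL : ∀ k, n k < L k) (hLn : ∀ k, L k < n (k + 1)) {a b : ℕ}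
    (hab : a < b) : L a < n b := by
  have h1 : StrictMono n := strictMono_nat_of_lt_succ fun k => (hnL k).trans (hLn k)
  exact (hLn a).trans_le (h1.monotone hab)

theorem limy (hW : ¬ Wild N univ) (hN : (range N).Finite) (hP : PCh N A x) [Finite κ]
    (hG : MG N A x) {A₀ : Set ℕ} (hA₀ : A₀.Finite) (hAA₀ : A ⊆ A₀) {q s : ℕ} (n L : ℕ → ℕ)
    (hnL : ∀ k, n k < L k) (hLn : ∀ k, L k < n (k + 1)) (u : ℕ → Fin q → ℕ) (l : ℕ → Fin s → ℕ)
    (hl : ∀ k i, l k i ≤ n k ∨ L k ≤ l k i) :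
    ∃ (φ : ℕ → ℕ) (A' : Set ℕ) (m : ℕ) (e' : ℕ → Fin m → ℕ) (Tm Tp : κ → Fin m)
      (χ : Fin q → ℕ ⊕ Fin m) (X : Fin s → Option (κ → Fin m)),
      StrictMono φ ∧ A'.Finite ∧ A₀ ⊆ A' ∧ Hom N A' e' ∧
      (∀ j k, e' j (Tm k) = x (n (φ j)) k) ∧ (∀ j k, e' j (Tp k) = x (L (φ j)) k) ∧
      (∀ c a, χ c = Sum.inl a → a ∈ A') ∧
      (∀ j c, u (φ j) c = Sum.elim id (e' j) (χ c)) ∧
      (∀ i, X i = none → ∃ l₀, ∀ j, l (φ j) i = l₀ ∧ ∀ k, x l₀ k ∈ A') ∧
      (∀ i Y, X i = some Y → (∀ j k, e' j (Y k) = x (l (φ j) i) k) ∧ Pos N A' e' Tm Tp Y) := by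
  classical
  obtain ⟨ψ, c, hψ, hc⟩ := lx_thin (fun k => fun i : Fin s =>
    (decide (l k i < n k), decide (l k i = n k), decide (l k i = L k)))
  have hLn' : ∀ k, L (ψ k) < n (ψ (k + 1)) := fun k => lx_mono hnL hLn (hψ (Nat.lt_succ_self k))
  obtain ⟨φ, A', m, e', Tm, Tp, χ, X, h1, h2, h3, h4, h5, h6, h7, h8, h9, h10⟩ :=
    lim hN hP hA₀ hAA₀ (fun k => n (ψ k)) (fun k => L (ψ k)) (fun k => hnL _) hLn'
      (fun k => u (ψ k)) (fun k => l (ψ k))
  have hAA' := hAA₀.trans h3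
  have hLn'' : ∀ j, L (ψ (φ j)) < n (ψ (φ (j + 1))) := fun j =>
    lx_mono hnL hLn (hψ (h1 (Nat.lt_succ_self j)))
  obtain ⟨cm, cp, htp, hpr, -⟩ := copy_prec hW hP hG h2 hAA' h4 h5 h6 (fun j => hnL _) hLn''
  refine ⟨ψ ∘ φ, A', m, e', Tm, Tp, χ, X, hψ.comp h1, h2, h3, h4, h5, h6, h7, h8, h9, ?_⟩
  intro i Y hY
  obtain ⟨g1, g2⟩ := h10 i Y hY
  refine ⟨g1, ?_⟩
  have hcj : ∀ j j' : ℕ, (l (ψ (φ j)) i < n (ψ (φ j)) ↔ l (ψ (φ j')) i < n (ψ (φ j'))) ∧
      (l (ψ (φ j)) i = n (ψ (φ j)) ↔ l (ψ (φ j')) i = n (ψ (φ j'))) ∧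
      (l (ψ (φ j)) i = L (ψ (φ j)) ↔ l (ψ (φ j')) i = L (ψ (φ j'))) := by
    intro j j'
    have e1 := congrFun ((hc (φ j)).trans (hc (φ j')).symm) i
    simp only [Prod.mk.injEq, decide_eq_decide] at e1
    exact e1
  have hinj : ∀ Z : κ → Fin m, (∀ j k, e' j (Z k) = e' j (Y k)) → Y = Z := by
    intro Z hZ
    funext k
    exact (h4.inj _ _ _ _ (hZ 0 k)).2.symm
  rcases lt_trichotomy (l (ψ (φ 0)) i) (n (ψ (φ 0))) with g3 | g3 | g3
  · have g4 : ∀ j, l (ψ (φ j)) i < n (ψ (φ j)) := fun j => ((hcj 0 j).1).1 g3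
    obtain ⟨k1, k2, k3, k4, -⟩ := copy_prec hW hP hG h2 hAA' h4 g1 h5 g4
      (fun j => (hnL _).trans (g2 j).1)
    exact ⟨k1, k3.symm, Or.inl k4⟩
  · have g4 : ∀ j, l (ψ (φ j)) i = n (ψ (φ j)) := fun j => ((hcj 0 j).2.1).1 g3
    have g5 : Y = Tm := hinj Tm (fun j k => by rw [h5, g1, g4])
    subst g5
    exact ⟨cm, Teq.refl h4 _, Or.inr (Or.inl rfl)⟩
  · by_cases g5 : l (ψ (φ 0)) i = L (ψ (φ 0))
    · have g4 : ∀ j, l (ψ (φ j)) i = L (ψ (φ j)) := fun j => ((hcj 0 j).2.2).1 g5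
      have g6 : Y = Tp := hinj Tp (fun j k => by rw [h6, g1, g4])
      subst g6
      exact ⟨cp, htp, Or.inr (Or.inr (Or.inl rfl))⟩
    · have g4 : ∀ j, L (ψ (φ j)) < l (ψ (φ j)) i := by
        intro j
        have k1 : ¬ l (ψ (φ j)) i < n (ψ (φ j)) := fun h => by
          have := ((hcj 0 j).1).2 h
          omega
        have k2 : ¬ l (ψ (φ j)) i = n (ψ (φ j)) := fun h => by
          have := ((hcj 0 j).2.1).2 h
          omega
        have k3 : ¬ l (ψ (φ j)) i = L (ψ (φ j)) := fun h => g5 (((hcj 0 j).2.2).2 h)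
        have k4 := hl (ψ (φ j)) i
        omega
      obtain ⟨k1, k2, k3, k4, -⟩ := copy_prec hW hP hG h2 hAA' h4 h6 g1 g4
        (fun j => ((g2 j).2.1).trans (hnL _))
      exact ⟨k2, k3.trans htp, Or.inr (Or.inr (Or.inr k4))⟩

/-- atoms between `Tm` and `Tp` do not meet the copies of cells `≤ n` or `≥ L` -/
theorem Pos.disjoint (hW : ¬ Wild N univ) (hH : Hom N A e) (hA : A.Finite) [Finite ι] [Finite κ]
    {Tm Tp Y v : κ → ι} (hm : CA N A e Tm) (hp : CA N A e Tp)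
    (hmp : Teq N A e (blk 0 Tp) (blk 0 Tm)) (hY : Pos N A e Tm Tp Y) (hv : Btw N A e Tm Tp v) :
    Disjoint (range Y) (range v) := by
  by_contra hnd
  have hne : (range Y ∩ range v).Nonempty := by
    rw [Set.not_disjoint_iff] at hnd
    obtain ⟨a, h1, h2⟩ := hnd
    exact ⟨a, h1, h2⟩
  have hr := c3 hW hH hA hY.1 hv.ca hne
  have lab : ∃ ρ : κ → κ, (fun k => Y (ρ k)) = v := by
    have h1 : ∀ k, ∃ k', Y k' = v k := by
      intro k
      have h2 : v k ∈ range Y := by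
        rw [hr]
        exact mem_range_self k
      exact h2
    choose ρ hρ using h1
    exact ⟨ρ, funext hρ⟩
  obtain ⟨ρ, hρ⟩ := lab
  have hmv : Disjoint (range Tm) (range v) :=
    Prec.disjoint hW hH hA hm hv.ca ⟨Equiv.refl κ, hv.teq.symm⟩ hv.lo
  have hvp : Disjoint (range v) (range Tp) :=
    Prec.disjoint hW hH hA hv.ca hp ⟨Equiv.refl κ, hv.teq.trans hmp.symm⟩ hv.hi
  have hκ := hm.nonempty hH
  obtain ⟨k₀⟩ := hκ
  have asymm : ∀ {a b : κ → ι}, CA N A e a → Teq N A e (blk 0 a) (blk 0 Tm) →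
      Teq N A e (blk 0 b) (blk 0 Tm) → Prec N A e a b → ¬ Prec N A e b a := by
    intro a b ha hta htb h h'
    exact Bef.asymm hH (ha.not_perp hH ⟨Equiv.refl κ, hta.trans htb.symm⟩)
      (Teq.refl hH (blk 0 a)) (Teq.refl hH (blk 0 b)) ((bef_blk_iff hH 0 a b).2 h)
      ((bef_blk_iff hH 0 b a).2 h')
  rcases hY.2.2 with h | h | h | h
  · have h1 := c5_prec_map hH h ρ (id : κ → κ)
    rw [hρ] at h1
    exact asymm hv.ca hv.teq (Teq.refl hH _) h1 hv.lo
  · rw [hr] at h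
    rw [h] at hmv
    exact Set.disjoint_left.1 hmv (mem_range_self k₀) (mem_range_self k₀)
  · rw [hr] at h
    rw [h] at hvp
    exact Set.disjoint_left.1 hvp (mem_range_self k₀) (mem_range_self k₀)
  · have h1 := c5_prec_map hH h (id : κ → κ) ρ
    rw [hρ] at h1
    exact asymm hv.ca hv.teq hmp hv.hi h1

/-- the letters of `e'` are letters of `e''` -/
theorem lx_ext {A' A'' : Set ℕ} {m m' : ℕ} {e' : ℕ → Fin m → ℕ} {e'' : ℕ → Fin m' → ℕ}
    (hH' : Hom N A' e') (hAA : A' ⊆ A'') {φ : ℕ → ℕ} (hφ : StrictMono φ)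
    (χ : Fin m → ℕ ⊕ Fin m') (h : ∀ j c, e' (φ j) c = Sum.elim id (e'' j) (χ c)) :
    ∃ mu : Fin m → Fin m', (∀ j c, e'' j (mu c) = e' (φ j) c) ∧ Ext A' e' A'' e'' mu := by
  have h1 : ∀ c, ∃ d, χ c = Sum.inr d := by
    intro c
    rcases hc : χ c with a | d
    · exfalso
      have g : ∀ j, e' (φ j) c = a := by
        intro j
        rw [h j c, hc]
        rfl
      have g2 := (hH'.inj _ _ _ _ ((g 0).trans (g 1).symm)).1
      exact absurd (hφ.injective g2) (by omega)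
    · exact ⟨d, rfl⟩
  choose mu hmu using h1
  have h2 : ∀ j c, e'' j (mu c) = e' (φ j) c := by
    intro j c
    rw [h j c, hmu]
    rfl
  exact ⟨mu, h2, hAA, φ, hφ, h2⟩

/-- Limit with contexts of constant shape. -/
theorem limx (hW : ¬ Wild N univ) (hN : (range N).Finite) (hP : PCh N A x) [Finite κ]
    (hG : MG N A x) {A₀ : Set ℕ} (hA₀ : A₀.Finite) (hAA₀ : A ⊆ A₀) {q : ℕ} (n L : ℕ → ℕ)
    (hnL : ∀ k, n k < L k) (hLn : ∀ k, L k < n (k + 1)) (u : ℕ → Fin q → ℕ) {P Λ : Type}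
    [Finite P] [Finite Λ] (t : ℕ → P → Fin r → ℕ ⊕ ((ℕ × κ) ⊕ Λ))
    (htA : ∀ k π i a, t k π i = Sum.inl a → a ∈ A)
    (htb : ∀ k π i p, t k π i = Sum.inr (Sum.inl p) → p.1 ≤ n k ∨ L k ≤ p.1) :
    ∃ (φ : ℕ → ℕ) (A' : Set ℕ) (m : ℕ) (e' : ℕ → Fin m → ℕ) (Tm Tp : κ → Fin m)
      (χ : Fin q → ℕ ⊕ Fin m) (S : Set (Fin m)) (T : P → Fin r → ℕ ⊕ (S ⊕ Λ)),
      StrictMono φ ∧ A'.Finite ∧ A₀ ⊆ A' ∧ Hom N A' e' ∧
      (∀ j k, e' j (Tm k) = x (n (φ j)) k) ∧ (∀ j k, e' j (Tp k) = x (L (φ j)) k) ∧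
      (∀ c a, χ c = Sum.inl a → a ∈ A') ∧
      (∀ j c, u (φ j) c = Sum.elim id (e' j) (χ c)) ∧
      (∀ a ∈ S, ∃ Y : κ → Fin m, a ∈ range Y ∧ Pos N A' e' Tm Tp Y) ∧
      (∀ π i a, T π i = Sum.inl a → a ∈ A') ∧
      ∀ j π (ρ : Λ → ℕ) i, Sum.elim id (Sum.elim (fun p => x p.1 p.2) ρ) (t (φ j) π i) =
        Sum.elim id (Sum.elim (fun a : S => e' j a) ρ) (T π i) := by
  classical
  have hAf : Finite A := hP.fin
  obtain ⟨s, ⟨E⟩⟩ := Finite.exists_equiv_fin (P × Fin r)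
  obtain ⟨shp, hshp⟩ : ∃ shp : ℕ ⊕ ((ℕ × κ) ⊕ Λ) → Option (A ⊕ (κ ⊕ Λ)),
      (∀ a, ∀ h : a ∈ A, shp (Sum.inl a) = some (Sum.inl ⟨a, h⟩)) ∧
      (∀ p, shp (Sum.inr (Sum.inl p)) = some (Sum.inr (Sum.inl p.2))) ∧
      ∀ c, shp (Sum.inr (Sum.inr c)) = some (Sum.inr (Sum.inr c)) := by
    refine ⟨Sum.elim (fun a => if h : a ∈ A then some (Sum.inl ⟨a, h⟩) else none)
      (Sum.elim (fun p => some (Sum.inr (Sum.inl p.2))) (fun c => some (Sum.inr (Sum.inr c)))),
      ?_, fun p => rfl, fun c => rfl⟩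
    intro a h
    simp only [Sum.elim_inl]
    rw [dif_pos h]
  obtain ⟨ψ, c, hψ, hc⟩ := lx_thin (fun k => fun (π : P) (i : Fin r) => shp (t k π i))
  have hLn' : ∀ k, L (ψ k) < n (ψ (k + 1)) := fun k => lx_mono hnL hLn (hψ (Nat.lt_succ_self k))
  obtain ⟨nb, hnb⟩ : ∃ nb : ℕ → P → Fin r → ℕ, nb = fun k π i => Sum.elim (fun _ => n k)
      (Sum.elim (fun p : ℕ × κ => p.1) (fun _ => n k)) (t k π i) := ⟨_, rfl⟩
  have hnb1 : ∀ k π i p, t k π i = Sum.inr (Sum.inl p) → nb k π i = p.1 := by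
    intro k π i p h
    rw [hnb]
    simp only [h, Sum.elim_inr, Sum.elim_inl]
  have hnb2 : ∀ k π i, nb k π i ≤ n k ∨ L k ≤ nb k π i := by
    intro k π i
    rcases h : t k π i with a | p | c
    · left
      rw [hnb]
      simp only [h, Sum.elim_inl]
      exact le_rfl
    · rw [hnb1 k π i p h]
      exact htb k π i p h
    · left
      rw [hnb]
      simp only [h, Sum.elim_inr]
      exact le_rfl
  obtain ⟨φ, A', m, e', Tm, Tp, χ, X, h1, h2, h3, h4, h5, h6, h7, h8, h9, h10⟩ :=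
    limy hW hN hP hG hA₀ hAA₀ (fun k => n (ψ k)) (fun k => L (ψ k)) (fun k => hnL _) hLn'
      (fun k => u (ψ k)) (fun k i => nb (ψ k) (E.symm i).1 (E.symm i).2)
      (fun k i => hnb2 _ _ _)
  obtain ⟨S, hS⟩ : ∃ S : Set (Fin m), S = {a | ∃ i Y, X i = some Y ∧ a ∈ range Y} := ⟨_, rfl⟩
  have hT : ∀ π i, ∃ T : ℕ ⊕ (S ⊕ Λ), (∀ a, T = Sum.inl a → a ∈ A') ∧ ∀ j (ρ : Λ → ℕ),
      Sum.elim id (Sum.elim (fun p => x p.1 p.2) ρ) (t (ψ (φ j)) π i) =
        Sum.elim id (Sum.elim (fun a : S => e' j a) ρ) T := by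
    intro π i
    have hcst : ∀ j, shp (t (ψ (φ j)) π i) = shp (t (ψ (φ 0)) π i) := by
      intro j
      exact congrFun (congrFun ((hc (φ j)).trans (hc (φ 0)).symm) π) i
    rcases h0 : t (ψ (φ 0)) π i with a | p | c'
    · have ha := htA _ _ _ _ h0
      refine ⟨Sum.inl a, fun b hb => ?_, fun j ρ => ?_⟩
      · rw [← Sum.inl.inj hb]
        exact h3 (hAA₀ ha)
      · have h11 := hcst j
        rw [h0, hshp.1 a ha] at h11
        rcases hj : t (ψ (φ j)) π i with b | p | c'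
        · rw [hj, hshp.1 b (htA _ _ _ _ hj)] at h11
          have h12 : b = a := congrArg Subtype.val (Sum.inl.inj (Option.some.inj h11))
          rw [h12]
          rfl
        · rw [hj, hshp.2.1] at h11
          exact absurd (Option.some.inj h11) (by simp)
        · rw [hj, hshp.2.2] at h11
          exact absurd (Option.some.inj h11) (by simp)
    · have hall : ∀ j, ∃ p', t (ψ (φ j)) π i = Sum.inr (Sum.inl p') ∧ p'.2 = p.2 := by
        intro j
        have h11 := hcst j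
        rw [h0, hshp.2.1] at h11
        rcases hj : t (ψ (φ j)) π i with b | p' | c'
        · rw [hj, hshp.1 b (htA _ _ _ _ hj)] at h11
          exact absurd (Option.some.inj h11) (by simp)
        · rw [hj, hshp.2.1] at h11
          exact ⟨p', rfl, Sum.inl.inj (Sum.inr.inj (Option.some.inj h11))⟩
        · rw [hj, hshp.2.2] at h11
          exact absurd (Option.some.inj h11) (by simp)
      have hval : ∀ j (ρ : Λ → ℕ),
          Sum.elim id (Sum.elim (fun p => x p.1 p.2) ρ) (t (ψ (φ j)) π i) =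
            x (nb (ψ (φ j)) π i) p.2 := by
        intro j ρ
        obtain ⟨p', h11, h12⟩ := hall j
        rw [hnb1 _ _ _ p' h11, h11, ← h12]
        rfl
      rcases hX : X (E (π, i)) with _ | Y
      · obtain ⟨l₀, hl₀⟩ := h9 _ hX
        refine ⟨Sum.inl (x l₀ p.2), fun b hb => ?_, fun j ρ => ?_⟩
        · rw [← Sum.inl.inj hb]
          exact (hl₀ 0).2 _
        · rw [hval]
          have h13 := (hl₀ j).1
          simp only [Equiv.symm_apply_apply] at h13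
          rw [h13]
          rfl
      · refine ⟨Sum.inr (Sum.inl ⟨Y p.2, ?_⟩), fun b hb => ?_, fun j ρ => ?_⟩
        · rw [hS]
          exact ⟨_, Y, hX, mem_range_self _⟩
        · exact absurd hb (by simp)
        · rw [hval]
          have h13 := (h10 _ Y hX).1 j p.2
          simp only [Equiv.symm_apply_apply] at h13
          rw [← h13]
          rfl
    · refine ⟨Sum.inr (Sum.inr c'), fun b hb => absurd hb (by simp), fun j ρ => ?_⟩
      have h11 := hcst j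
      rw [h0, hshp.2.2] at h11
      rcases hj : t (ψ (φ j)) π i with b | p' | c''
      · rw [hj, hshp.1 b (htA _ _ _ _ hj)] at h11
        exact absurd (Option.some.inj h11) (by simp)
      · rw [hj, hshp.2.1] at h11
        exact absurd (Option.some.inj h11) (by simp)
      · rw [hj, hshp.2.2] at h11
        have h12 : c'' = c' := Sum.inr.inj (Sum.inr.inj (Option.some.inj h11))
        rw [h12]
        rfl
  choose T hT1 hT2 using hT
  refine ⟨ψ ∘ φ, A', m, e', Tm, Tp, χ, S, T, hψ.comp h1, h2, h3, h4, h5, h6, h7, h8, ?_, ?_, ?_⟩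
  · intro a ha
    rw [hS] at ha
    obtain ⟨i, Y, hY, haY⟩ := ha
    exact ⟨Y, haY, (h10 i Y hY).2⟩
  · exact hT1
  · exact fun j π ρ i => hT2 π i j ρ

/-- exchange of the cells in a context -/
theorem exch (hW : ¬ Wild N univ) (hH : Hom N A e) (hA : A.Finite) [Finite ι] [Finite κ]
    {p : ℕ} {Tm Tp : κ → ι} (hm : CA N A e Tm) (hp : CA N A e Tp)
    (hmp : Teq N A e (blk 0 Tp) (blk 0 Tm)) (S : Set ι)
    (hS : ∀ a ∈ S, ∃ Y : κ → ι, a ∈ range Y ∧ Pos N A e Tm Tp Y) (v w : Fin p → κ → ι)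
    (hv : ∀ s, Btw N A e Tm Tp (v s)) (hw : ∀ s, Btw N A e Tm Tp (w s))
    (dv : ∀ s s', s ≠ s' → Disjoint (range (v s)) (range (v s')))
    (dw : ∀ s s', s ≠ s' → Disjoint (range (w s)) (range (w s')))
    (hord : ∀ s s', s ≠ s' → Prec N A e (v s) (v s') → Prec N A e (w s) (w s'))
    (T : Fin r → ℕ ⊕ (S ⊕ (Fin p × κ))) (hT : ∀ i a, T i = Sum.inl a → a ∈ A) (j : ℕ) :
    N (fun i => Sum.elim id (Sum.elim (fun a : S => e j a) (fun q => e j (v q.1 q.2))) (T i)) =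
      N (fun i => Sum.elim id (Sum.elim (fun a : S => e j a) (fun q => e j (w q.1 q.2)))
        (T i)) := by
  have hdis : ∀ {b : κ → ι}, Btw N A e Tm Tp b → Disjoint S (range b) := by
    intro b hb
    rw [Set.disjoint_left]
    intro a ha hab
    obtain ⟨Y, haY, hY⟩ := hS a ha
    exact Set.disjoint_left.1 (Pos.disjoint hW hH hA hm hp hmp hY hb) haY hab
  have h0 := inv_static hW hH hA hm hp hmp S v w hv hw dv dw (fun s => hdis (hv s))
    (fun s => hdis (hw s)) (fun _ => univ) (fun s s' _ _ => hord s s') (by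
      intro y hy hyT hyS
      obtain ⟨k₀⟩ := hy.nonempty hH
      obtain ⟨Y, haY, hY⟩ := hS _ (hyS k₀)
      have hr := c3 hW hH hA hy hY.1 ⟨_, mem_range_self k₀, haY⟩
      have h1 : ∀ k, ∃ k', Y k' = y k := by
        intro k
        have h2 : y k ∈ range Y := by
          rw [← hr]
          exact mem_range_self k
        exact h2
      choose ρ hρ using h1
      have e1 : (fun k => Y (ρ k)) = y := funext hρ
      rcases hY.2.2 with h | h | h | h
      · have h2 := c5_prec_map hH h ρ (id : κ → κ)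
        rw [e1] at h2
        exact Or.inl h2
      · exact Or.inr (Or.inl (hr.trans h))
      · exact Or.inr (Or.inr (Or.inl (hr.trans h)))
      · have h2 := c5_prec_map hH h (id : κ → κ) ρ
        rw [e1] at h2
        exact Or.inr (Or.inr (Or.inr h2)))
  obtain ⟨t, ht⟩ : ∃ t : Fin r → ℕ ⊕ ((ℕ × ι) ⊕ ((S ⊕ {q : Fin p × κ // q.2 ∈ (univ : Set κ)}) ⊕
      (ℕ × ι))), t = fun i => Sum.map id (fun c => Sum.inr (Sum.inl
        (Sum.map id (fun q => ⟨q, mem_univ _⟩) c))) (T i) := ⟨_, rfl⟩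
  have ht' : ∀ i, t i = Sum.map id (fun c => Sum.inr (Sum.inl
      (Sum.map id (fun q => ⟨q, mem_univ _⟩) c))) (T i) := by
    intro i
    rw [ht]
  have h1 := h0 j (j + 1) (j + 1) (by omega) (by omega) (fun k => Nat.lt_succ_self j)
    (fun k => Nat.lt_succ_self j) t (by
      constructor
      · intro i a hi
        rw [ht' i] at hi
        rcases hTi : T i with b | c
        · rw [hTi] at hi
          have h2 : b = a := Sum.inl.inj hi
          rw [← h2]
          exact hT i b hTi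
        · rw [hTi] at hi
          exact absurd hi (by simp)
      · intro i q hi
        rw [ht' i] at hi
        rcases hTi : T i with b | c
        · rw [hTi] at hi
          exact absurd hi (by simp)
        · rw [hTi] at hi
          exact absurd hi (by simp))
  have e1 : ∀ b : Fin p → κ → ι, (fun i => pl e j (j + 1) (blk 0 (Sum.elim (fun a : S => (a : ι))
      (fun q : {q : Fin p × κ // q.2 ∈ (univ : Set κ)} => b q.1.1 q.1.2))) (t i)) =
      fun i => Sum.elim id (Sum.elim (fun a : S => e j a) (fun q => e j (b q.1 q.2))) (T i) := by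
    intro b
    funext i
    rw [ht' i]
    rcases hTi : T i with a | c | c <;> rfl
  rw [e1, e1] at h1
  exact h1

/-- the order of the atoms of one type is transitive -/
theorem lx_trans (hW : ¬ Wild N univ) (hH : Hom N A e) (hA : A.Finite) [Finite ι] [Finite κ]
    {a b c : κ → ι} (ha : CA N A e a) (hb : CA N A e b) (hc : CA N A e c)
    (hab : Teq N A e (blk 0 a) (blk 0 b)) (hbc : Teq N A e (blk 0 b) (blk 0 c))
    (p1 : Prec N A e a b) (p2 : Prec N A e b c) : Prec N A e a c := by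
  have sab : Sim N A e a b := ⟨Equiv.refl κ, hab⟩
  have sbc : Sim N A e b c := ⟨Equiv.refl κ, hbc⟩
  have sac : Sim N A e a c := ⟨Equiv.refl κ, hab.trans hbc⟩
  have d1 := Prec.disjoint hW hH hA ha hb sab p1
  have d2 := Prec.disjoint hW hH hA hb hc sbc p2
  have d3 : Disjoint (range a) (range c) := by
    by_contra hnd
    have hne : (range a ∩ range c).Nonempty := by
      rw [Set.not_disjoint_iff] at hnd
      obtain ⟨u, h1, h2⟩ := hnd
      exact ⟨u, h1, h2⟩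
    have hr := c3 hW hH hA ha hc hne
    have h1 : ∀ k, ∃ k', c k' = a k := by
      intro k
      have h2 : a k ∈ range c := by
        rw [← hr]
        exact mem_range_self k
      exact h2
    choose ρ hρ using h1
    have h2 := c5_prec_map hH p2 (id : κ → κ) ρ
    have e1 : (fun k => c (ρ k)) = a := funext hρ
    rw [e1] at h2
    exact Bef.asymm hH (ha.not_perp hH sab) (Teq.refl hH (blk 0 a)) (Teq.refl hH (blk 0 b))
      ((bef_blk_iff hH 0 a b).2 p1) ((bef_blk_iff hH 0 b a).2 h2)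
  exact c6 hW hH hA ha hb hc sab sac d1 d3 d2 p1 p2

end Pool.H17.TB
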