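import Pool.Agent.H17.TB.Back

/-!
# Pure chains
-/

set_option autoImplicit false

namespace Pool.H17.TB

open Pool.H22.VC Function Set Pool.H17.TA

variable {r : ℕ} {K ι κ κ' : Type} {N : Col r K ℕ} {A : Set ℕ} {e : ℕ → ι → ℕ}

/-- Pure chain: a homogeneous block sequence whose blocks are chain atoms. -/
structure PCh (N : Col r K ℕ) (A : Set ℕ) (x : ℕ → κ → ℕ) : Prop where
  fin : A.Finite
  hom : Hom N A x
  ca : CA N A x (id : κ → κ)

/-- Minimal label group: the label symmetries of the chain survive in all extensions. -/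
def MG (N : Col r K ℕ) (A : Set ℕ) (x : ℕ → κ → ℕ) : Prop :=
  ∀ (A' : Set ℕ) (m : ℕ) (e' : ℕ → Fin m → ℕ) (lam : κ → Fin m), A'.Finite → Hom N A' e' →
    Ext A x A' e' lam → ∀ σ : κ ≃ κ, Teq N A x (blk 0 (fun k => σ k)) (blk 0 (fun k => k)) →
      Teq N A' e' (blk 0 (fun k => lam (σ k))) (blk 0 lam)

/-- For large `F` the sequence `tl' e τ F` is a pure chain whose label group is the one of `τ` in
`e`. PROOF. `tl'_hom`; it does not commute with itself by `back` for `z = Sum.elim (blk 0 id)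
(blk 1 id)`, `z' = Sum.elim (blk 1 id) (blk 0 id)`; proper pairs commute by `teq_tl'`; `back` for
`blk 0 σ`, `blk 0 id` for the finitely many `σ`. -/
theorem pure_tl' (hW : ¬ Wild N univ) (hH : Hom N A e) (hA : A.Finite) [Finite ι] [Finite κ]
    {τ : κ → ι} (hτ : CA N A e τ) :
    ∃ F, PCh N (AF A e F) (tl' e τ F) ∧ ∀ σ : κ ≃ κ,
      (Teq N (AF A e F) (tl' e τ F) (blk 0 (fun k => σ k)) (blk 0 (fun k => k)) ↔
        Teq N A e (blk 0 (fun k => τ (σ k))) (blk 0 τ)) := by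
  classical
  have hz : Injective (Sum.elim (blk 0 id) (blk 1 id) : κ ⊕ κ → ℕ × κ) := by
    rintro (a | a) (b | b) hab
    · exact congrArg Sum.inl (congrArg Prod.snd hab)
    · exact absurd (congrArg Prod.fst hab) (by simp [blk])
    · exact absurd (congrArg Prod.fst hab) (by simp [blk])
    · exact congrArg Sum.inr (congrArg Prod.snd hab)
  have hz' : Injective (Sum.elim (blk 1 id) (blk 0 id) : κ ⊕ κ → ℕ × κ) := by
    rintro (a | a) (b | b) hab
    · exact congrArg Sum.inl (congrArg Prod.snd hab)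
    · exact absurd (congrArg Prod.fst hab) (by simp [blk])
    · exact absurd (congrArg Prod.fst hab) (by simp [blk])
    · exact congrArg Sum.inr (congrArg Prod.snd hab)
  have hsum : ∀ (κ₁ κ₂ : Type) (u : κ₁ → ℕ × κ) (v : κ₂ → ℕ × κ),
      (fun k => ((Sum.elim u v k).1, τ (Sum.elim u v k).2)) =
        Sum.elim (fun k => ((u k).1, τ (u k).2)) (fun k => ((v k).1, τ (v k).2)) := by
    intro κ₁ κ₂ u v
    funext k
    rcases k with k | k <;> rfl
  obtain ⟨F₁, hF₁⟩ := back hW hH hA hτ _ _ hz hz' (by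
    intro h
    apply hτ.nperp
    rw [hsum, hsum] at h
    exact h)
  have h2 : ∀ σ : κ ≃ κ, ∃ F₀, ∀ F, F₀ ≤ F →
      Teq N (AF A e F) (tl' e τ F) (blk 0 (fun k => σ k)) (blk 0 (fun k => k)) →
        Teq N A e (blk 0 (fun k => τ (σ k))) (blk 0 τ) := by
    intro σ
    by_cases h : Teq N A e (blk 0 (fun k => τ (σ k))) (blk 0 τ)
    · exact ⟨0, fun _ _ _ => h⟩
    · obtain ⟨F₀, hF₀⟩ := back hW hH hA hτ (blk 0 (fun k => σ k)) (blk 0 (fun k => k))
        (fun a b hab => σ.injective (congrArg Prod.snd hab))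
        (fun a b hab => congrArg Prod.snd hab) h
      exact ⟨F₀, fun F hF hT => absurd hT (hF₀ F hF)⟩
  choose G hG using h2
  obtain ⟨F₂, hF₂⟩ := (Set.finite_range G).bddAbove
  refine ⟨F₁ + F₂, ⟨AF_finite hA _, tl'_hom hH hτ.inj _, injective_id, ?_, ?_⟩, fun σ => ⟨?_, ?_⟩⟩
  · exact hF₁ _ (Nat.le_add_right _ _)
  · intro s s' hs
    refine teq_tl' hH (F₁ + F₂) ?_
    rw [hsum, hsum]
    exact hτ.min s s' hs
  · exact hG σ _ (le_trans (hF₂ ⟨σ, rfl⟩) (Nat.le_add_left _ _))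
  · intro h
    exact teq_tl' hH (F₁ + F₂) h

/-- PURE. PROOF. Consider all pairs `(A', φ)` with `A ⊆ A'` finite, `φ` strictly monotone and
`PCh N A' (fun i k => e (φ i) (τ k))` (they exist by `pure_tl'`); choose one with the smallest number
of `σ : κ ≃ κ` with `Teq N A' x (blk 0 σ) (blk 0 id)`. If `MG` fails for `A'', e', lam, σ`, apply
`pure_tl'` to `e'` and `lam` (a chain atom by `CA.ext`): a pair with a smaller group
(`Ext.teq`). -/
theorem exists_pure (hW : ¬ Wild N univ) (hH : Hom N A e) (hA : A.Finite) [Finite ι] [Finite κ]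
    {τ : κ → ι} (hτ : CA N A e τ) :
    ∃ (A' : Set ℕ) (φ : ℕ → ℕ), A ⊆ A' ∧ StrictMono φ ∧
      PCh N A' (fun i k => e (φ i) (τ k)) ∧ MG N A' (fun i k => e (φ i) (τ k)) := by
  classical
  let P : ℕ → Prop := fun n => ∃ (A' : Set ℕ) (φ : ℕ → ℕ), A ⊆ A' ∧ StrictMono φ ∧
    PCh N A' (fun i k => e (φ i) (τ k)) ∧
      {σ : κ ≃ κ | Teq N A' (fun i k => e (φ i) (τ k)) (blk 0 (fun k => σ k))
        (blk 0 (fun k => k))}.ncard = n
  have hex : ∃ n, P n := by
    obtain ⟨F, hF, -⟩ := pure_tl' hW hH hA hτ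
    exact ⟨_, AF A e F, fun i => F + i, subset_union_left, fun a b hab => Nat.add_lt_add_left hab F,
      hF, rfl⟩
  obtain ⟨A', φ, hAA', hφ, hP, hcard⟩ := Nat.find_spec hex
  refine ⟨A', φ, hAA', hφ, hP, ?_⟩
  intro A'' m e' lam hA'' hH' hE σ hσ
  by_contra hcon
  have hca : CA N A'' e' lam := CA.ext hW hP.hom hP.fin hH' hA'' hE hP.ca
  obtain ⟨F, hF, hFσ⟩ := pure_tl' hW hH' hA'' hca
  obtain ⟨hA'A'', ψ, hψ, hψe⟩ := hE
  have he : tl' e' lam F = fun i k => e (φ (ψ (F + i))) (τ k) := by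
    funext i k
    exact hψe (F + i) k
  have hlt : {σ : κ ≃ κ | Teq N (AF A'' e' F) (tl' e' lam F) (blk 0 (fun k => σ k))
      (blk 0 (fun k => k))}.ncard < Nat.find hex := by
    rw [← hcard]
    apply Set.ncard_lt_ncard
    · rw [Set.ssubset_iff_of_subset]
      · refine ⟨σ, hσ, ?_⟩
        intro h
        exact hcon ((hFσ σ).1 h)
      · intro σ' hσ'
        have h1 := (hFσ σ').1 hσ'
        exact Ext.teq hP.hom hH' ⟨hA'A'', ψ, hψ, hψe⟩ h1
    · exact Set.toFinite _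
  refine Nat.find_min hex hlt ⟨AF A'' e' F, fun i => φ (ψ (F + i)), ?_, ?_, ?_, ?_⟩
  · exact (hAA'.trans hA'A'').trans subset_union_left
  · intro a b hab
    exact hφ (hψ (Nat.add_lt_add_left hab F))
  · rw [← he]
    exact hF
  · rw [← he]

end Pool.H17.TB
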