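import Pool.Agent.H17.TB.Cax

/-!
# Permutations of the blocks of a configuration
-/

set_option autoImplicit false

namespace Pool.H17.TB

open Pool.H22.VC Function Set Pool.H17.TA

variable {r : ℕ} {K ι κ κ' : Type} {N : Col r K ℕ} {A : Set ℕ} {e : ℕ → ι → ℕ}

private theorem perp_empty (hH : Hom N A e) {κ₁ κ₂ : Type} (h : IsEmpty κ₁) (τ : κ₁ → ι)
    (τ' : κ₂ → ι) : Perp N A e τ τ' := by
  refine teq_pat hH _ _ ?_ ?_
  · rintro (k | k)
    · exact (h.false k).elim
    · rfl
  · rintro (k | k) (k' | k')
    · exact (h.false k).elim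
    · exact (h.false k).elim
    · exact (h.false k').elim
    · simp [blk]

private theorem perm_aux (hH : Hom N A e) : ∀ (n : ℕ) (κ : Type) (_ : Finite κ) (z : κ → ℕ × ι)
    (ψ : ℕ → ℕ), Nat.card κ ≤ n →
    (∀ k k', (z k).1 ≠ (z k').1 → ψ (z k).1 ≠ ψ (z k').1) →
    (∀ i j, i < j → (∃ k, (z k).1 = i) → (∃ k, (z k).1 = j) → ψ j < ψ i →
      Perp N A e (fun k : {k | (z k).1 = i} => (z k).2) (fun k : {k | (z k).1 = j} => (z k).2)) →
    Teq N A e z (fun k => (ψ (z k).1, (z k).2)) := by
  classical
  intro n
  induction n with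
  | zero =>
    intro κ hκ z ψ hn _ _
    have he : IsEmpty κ := by
      rcases Nat.card_eq_zero.1 (Nat.le_zero.1 hn) with h | h
      · exact h
      · exact (h.not_finite hκ).elim
    exact teq_pat hH _ _ (fun k => (he.false k).elim) (fun k => (he.false k).elim)
  | succ n ih =>
    intro κ hκ z ψ hn hψ h
    rcases isEmpty_or_nonempty κ with he | hne
    · exact teq_pat hH _ _ (fun k => (he.false k).elim) (fun k => (he.false k).elim)
    obtain ⟨k₀, hk₀⟩ := Finite.exists_min (fun k => ψ (z k).1)
    obtain ⟨i₀, hi₀⟩ : ∃ i₀, i₀ = (z k₀).1 := ⟨_, rfl⟩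
    have hmin : ∀ k, (z k).1 ≠ i₀ → ψ i₀ < ψ (z k).1 := by
      intro k hk
      have h1 : ψ (z k₀).1 ≤ ψ (z k).1 := hk₀ k
      have h2 := hψ k k₀ (by rw [← hi₀]; exact hk)
      rw [hi₀]
      omega
    -- step A
    let w : κ → ℕ × ι := fun k => if (z k).1 = i₀ then (0, (z k).2) else ((z k).1 + 1, (z k).2)
    have hA : Teq N A e z w := by
      let zm : {k | (z k).1 < i₀} → ℕ × ι := fun k => ((z k).1 + 1, (z k).2)
      let zp : {k | i₀ < (z k).1} → ℕ × ι := fun k => ((z k).1 + 1, (z k).2)
      let τ' : {k | (z k).1 = i₀} → ι := fun k => (z k).2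
      have h1 := move hH zm τ' (fun i => by
        rcases isEmpty_or_nonempty {k | (zm k).1 = i} with he | ⟨⟨k, hk⟩⟩
        · exact perp_empty hH he _ _
        · have hk1 : (z k).1 < i₀ := k.2
          have hk2 : (z k).1 + 1 = i := hk
          have h2 := h (z k).1 i₀ hk1 ⟨k, rfl⟩ ⟨k₀, hi₀.symm⟩ (hmin k hk1.ne)
          exact h2.comp hH (fun q : {k | (zm k).1 = i} => ⟨((q : {k | (z k).1 < i₀}) : κ), by
            have h3 : (z ((q : {k | (z k).1 < i₀}) : κ)).1 + 1 = i := q.2
            show (z ((q : {k | (z k).1 < i₀}) : κ)).1 = (z k).1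
            omega⟩) id) (i₀ + 1) (fun k => ⟨Nat.succ_pos _, Nat.succ_lt_succ k.2⟩)
      have h2 := cp hH h1 (κ' := Empty) (fun a => a.elim) zp (fun a => a.elim) (fun a => a.elim)
        (by
          rintro (k | k) a
          · have h3 : (z k).1 < i₀ := k.2
            have h4 : i₀ < (z a).1 := a.2
            show (z k).1 + 1 < (z a).1 + 1
            omega
          · have h4 : i₀ < (z a).1 := a.2
            show i₀ + 1 < (z a).1 + 1
            omega)
        (by
          rintro (k | k) a
          · have h3 : (z k).1 < i₀ := k.2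
            have h4 : i₀ < (z a).1 := a.2
            show (z k).1 + 1 < (z a).1 + 1
            omega
          · show 0 < (z a).1 + 1
            omega) (fun a => a.elim)
      let ρ : κ → Empty ⊕ (({k | (z k).1 < i₀} ⊕ {k | (z k).1 = i₀}) ⊕ {k | i₀ < (z k).1}) :=
        fun k => if h : (z k).1 < i₀ then Sum.inr (Sum.inl (Sum.inl ⟨k, h⟩))
          else if h' : (z k).1 = i₀ then Sum.inr (Sum.inl (Sum.inr ⟨k, h'⟩))
          else Sum.inr (Sum.inr ⟨k, by
            show i₀ < (z k).1
            omega⟩)
      have h3 := h2.comp hH ρ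
      have e1 : (fun k => Sum.elim (fun a : Empty => (a.elim : ℕ × ι))
          (Sum.elim (Sum.elim zm (blk (i₀ + 1) τ')) zp) (ρ k)) =
          fun k => ((z k).1 + 1, (z k).2) := by
        funext k
        by_cases h4 : (z k).1 < i₀
        · simp only [ρ, dif_pos h4, Sum.elim_inr, Sum.elim_inl, zm]
        · by_cases h5 : (z k).1 = i₀
          · simp only [ρ, dif_neg h4, dif_pos h5, Sum.elim_inr, Sum.elim_inl, blk, τ']
            rw [h5]
          · simp only [ρ, dif_neg h4, dif_neg h5, Sum.elim_inr, zp]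
      have e2 : (fun k => Sum.elim (fun a : Empty => (a.elim : ℕ × ι))
          (Sum.elim (Sum.elim zm (blk 0 τ')) zp) (ρ k)) = w := by
        funext k
        by_cases h4 : (z k).1 < i₀
        · simp only [ρ, dif_pos h4, Sum.elim_inr, Sum.elim_inl, zm, w, if_neg h4.ne]
        · by_cases h5 : (z k).1 = i₀
          · simp only [ρ, dif_neg h4, dif_pos h5, Sum.elim_inr, Sum.elim_inl, blk, τ', w, if_pos h5]
          · simp only [ρ, dif_neg h4, dif_neg h5, Sum.elim_inr, zp, w, if_neg h5]
      rw [e1, e2] at h3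
      exact (Teq.reloc hH z (fun n => n + 1) (fun a b hab => Nat.succ_lt_succ hab)).trans h3
    -- step B
    let w' : κ → ℕ × ι := fun k =>
      if (z k).1 = i₀ then (0, (z k).2) else (ψ (z k).1 + 1, (z k).2)
    have hB : Teq N A e w w' := by
      let R : Set κ := {k | (z k).1 ≠ i₀}
      have hcard : Nat.card R ≤ n := by
        have h1 : Nat.card R < Nat.card κ := by
          rw [Nat.card_coe_set_eq]
          have h2 : R ⊂ univ := by
            refine ⟨subset_univ _, fun h3 => ?_⟩
            have h4 : k₀ ∈ R := h3 (mem_univ k₀)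
            exact h4 hi₀.symm
          have h3 := Set.ncard_lt_ncard h2 (Set.toFinite _)
          rwa [Set.ncard_univ] at h3
        omega
      have h1 := ih R inferInstance (res R z) ψ hcard (fun k k' => hψ k k') (by
        rintro i j hij ⟨k, hk⟩ ⟨k', hk'⟩ hji
        exact (h i j hij ⟨k, hk⟩ ⟨k', hk'⟩ hji).comp hH
          (fun q : {k | (res R z k).1 = i} => ⟨((q : R) : κ), q.2⟩)
          (fun q : {k | (res R z k).1 = j} => ⟨((q : R) : κ), q.2⟩))
      have h2 : Teq N A e (fun k : R => ((z k).1 + 1, (z k).2))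
          (fun k : R => (ψ (z k).1 + 1, (z k).2)) :=
        ((Teq.reloc hH (res R z) (fun n => n + 1) (fun a b hab => Nat.succ_lt_succ hab)).symm.trans
          h1).trans (Teq.reloc hH (fun k : R => (ψ (z k).1, (z k).2)) (fun n => n + 1)
            (fun a b hab => Nat.succ_lt_succ hab))
      have h3 := cp_back hH (Teq.refl hH (fun k : {k | (z k).1 = i₀} => ((0 : ℕ), (z k).2))) h2
        (fun _ _ => Nat.succ_pos _) (fun _ _ => Nat.succ_pos _)
      have h4 := h3.comp hH (fun k : κ => if h : (z k).1 = i₀ then Sum.inl ⟨k, h⟩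
        else Sum.inr ⟨k, h⟩)
      have e1 : (fun k => Sum.elim (fun k : {k | (z k).1 = i₀} => ((0 : ℕ), (z k).2))
          (fun k : R => ((z k).1 + 1, (z k).2)) (if h : (z k).1 = i₀ then Sum.inl ⟨k, h⟩
            else Sum.inr ⟨k, h⟩)) = w := by
        funext k
        by_cases h5 : (z k).1 = i₀
        · simp only [dif_pos h5, Sum.elim_inl, w, if_pos h5]
        · simp only [dif_neg h5, Sum.elim_inr, w, if_neg h5]
      have e2 : (fun k => Sum.elim (fun k : {k | (z k).1 = i₀} => ((0 : ℕ), (z k).2))
          (fun k : R => (ψ (z k).1 + 1, (z k).2)) (if h : (z k).1 = i₀ then Sum.inl ⟨k, h⟩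
            else Sum.inr ⟨k, h⟩)) = w' := by
        funext k
        by_cases h5 : (z k).1 = i₀
        · simp only [dif_pos h5, Sum.elim_inl, w', if_pos h5]
        · simp only [dif_neg h5, Sum.elim_inr, w', if_neg h5]
      rw [e1, e2] at h4
      exact h4
    have hC : Teq N A e w' (fun k => (ψ (z k).1, (z k).2)) := by
      refine teq_pat hH _ _ ?_ ?_
      · intro k
        by_cases h5 : (z k).1 = i₀
        · simp only [w', if_pos h5]
        · simp only [w', if_neg h5]
      · intro k k'
        by_cases h5 : (z k).1 = i₀ <;> by_cases h6 : (z k').1 = i₀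
        · simp only [w', if_pos h5, if_pos h6, h5, h6]
          omega
        · have h7 := hmin k' h6
          simp only [w', if_pos h5, if_neg h6, h5]
          omega
        · have h7 := hmin k h5
          simp only [w', if_neg h5, if_pos h6, h6]
          omega
        · simp only [w', if_neg h5, if_neg h6]
          omega
    exact (hA.trans hB).trans hC

/-- chain atoms among the letters of a block are atoms of the configuration -/
theorem atom_of_part (hH : Hom N A e) [Finite κ] {z : κ → ℕ × ι} {j : ℕ}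
    (s : Set {k | (z k).1 = j}) (h : CA N A e (res s (fun k : {k | (z k).1 = j} => (z k).2))) :
    IsAt N A e z (Subtype.val '' s) ∧ ∃ E : (Subtype.val '' s : Set κ) ≃ s,
      (fun k => res s (fun k : {k | (z k).1 = j} => (z k).2) (E k)) =
        lt' z (Subtype.val '' s) := by
  have hblk : ∀ k ∈ (Subtype.val '' s : Set κ), (z k).1 = j := by
    rintro _ ⟨k, _, rfl⟩
    exact k.2
  obtain ⟨E, hE⟩ : ∃ E : (Subtype.val '' s : Set κ) ≃ s,
      ∀ k, (((E k : s) : {k | (z k).1 = j}) : κ) = k :=
    ⟨(Equiv.Set.image Subtype.val s Subtype.val_injective).symm, fun k =>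
      congrArg Subtype.val
        ((Equiv.Set.image Subtype.val s Subtype.val_injective).apply_symm_apply k)⟩
  have eE : (fun k => res s (fun k : {k | (z k).1 = j} => (z k).2) (E k)) =
      lt' z (Subtype.val '' s) := by
    funext k
    show (z (((E k : s) : {k | (z k).1 = j}) : κ)).2 = _
    rw [hE]
    rfl
  have hca : CA N A e (lt' z (Subtype.val '' s)) := by
    have g1 := h.equiv hH E
    rw [eE] at g1
    exact g1
  exact ⟨isAt_of_ca hH hblk hca, E, eE⟩

/-- The blocks of a configuration may be renumbered (injectively) if any two block parts whose order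
is reversed commute. PROOF. Induction on the number of used blocks. Let `i₀` be the used block with
the smallest `ψ i₀`. All used blocks `i < i₀` have `ψ i > ψ i₀`, so their parts commute with the part
in `i₀`: this part can be moved in front of everything (`move`, with `u` = the parts in blocks `< i₀`
and the blocks `> i₀` as the rest, `cp`). The rest is renumbered by the induction hypothesis
(`cp_front`). -/
theorem teq_perm (hH : Hom N A e) [Finite κ] (z : κ → ℕ × ι) (ψ : ℕ → ℕ)
    (hψ : ∀ k k', (z k).1 ≠ (z k').1 → ψ (z k).1 ≠ ψ (z k').1)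
    (h : ∀ i j, i < j → (∃ k, (z k).1 = i) → (∃ k, (z k).1 = j) → ψ j < ψ i →
      Perp N A e (fun k : {k | (z k).1 = i} => (z k).2) (fun k : {k | (z k).1 = j} => (z k).2)) :
    Teq N A e z (fun k => (ψ (z k).1, (z k).2)) := by
  exact perm_aux hH (Nat.card κ) κ inferInstance z ψ le_rfl hψ h

/-- Two configurations without common kinds of atoms can be exchanged: `u` in front of `v` has the
type of `v` in front of `u`, if no atom of `u` is similar to an atom of `v`. PROOF. `teq_perm`: a
block part of `u` and a block part of `v` commute because otherwise they contain similar chain atoms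
(`c1'`), which are atoms of `u` and `v`. -/
theorem swap_of_no_common (hW : ¬ Wild N univ) (hH : Hom N A e) (hA : A.Finite) [Finite ι]
    [Finite κ] [Finite κ'] (u : κ → ℕ × ι) (v : κ' → ℕ × ι) (hu : Injective u)
    (hv : Injective v) (m n : ℕ) (hm : ∀ k, (u k).1 < m) (hn : ∀ k, (v k).1 < n)
    (h : ∀ L L', IsAt N A e u L → IsAt N A e v L' → ¬ Sim N A e (lt' u L) (lt' v L')) :
    Teq N A e (Sum.elim u (fun k => (m + (v k).1, (v k).2)))
      (Sum.elim (fun k => (n + (u k).1, (u k).2)) v) := by
  classical
  let z : κ ⊕ κ' → ℕ × ι := Sum.elim u (fun k => (m + (v k).1, (v k).2))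
  let ψ : ℕ → ℕ := fun i => if i < m then n + i else i - m
  have hz1 : ∀ k, (z (Sum.inl k)).1 < m := hm
  have hz2 : ∀ k, (z (Sum.inr k)).1 = m + (v k).1 := fun _ => rfl
  have hlt : ∀ i, i < m → ψ i = n + i := fun i hi => if_pos hi
  have hge : ∀ i, ψ (m + i) = i := by
    intro i
    show (if m + i < m then n + (m + i) else m + i - m) = i
    rw [if_neg (by omega)]
    omega
  have h1 := teq_perm hH z ψ (by
    rintro (k | k) (k' | k') hne
    · rw [hlt _ (hz1 k), hlt _ (hz1 k')]
      omega
    · rw [hlt _ (hz1 k), hz2, hge]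
      have := hn k'
      omega
    · rw [hlt _ (hz1 k'), hz2, hge]
      have := hn k
      omega
    · rw [hz2, hz2] at hne
      rw [hz2, hz2, hge, hge]
      omega) (by
    intro i j hij hki hkj hji
    -- the block `i` belongs to `u`, the block `j` to `v`
    have hi : i < m := by
      by_contra hcon
      obtain ⟨k, hk⟩ := hki
      obtain ⟨k', hk'⟩ := hkj
      obtain ⟨a, rfl⟩ : ∃ a, i = m + a := ⟨i - m, by omega⟩
      obtain ⟨b, rfl⟩ : ∃ b, j = m + b := ⟨j - m, by omega⟩
      rw [hge, hge] at hji
      omega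
    have hj : m ≤ j := by
      by_contra hcon
      rw [hlt _ hi, hlt _ (by omega)] at hji
      omega
    obtain ⟨b, rfl⟩ : ∃ b, j = m + b := ⟨j - m, by omega⟩
    have hiu : Injective (fun k : {k | (u k).1 = i} => (u k).2) := by
      intro k k' hk
      exact Subtype.ext (hu (Prod.ext ((show (u k).1 = i from k.2).trans
        (show (u k').1 = i from k'.2).symm) hk))
    have hiv : Injective (fun k : {k | (v k).1 = b} => (v k).2) := by
      intro k k' hk
      exact Subtype.ext (hv (Prod.ext ((show (v k).1 = b from k.2).trans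
        (show (v k').1 = b from k'.2).symm) hk))
    have h2 : Perp N A e (fun k : {k | (u k).1 = i} => (u k).2)
        (fun k : {k | (v k).1 = b} => (v k).2) := by
      by_contra hcon
      obtain ⟨s, s', c1, c2, c3⟩ := c1' hW hH hA hiu hiv hcon
      obtain ⟨a1, E, hE⟩ := atom_of_part hH s c1
      obtain ⟨a2, E', hE'⟩ := atom_of_part hH s' c2
      refine h _ _ a1 a2 ?_
      rw [← hE, ← hE']
      exact (((c3.equiv_left hH E).symm hH).equiv_left hH E').symm hH
    have hl : ∀ k : {k | (z k).1 = i}, ∃ q : {k | (u k).1 = i}, (k : κ ⊕ κ') = Sum.inl (q : κ) := by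
      rintro ⟨k | k, hk⟩
      · exact ⟨⟨k, hk⟩, rfl⟩
      · have h3 : m + (v k).1 = i := hk
        omega
    have hr : ∀ k : {k | (z k).1 = m + b}, ∃ q : {k | (v k).1 = b},
        (k : κ ⊕ κ') = Sum.inr (q : κ') := by
      rintro ⟨k | k, hk⟩
      · have h3 : (z (Sum.inl k)).1 < m := hz1 k
        have h4 : (z (Sum.inl k)).1 = m + b := hk
        omega
      · have h3 : m + (v k).1 = m + b := hk
        exact ⟨⟨k, by show (v k).1 = b; omega⟩, rfl⟩
    choose ρ hρ using hl
    choose ρ' hρ' using hr
    have h3 := h2.comp hH ρ ρ'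
    have e1 : (fun k : {k | (z k).1 = i} => (z k).2) =
        fun k : {k | (z k).1 = i} => (u (ρ k)).2 := by
      funext k
      rw [hρ k]
      rfl
    have e2 : (fun k : {k | (z k).1 = m + b} => (z k).2) =
        fun k : {k | (z k).1 = m + b} => (v (ρ' k)).2 := by
      funext k
      rw [hρ' k]
      rfl
    rw [e1, e2]
    exact h3)
  have e1 : (fun k => (ψ (z k).1, (z k).2)) =
      Sum.elim (fun k => (n + (u k).1, (u k).2)) v := by
    funext k
    rcases k with k | k
    · show (ψ (z (Sum.inl k)).1, _) = _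
      rw [hlt _ (hz1 k)]
      rfl
    · show (ψ (z (Sum.inr k)).1, _) = _
      rw [hz2, hge]
      rfl
  rw [e1] at h1
  exact h1

end Pool.H17.TB
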