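import Pool.Agent.H17.TB.Perm
import Pool.Agent.H17.TB.Img

/-!
# SORTING
-/

set_option autoImplicit false

namespace Pool.H17.TB

open Pool.H22.VC Function Set Pool.H17.TA

variable {r : ℕ} {K ι κ κ' : Type} {N : Col r K ℕ} {A : Set ℕ} {e : ℕ → ι → ℕ}

/-- the constants and the first `F` blocks -/
def AF (A : Set ℕ) (e : ℕ → ι → ℕ) (F : ℕ) : Set ℕ := A ∪ {x | ∃ i c, i < F ∧ x = e i c}

/-- the letters `τ` of the blocks from `F` on -/
def tl' (e : ℕ → ι → ℕ) (τ : κ → ι) (F : ℕ) : ℕ → κ → ℕ := fun i k => e (F + i) (τ k)

theorem AF_finite (hA : A.Finite) [Finite ι] (F : ℕ) : (AF A e F).Finite := by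
  refine hA.union ?_
  have h : (range (fun p : Fin F × ι => e p.1 p.2)).Finite := Set.finite_range _
  refine h.subset ?_
  rintro x ⟨i, c, hi, rfl⟩
  exact ⟨(⟨i, hi⟩, c), rfl⟩

theorem tl'_hom (hH : Hom N A e) {τ : κ → ι} (hτ : Injective τ) (F : ℕ) :
    Hom N (AF A e F) (tl' e τ F) := by
  classical
  refine ⟨fun i j c d h => ?_, ?_, fun φ hφ t ht => ?_⟩
  · obtain ⟨h1, h2⟩ := hH.inj _ _ _ _ h
    exact ⟨by omega, hτ h2⟩
  · rintro i c (h | ⟨j, d, hj, h⟩)
    · exact hH.notA _ _ h
    · have := (hH.inj _ _ _ _ h).1
      omega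
  · -- the translated tuple
    have hu : ∀ j, ∃ u : ℕ ⊕ (ℕ × ι), (∀ a, u = Sum.inl a → a ∈ A) ∧
        Pool.H17.TA.ev (tl' e τ F) (t j) = Pool.H17.TA.ev e u ∧
        Pool.H17.TA.ev (tl' e τ F) (sh φ (t j)) =
          Pool.H17.TA.ev e (sh (fun n => if n < F then n else F + φ (n - F)) u) := by
      intro j
      rcases htj : t j with a | ⟨i, c⟩
      · rcases ht j a htj with h | ⟨i, d, hi, rfl⟩
        · exact ⟨Sum.inl a, fun b hb => by rw [← Sum.inl.inj hb]; exact h, rfl, rfl⟩
        · refine ⟨Sum.inr (i, d), fun b hb => by simp at hb, rfl, ?_⟩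
          show e i d = e (if i < F then i else F + φ (i - F)) d
          rw [if_pos hi]
      · refine ⟨Sum.inr (F + i, τ c), fun b hb => by simp at hb, rfl, ?_⟩
        show e (F + φ i) (τ c) = e (if F + i < F then F + i else F + φ (F + i - F)) (τ c)
        rw [if_neg (by omega), Nat.add_sub_cancel_left]
    choose u hu1 hu2 hu3 using hu
    simp only [hu2, hu3]
    refine hH.hom _ ?_ u (fun j a hj => hu1 j a hj)
    intro a b hab
    beta_reduce
    split_ifs with h1 h2 h3
    · exact hab
    · omega
    · omega
    · have := hφ (show a - F < b - F by omega)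
      omega

/-- types over `e` are finer than types over `tl' e τ F` -/
theorem teq_tl' (hH : Hom N A e) [Finite κ'] {τ : κ → ι} (F : ℕ) {z z' : κ' → ℕ × κ}
    (h : Teq N A e (fun k => ((z k).1, τ (z k).2)) (fun k => ((z' k).1, τ (z' k).2))) :
    Teq N (AF A e F) (tl' e τ F) z z' := by
  classical
  intro f b b' h1 h2 h3 h4 t ht
  have h5 := h (F + f) (F + b) (F + b') (by omega) (by omega)
    (fun k => by have := h3 k; show F + f + (z k).1 < F + b; omega)
    (fun k => by have := h4 k; show F + f + (z' k).1 < F + b'; omega)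
  -- the translated context
  have hu : ∀ j, ∃ u : ℕ ⊕ ((ℕ × ι) ⊕ (κ' ⊕ (ℕ × ι))), (∀ a, u = Sum.inl a → a ∈ A) ∧
      (∀ p, u = Sum.inr (Sum.inl p) → p.1 < F + f) ∧
      ∀ (z : κ' → ℕ × κ) (b : ℕ), pl (tl' e τ F) f b z (t j) =
        pl e (F + f) (F + b) (fun k => ((z k).1, τ (z k).2)) u := by
    intro j
    rcases htj : t j with a | ⟨i, c⟩ | k | ⟨i, c⟩
    · rcases ht.1 j a htj with h | ⟨i, d, hi, rfl⟩
      · exact ⟨Sum.inl a, fun b hb => by rw [← Sum.inl.inj hb]; exact h,
          fun p hp => by simp at hp, fun z b => rfl⟩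
      · refine ⟨Sum.inr (Sum.inl (i, d)), fun b hb => by simp at hb, fun p hp => ?_,
          fun z b => rfl⟩
        have := Sum.inl.inj (Sum.inr.inj hp)
        rw [← this]
        show i < F + f
        omega
    · refine ⟨Sum.inr (Sum.inl (F + i, τ c)), fun b hb => by simp at hb, fun p hp => ?_,
        fun z b => rfl⟩
      have := Sum.inl.inj (Sum.inr.inj hp)
      rw [← this]
      have h6 : i < f := ht.2 j (i, c) htj
      show F + i < F + f
      omega
    · refine ⟨Sum.inr (Sum.inr (Sum.inl k)), fun b hb => by simp at hb,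
        fun p hp => by simp at hp, fun z b => ?_⟩
      show e (F + (f + (z k).1)) (τ (z k).2) = e (F + f + (z k).1) (τ (z k).2)
      rw [Nat.add_assoc]
    · refine ⟨Sum.inr (Sum.inr (Sum.inr (i, τ c))), fun b hb => by simp at hb,
        fun p hp => by simp at hp, fun z b => ?_⟩
      show e (F + (b + i)) (τ c) = e (F + b + i) (τ c)
      rw [Nat.add_assoc]
  choose u hu1 hu2 hu3 using hu
  simp only [hu3]
  exact h5 u ⟨fun j a hj => hu1 j a hj, fun j p hj => hu2 j p hj⟩

/-- SORTING. Let `τ` be a chain atom, `z` an injective configuration of letters of `τ` and `β` an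
injective configuration. Let `At` be the set of the atoms of `β` similar to `τ`, with given
labellings `σ`, and `b₁` the union of `At`. The configuration `Z`: `z` and `β` behind `z`, has the
type of the configuration `W`: first the labels of `β` outside `b₁` (at their places), then `z`
(shifted by `m`), then for every `L ∈ At` the letters `τ (σ L k)` in the block `m' + ρ L`, where `ρ`
is injective on `At` and respects the order `Bef` of the atoms. PROOF. `flat`. Every atom of `z` is
similar to `τ` (`CA.range_eq`, the letters of `z` are in `range τ`). Atoms: for both configurations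
they are the atoms inside the labels of `z`, the atoms of `β` in `b₁` and the atoms of `β` outside
`b₁` (`IsAt.eq_or_disjoint`; an atom of `W` in the block `m' + ρ L` is everything, `CA.sub_eq`).
Types: relocation, and `σ`. Order of similar atoms: both in `z`; both in `At`: `ρ`; both outside:
same places; one in `z` and one in `At`: `z` is in front; one in `z` and one outside `b₁`: not
similar. The rest: the labels of `z` outside its atoms and the labels of `β` outside its atoms; in
`Z` the first ones are in front, in `W` behind: `swap_of_no_common` (no atoms at all). -/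
theorem sorting (hW : ¬ Wild N univ) (hH : Hom N A e) (hA : A.Finite) [Finite ι] [Finite κ]
    [Finite κ'] {κb : Type} [Finite κb] {τ : κ → ι} (hτ : CA N A e τ) (z : κ' → ℕ × κ)
    (hz : Injective z) (β : κb → ℕ × ι) (hβ : Injective β)
    (At : Set (Set κb)) (hAt : ∀ L, L ∈ At ↔ IsAt N A e β L ∧ Sim N A e (lt' β L) τ)
    (σ : ∀ L : Set κb, L → κ)
    (hσ : ∀ L ∈ At, Bijective (σ L) ∧
      Teq N A e (res L β) (blk 0 (fun k : L => τ (σ L k))))
    (ρ : Set κb → ℕ) (hρ : ∀ L ∈ At, ∀ L' ∈ At, L ≠ L' →
      (Bef N A e (res L β) (res L' β) ↔ ρ L < ρ L'))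
    (lab : κb → Set κb) (hlab : ∀ k, (∃ L ∈ At, k ∈ L) → lab k ∈ At ∧ k ∈ lab k)
    (m m' : ℕ) (hm : ∀ k, (β k).1 < m) (hmm : m ≤ m') (hm' : ∀ k, m + (z k).1 < m') (B : ℕ)
    (hB : ∀ k, (z k).1 < B) (W : κb → ℕ × ι)
    (hW1 : ∀ k, (∀ L ∈ At, k ∉ L) → W k = β k)
    (hW2 : ∀ k, (∃ L ∈ At, k ∈ L) → ∀ hk : k ∈ lab k,
      W k = (m' + ρ (lab k), τ (σ (lab k) ⟨k, hk⟩))) :
    Teq N A e (Sum.elim (fun k => ((z k).1, τ (z k).2)) (fun k => (B + (β k).1, (β k).2)))
      (Sum.elim (fun k => (m + (z k).1, τ (z k).2)) W) := by
  classical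
  -- facts about `lab` and `W`
  have hlabeq : ∀ L ∈ At, ∀ k ∈ L, lab k = L := by
    intro L hL k hk
    obtain ⟨h1, h2⟩ := hlab k ⟨L, hL, hk⟩
    rcases IsAt.eq_or_disjoint hW hH hA hβ ((hAt _).1 h1).1 ((hAt _).1 hL).1 with h | h
    · exact h
    · exact absurd hk (Set.disjoint_left.1 h h2)
  have hWat : ∀ L ∈ At, ∀ (k : κb) (hk : k ∈ L), W k = (m' + ρ L, τ (σ L ⟨k, hk⟩)) := by
    intro L hL k hk
    have h1 := hlabeq L hL k hk
    have h2 := hW2 k ⟨L, hL, hk⟩ (by rw [h1]; exact hk)
    subst h1
    exact h2
  have hρinj : ∀ L ∈ At, ∀ L' ∈ At, ρ L = ρ L' → L = L' := by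
    intro L hL L' hL' h
    by_contra hne
    have hs : Sim N A e (lt' β L) (lt' β L') :=
      Sim.trans hH ((hAt _).1 hL).2 (Sim.symm hH ((hAt _).1 hL').2)
    rcases IsAt.total hW hH hA hβ ((hAt _).1 hL).1 ((hAt _).1 hL').1 hs hne with h1 | h1
    · have := (hρ L hL L' hL' hne).1 h1
      omega
    · have := (hρ L' hL' L hL (Ne.symm hne)).1 h1
      omega
  have hWbig : ∀ k, (∃ L ∈ At, k ∈ L) → m' ≤ (W k).1 := by
    rintro k ⟨L, hL, hk⟩
    rw [hWat L hL k hk]
    exact Nat.le_add_right _ _
  have hWsmall : ∀ k, (∀ L ∈ At, k ∉ L) → (W k).1 < m := by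
    intro k hk
    rw [hW1 k hk]
    exact hm k
  -- abbreviations
  obtain ⟨zt, hzt⟩ : ∃ zt : κ' → ℕ × ι, zt = fun k => ((z k).1, τ (z k).2) := ⟨_, rfl⟩
  obtain ⟨Z, hZ⟩ : ∃ Z : κ' ⊕ κb → ℕ × ι,
    Z = Sum.elim zt (fun k => (B + (β k).1, (β k).2)) := ⟨_, rfl⟩
  obtain ⟨V, hV⟩ : ∃ V : κ' ⊕ κb → ℕ × ι,
    V = Sum.elim (fun k => (m + (zt k).1, (zt k).2)) W := ⟨_, rfl⟩
  have hzti : Injective zt := by
    intro k k' hkk
    rw [hzt] at hkk
    have h1 := congrArg Prod.fst hkk
    have h2 := congrArg Prod.snd hkk
    exact hz (Prod.ext h1 (hτ.inj h2))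
  have hZi : Injective Z := by
    rw [hZ]
    rintro (k | k) (k' | k') hkk
    · exact congrArg Sum.inl (hzti hkk)
    · exfalso
      have h1 : (zt k).1 = B + (β k').1 := congrArg Prod.fst hkk
      have h2 : (zt k).1 < B := by rw [hzt]; exact hB k
      omega
    · exfalso
      have h1 : B + (β k).1 = (zt k').1 := congrArg Prod.fst hkk
      have h2 : (zt k').1 < B := by rw [hzt]; exact hB k'
      omega
    · have h1 : B + (β k).1 = B + (β k').1 := congrArg Prod.fst hkk
      have h2 := congrArg Prod.snd hkk
      have h2 : (β k).2 = (β k').2 := h2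
      exact congrArg Sum.inr (hβ (Prod.ext (by omega) h2))
  have hztm : ∀ k, m + (zt k).1 < m' := by
    intro k
    rw [hzt]
    exact hm' k
  have hVi : Injective V := by
    rw [hV]
    rintro (k | k) (k' | k') hkk
    · have h1 : m + (zt k).1 = m + (zt k').1 := congrArg Prod.fst hkk
      have h2 := congrArg Prod.snd hkk
      have h2 : (zt k).2 = (zt k').2 := h2
      exact congrArg Sum.inl (hzti (Prod.ext (by omega) h2))
    · exfalso
      have h1 : m + (zt k).1 = (W k').1 := congrArg Prod.fst hkk
      have h2 := hztm k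
      by_cases h3 : ∃ L ∈ At, k' ∈ L
      · have := hWbig k' h3
        omega
      · push Not at h3
        have := hWsmall k' h3
        omega
    · exfalso
      have h1 : (W k).1 = m + (zt k').1 := congrArg Prod.fst hkk
      have h2 := hztm k'
      by_cases h3 : ∃ L ∈ At, k ∈ L
      · have := hWbig k h3
        omega
      · push Not at h3
        have := hWsmall k h3
        omega
    · have hkk' : W k = W k' := hkk
      congr 1
      by_cases h3 : ∃ L ∈ At, k ∈ L
      · by_cases h4 : ∃ L ∈ At, k' ∈ L
        · obtain ⟨L, hL, hkL⟩ := h3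
          obtain ⟨L', hL', hkL'⟩ := h4
          rw [hWat L hL k hkL, hWat L' hL' k' hkL'] at hkk'
          have h5 : m' + ρ L = m' + ρ L' := congrArg Prod.fst hkk'
          have h6 := hρinj L hL L' hL' (by omega)
          subst h6
          have h7 := hτ.inj (congrArg Prod.snd hkk')
          exact congrArg Subtype.val ((hσ L hL).1.1 h7)
        · exfalso
          have h5 := hWbig k h3
          push Not at h4
          have h6 := hWsmall k' h4
          rw [hkk'] at h5
          omega
      · push Not at h3
        have h5 := hWsmall k h3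
        by_cases h4 : ∃ L ∈ At, k' ∈ L
        · exfalso
          have h6 := hWbig k' h4
          rw [hkk'] at h5
          omega
        · push Not at h4
          rw [hW1 k h3, hW1 k' h4] at hkk'
          exact hβ hkk'
  have hgoal : Teq N A e Z V := by
    -- types of the atoms
    have T1 : ∀ L₁ : Set κ', Teq N A e (res (Sum.inl '' L₁) Z) (res (Sum.inl '' L₁) V) := by
      intro L₁
      rw [teq_image hH Sum.inl_injective, hZ, hV]
      exact Teq.reloc hH (res L₁ zt) (fun n => m + n) (fun a b hab => Nat.add_lt_add_left hab m)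
    have TB : ∀ L₂ : Set κb, Teq N A e (res L₂ (fun k => Z (Sum.inr k))) (res L₂ β) := by
      intro L₂
      rw [hZ]
      exact (Teq.reloc hH (res L₂ β) (fun n => B + n)
        (fun a b hab => Nat.add_lt_add_left hab B)).symm
    have T2 : ∀ L₂ : Set κb, IsAt N A e β L₂ →
        Teq N A e (res (Sum.inr '' L₂) Z) (res (Sum.inr '' L₂) V) := by
      intro L₂ hL₂
      rw [teq_image hH Sum.inr_injective]
      refine (TB L₂).trans ?_
      by_cases hin : L₂ ∈ At
      · refine (hσ L₂ hin).2.trans ((teq_blk hH 0 (m' + ρ L₂) _).trans ?_)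
        have e1 : res L₂ (fun k => V (Sum.inr k)) =
            blk (m' + ρ L₂) (fun k : L₂ => τ (σ L₂ k)) := by
          funext k
          rw [hV]
          exact hWat L₂ hin k k.2
        rw [e1]
        exact Teq.refl hH _
      · have e1 : res L₂ (fun k => V (Sum.inr k)) = res L₂ β := by
          funext k
          rw [hV]
          refine hW1 k (fun L hL hk => ?_)
          rcases IsAt.eq_or_disjoint hW hH hA hβ hL₂ ((hAt _).1 hL).1 with h | h
          · exact hin (h ▸ hL)
          · exact Set.disjoint_left.1 h k.2 hk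
        rw [e1]
        exact Teq.refl hH _
    have A1 : ∀ L₁ : Set κ', IsAt N A e zt L₁ ↔ IsAt N A e Z (Sum.inl '' L₁) := by
      intro L₁
      rw [isAt_image hH Sum.inl_injective, hZ]
      rfl
    have A2 : ∀ L₂ : Set κb, IsAt N A e β L₂ ↔ IsAt N A e Z (Sum.inr '' L₂) := by
      intro L₂
      rw [isAt_image hH Sum.inr_injective]
      exact ⟨fun h => isAt_congr h (TB L₂).symm, fun h => isAt_congr h (TB L₂)⟩
    -- atoms of `Z`
    have CZ : ∀ L, IsAt N A e Z L → (∃ L₁, L = Sum.inl '' L₁ ∧ IsAt N A e zt L₁) ∨
        ∃ L₂, L = Sum.inr '' L₂ ∧ IsAt N A e β L₂ := by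
      intro L hL
      obtain ⟨i, hi, -, -⟩ := hL.ca hH hZi
      rcases lt_or_ge i B with hiB | hiB
      · left
        have e1 : L = Sum.inl '' (Sum.inl ⁻¹' L) := by
          ext k
          rcases k with k | k
          · simp
          · simp only [Set.mem_image, reduceCtorEq, and_false, exists_false, iff_false]
            intro hk
            have h1 := hi _ hk
            rw [hZ] at h1
            have h2 : B + (β k).1 = i := h1
            omega
        exact ⟨_, e1, by rw [A1, ← e1]; exact hL⟩
      · right
        have e1 : L = Sum.inr '' (Sum.inr ⁻¹' L) := by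
          ext k
          rcases k with k | k
          · simp only [Set.mem_image, reduceCtorEq, and_false, exists_false, iff_false]
            intro hk
            have h1 := hi _ hk
            rw [hZ] at h1
            have h2 : (zt k).1 = i := h1
            have h3 : (zt k).1 < B := by rw [hzt]; exact hB k
            omega
          · simp
        exact ⟨_, e1, by rw [A2, ← e1]; exact hL⟩
    -- atoms of `V`
    have CV : ∀ L, IsAt N A e V L → (∃ L₁, L = Sum.inl '' L₁ ∧ IsAt N A e zt L₁) ∨
        ∃ L₂, L = Sum.inr '' L₂ ∧ IsAt N A e β L₂ := by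
      intro L hL
      obtain ⟨i, hi, hca, hne⟩ := hL.ca hH hVi
      by_cases hi1 : i < m
      · -- unsorted
        right
        have e1 : L = Sum.inr '' (Sum.inr ⁻¹' L) := by
          ext k
          rcases k with k | k
          · simp only [Set.mem_image, reduceCtorEq, and_false, exists_false, iff_false]
            intro hk
            have h1 := hi _ hk
            rw [hV] at h1
            have h2 : m + (zt k).1 = i := h1
            omega
          · simp
        refine ⟨_, e1, ?_⟩
        have h2 : IsAt N A e (fun k => V (Sum.inr k)) (Sum.inr ⁻¹' L) := by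
          rw [← isAt_image hH Sum.inr_injective, ← e1]
          exact hL
        have e2 : res (Sum.inr ⁻¹' L) (fun k => V (Sum.inr k)) = res (Sum.inr ⁻¹' L) β := by
          funext k
          rw [hV]
          refine hW1 k (fun L' hL' hk => ?_)
          have h3 := hWbig k ⟨L', hL', hk⟩
          have h4 := hi _ k.2
          rw [hV] at h4
          have h5 : (W k).1 = i := h4
          omega
        refine isAt_congr h2 ?_
        rw [e2]
        exact Teq.refl hH _
      · by_cases hi2 : i < m'
        · left
          have e1 : L = Sum.inl '' (Sum.inl ⁻¹' L) := by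
            ext k
            rcases k with k | k
            · simp
            · simp only [Set.mem_image, reduceCtorEq, and_false, exists_false, iff_false]
              intro hk
              have h1 := hi _ hk
              rw [hV] at h1
              have h2 : (W k).1 = i := h1
              by_cases h3 : ∃ L ∈ At, k ∈ L
              · have := hWbig k h3
                omega
              · push Not at h3
                have := hWsmall k h3
                omega
          refine ⟨_, e1, ?_⟩
          rw [A1, ← e1]
          refine isAt_congr hL ?_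
          have := (T1 (Sum.inl ⁻¹' L)).symm
          rw [← e1] at this
          exact this
        · -- sorted part
          right
          have hall : ∀ k ∈ L, ∃ k' : κb, k = Sum.inr k' ∧ ∃ L' ∈ At, k' ∈ L' := by
            intro k hk
            have h1 := hi _ hk
            rw [hV] at h1
            rcases k with k | k
            · have h2 : m + (zt k).1 = i := h1
              have := hztm k
              omega
            · have h2 : (W k).1 = i := h1
              refine ⟨k, rfl, ?_⟩
              by_contra h3
              push Not at h3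
              have := hWsmall k h3
              omega
          obtain ⟨k₀, hk₀⟩ := hne
          obtain ⟨k₁, rfl, L₀, hL₀, hk₁⟩ := hall k₀ hk₀
          have hi3 : i = m' + ρ L₀ := by
            have h1 := hi _ hk₀
            rw [hV] at h1
            have h2 : (W k₁).1 = i := h1
            rw [hWat L₀ hL₀ k₁ hk₁] at h2
            exact h2.symm
          -- all labels are in `L₀`
          have hsub : ∀ k ∈ L, ∃ k' : κb, k = Sum.inr k' ∧ k' ∈ L₀ := by
            intro k hk
            obtain ⟨k', rfl, L', hL', hk'⟩ := hall k hk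
            have h1 := hi _ hk
            rw [hV] at h1
            have h2 : (W k').1 = i := h1
            rw [hWat L' hL' k' hk'] at h2
            have h3 : m' + ρ L' = i := h2
            have h4 := hρinj L' hL' L₀ hL₀ (by omega)
            exact ⟨k', rfl, h4 ▸ hk'⟩
          -- the letters are those of `τ`
          have hr1 : range (fun k : L => (V k).2) ⊆ range τ := by
            rintro _ ⟨k, rfl⟩
            obtain ⟨k', hk', hk'L⟩ := hsub k k.2
            show (V (k : κ' ⊕ κb)).2 ∈ _
            rw [hk', hV]
            show (W k').2 ∈ _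
            rw [hWat L₀ hL₀ k' hk'L]
            exact mem_range_self _
          have hr2 := CA.range_eq hH hτ hca hr1
          refine ⟨L₀, ?_, ((hAt _).1 hL₀).1⟩
          ext k
          constructor
          · intro hk
            obtain ⟨k', rfl, hk'⟩ := hsub k hk
            exact mem_image_of_mem _ hk'
          · rintro ⟨k', hk', rfl⟩
            have h1 : τ (σ L₀ ⟨k', hk'⟩) ∈ range (fun k : L => (V k).2) := by
              rw [hr2]
              exact mem_range_self _
            obtain ⟨k'', hk''⟩ := h1
            have h2 : V (Sum.inr k') = V k'' := by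
              refine Prod.ext ?_ ?_
              · rw [hi _ k''.2, hi3, hV]
                show (W k').1 = _
                rw [hWat L₀ hL₀ k' hk']
              · have h3 : (V (k'' : κ' ⊕ κb)).2 = τ (σ L₀ ⟨k', hk'⟩) := hk''
                rw [h3, hV]
                show (W k').2 = _
                rw [hWat L₀ hL₀ k' hk']
            have h3 := hVi h2
            rw [h3]
            exact k''.2
    have TT : ∀ L, IsAt N A e Z L → Teq N A e (res L Z) (res L V) := by
      intro L hL
      rcases CZ L hL with ⟨L₁, rfl, -⟩ | ⟨L₂, rfl, h⟩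
      · exact T1 L₁
      · exact T2 L₂ h
    have hsimτ : ∀ L₁ : Set κ', IsAt N A e zt L₁ → Sim N A e (lt' zt L₁) τ := by
      intro L₁ hL₁
      obtain ⟨i, -, hca, -⟩ := hL₁.ca hH hzti
      have hca' : CA N A e (lt' zt L₁) := hca
      refine sim_of_range hH hca'.inj hτ.inj ?_
      refine CA.range_eq hH hτ hca' ?_
      rintro _ ⟨k, rfl⟩
      show (zt k).2 ∈ _
      rw [hzt]
      exact mem_range_self _
    have hsimβ : ∀ L₂ : Set κb, ∀ {κ₀ : Type} [Finite κ₀] (ζ : κ₀ → ι),
        (Sim N A e (lt' Z (Sum.inr '' L₂)) ζ ↔ Sim N A e (lt' β L₂) ζ) := by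
      intro L₂ κ₀ _ ζ
      rw [sim_image hH Sum.inr_injective, hZ]
      rfl
    have hsimz : ∀ L₁ : Set κ', ∀ {κ₀ : Type} [Finite κ₀] (ζ : κ₀ → ι),
        (Sim N A e (lt' Z (Sum.inl '' L₁)) ζ ↔ Sim N A e (lt' zt L₁) ζ) := by
      intro L₁ κ₀ _ ζ
      rw [sim_image hH Sum.inl_injective, hZ]
      rfl
    refine flat hW hH hA hZi hVi (fun L => ⟨fun h => isAt_congr h (TT L h), fun h => ?_⟩) TT ?_ ?_
    · rcases CV L h with ⟨L₁, rfl, h1⟩ | ⟨L₂, rfl, h1⟩
      · exact (A1 L₁).1 h1
      · exact (A2 L₂).1 h1
    · -- order
      intro L L' hL hL' hne hs hb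
      rcases CZ L hL with ⟨L₁, rfl, g1⟩ | ⟨L₂, rfl, g1⟩
      · rcases CZ L' hL' with ⟨L₁', rfl, g2⟩ | ⟨L₂', rfl, g2⟩
        · rw [bef_image hH Sum.inl_injective Sum.inl_injective] at hb ⊢
          rw [hZ] at hb
          rw [hV]
          refine Bef.congr hH hb ?_
          refine teq_pat hH _ _ ?_ ?_
          · rintro (k | k) <;> rfl
          · rintro (k | k) (k' | k') <;>
              simp only [Sum.elim_inl, Sum.elim_inr, res] <;> omega
        · -- `z` is in front of the sorted part
          have g3 : L₂' ∈ At := by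
            rw [hAt]
            refine ⟨g2, ?_⟩
            rw [← hsimβ]
            refine Sim.trans hH (Sim.symm hH hs) ?_
            rw [hsimz]
            exact hsimτ L₁ g1
          rw [bef_image hH Sum.inl_injective Sum.inr_injective]
          refine bef_of_lt hH (fun k k' => ?_)
          rw [hV]
          show m + (zt k).1 < (W k').1
          have := hWbig k' ⟨L₂', g3, k'.2⟩
          have := hztm k
          omega
      · rcases CZ L' hL' with ⟨L₁', rfl, g2⟩ | ⟨L₂', rfl, g2⟩
        · -- impossible
          exfalso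
          refine IsAt.asymm hH hZi hL' hL (Sim.symm hH hs) ?_ hb
          rw [bef_image hH Sum.inl_injective Sum.inr_injective]
          refine bef_of_lt hH (fun k k' => ?_)
          rw [hZ]
          show (zt k).1 < B + (β k').1
          have h3 : (zt k).1 < B := by rw [hzt]; exact hB k
          omega
        · have hne' : L₂ ≠ L₂' := fun h => hne (by rw [h])
          have hb' : Bef N A e (res L₂ β) (res L₂' β) := by
            rw [bef_image hH Sum.inr_injective Sum.inr_injective] at hb
            refine Bef.congr hH hb ?_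
            rw [hZ]
            refine teq_pat hH _ _ ?_ ?_
            · rintro (k | k) <;> rfl
            · rintro (k | k) (k' | k') <;>
                simp only [Sum.elim_inl, Sum.elim_inr, res] <;> omega
          rw [bef_image hH Sum.inr_injective Sum.inr_injective]
          by_cases hin : L₂ ∈ At
          · have hin' : L₂' ∈ At := by
              rw [hAt]
              refine ⟨g2, ?_⟩
              rw [← hsimβ]
              refine Sim.trans hH (Sim.symm hH hs) ?_
              rw [hsimβ]
              exact ((hAt _).1 hin).2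
            refine bef_of_lt hH (fun k k' => ?_)
            rw [hV]
            show (W k).1 < (W k').1
            rw [hWat L₂ hin k k.2, hWat L₂' hin' k' k'.2]
            have := (hρ L₂ hin L₂' hin' hne').1 hb'
            show m' + ρ L₂ < m' + ρ L₂'
            omega
          · have hin' : L₂' ∉ At := by
              intro hin'
              apply hin
              rw [hAt]
              refine ⟨g1, ?_⟩
              rw [← hsimβ]
              refine Sim.trans hH hs ?_
              rw [hsimβ]
              exact ((hAt _).1 hin').2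
            have hout : ∀ M : Set κb, IsAt N A e β M → M ∉ At →
                res M (fun k => V (Sum.inr k)) = res M β := by
              intro M hM hMn
              funext k
              rw [hV]
              refine hW1 k (fun L hL hk => ?_)
              rcases IsAt.eq_or_disjoint hW hH hA hβ hM ((hAt _).1 hL).1 with h | h
              · exact hMn (h ▸ hL)
              · exact Set.disjoint_left.1 h k.2 hk
            rw [hout L₂ g1 hin, hout L₂' g2 hin']
            exact hb'
    · -- the rest
      obtain ⟨Rz, hRz⟩ : ∃ Rz : Set κ', Rz = {k | ∀ L, IsAt N A e zt L → k ∉ L} := ⟨_, rfl⟩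
      obtain ⟨Rb, hRb⟩ : ∃ Rb : Set κb, Rb = {k | ∀ L, IsAt N A e β L → k ∉ L} := ⟨_, rfl⟩
      have hRinl : ∀ k, Sum.inl k ∈ {k | ∀ L, IsAt N A e Z L → k ∉ L} → k ∈ Rz := by
        intro k hk
        rw [hRz]
        intro L hL hkL
        exact hk _ ((A1 L).1 hL) (mem_image_of_mem _ hkL)
      have hRinr : ∀ k, Sum.inr k ∈ {k | ∀ L, IsAt N A e Z L → k ∉ L} → k ∈ Rb := by
        intro k hk
        rw [hRb]
        intro L hL hkL
        exact hk _ ((A2 L).1 hL) (mem_image_of_mem _ hkL)
      have hsw := swap_of_no_common hW hH hA (fun k : Rz => zt k) (fun k : Rb => β k)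
        (fun a b hab => Subtype.ext (hzti hab)) (fun a b hab => Subtype.ext (hβ hab)) B m
        (fun k => by rw [hzt]; exact hB k) (fun k => hm k) (fun L L' _ hL' => by
          exfalso
          have h1 : IsAt N A e β ((fun k : Rb => (k : κb)) '' L') := by
            rw [isAt_image hH Subtype.val_injective]
            exact hL'
          obtain ⟨i, -, -, k, hk⟩ := hL'.ca hH (fun a b hab => Subtype.ext (hβ hab))
          have h2 : (k : κb) ∈ {k | ∀ L, IsAt N A e β L → k ∉ L} := hRb.subset k.2
          exact h2 _ h1 (mem_image_of_mem _ hk))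
      have h5 := hsw.comp hH (fun k : {k | ∀ L, IsAt N A e Z L → k ∉ L} =>
        match k with
        | ⟨Sum.inl a, h⟩ => (Sum.inl ⟨a, hRinl a h⟩ : Rz ⊕ Rb)
        | ⟨Sum.inr a, h⟩ => Sum.inr ⟨a, hRinr a h⟩)
      refine Eq.mp ?_ h5
      congr 1
      · funext k
        rcases k with ⟨k | k, hk⟩
        · show zt k = Z (Sum.inl k)
          rw [hZ]
          rfl
        · show (B + (β k).1, (β k).2) = Z (Sum.inr k)
          rw [hZ]
          rfl
      · funext k
        rcases k with ⟨k | k, hk⟩
        · show (m + (zt k).1, (zt k).2) = V (Sum.inl k)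
          rw [hV]
          rfl
        · show β k = V (Sum.inr k)
          rw [hV]
          show β k = W k
          refine (hW1 k (fun L hL hkL => ?_)).symm
          have h6 := hRinr k hk
          rw [hRb] at h6
          exact h6 L ((hAt _).1 hL).1 hkL
  rw [hZ, hV, hzt] at hgoal
  exact hgoal

end Pool.H17.TB
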