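import Pool.Agent.H17.TB.Perm

/-!
# Exchange of atoms inside a block
-/

set_option autoImplicit false

namespace Pool.H17.TB

open Pool.H22.VC Function Set Pool.H17.TA

variable {r : ℕ} {K ι κ κ' : Type} {N : Col r K ℕ} {A : Set ℕ} {e : ℕ → ι → ℕ}

/-- `v` is an atom of the type of `Tm`, between `Tm` and `Tp` -/
structure Btw (N : Col r K ℕ) (A : Set ℕ) (e : ℕ → ι → ℕ) (Tm Tp v : κ → ι) : Prop where
  ca : CA N A e v
  teq : Teq N A e (blk 0 v) (blk 0 Tm)
  lo : Prec N A e Tm v
  hi : Prec N A e v Tp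

/-- no atom is before itself (with any labelling): otherwise it would commute with itself -/
theorem not_prec_self (hH : Hom N A e) [Finite κ] {v : κ → ι} (hv : CA N A e v) (σ : κ → κ)
    (hσ : Bijective σ) : ¬ Prec N A e v (fun k => v (σ k)) := by
  intro h
  obtain ⟨E, hE⟩ : ∃ E : κ ≃ κ, ∀ k, E k = σ k := ⟨Equiv.ofBijective σ hσ, fun k => rfl⟩
  have h1 := Teq.comp hH h (Sum.elim (fun k => Sum.inr (E.symm k)) (fun k => Sum.inl (σ k)) :
    κ ⊕ κ → κ ⊕ κ)
  have hs : ∀ k, σ (E.symm k) = k := by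
    intro k
    rw [← hE, E.apply_symm_apply]
  have e1 : (fun k => Sum.elim (blk 0 v) (blk 0 (fun k => v (σ k)))
      ((Sum.elim (fun k => Sum.inr (E.symm k)) (fun k => Sum.inl (σ k)) : κ ⊕ κ → κ ⊕ κ) k)) =
      Sum.elim (blk 0 v) (blk 0 (fun k => v (σ k))) := by
    funext k
    rcases k with k | k
    · show ((0, v (σ (E.symm k))) : ℕ × ι) = (0, v k)
      rw [hs]
    · rfl
  have e2 : (fun k => Sum.elim (blk 0 v) (blk 1 (fun k => v (σ k)))
      ((Sum.elim (fun k => Sum.inr (E.symm k)) (fun k => Sum.inl (σ k)) : κ ⊕ κ → κ ⊕ κ) k)) =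
      Sum.elim (blk 1 v) (blk 0 (fun k => v (σ k))) := by
    funext k
    rcases k with k | k
    · show ((1, v (σ (E.symm k))) : ℕ × ι) = (1, v k)
      rw [hs]
    · rfl
  rw [e1, e2] at h1
  have h2 : Perp N A e v (fun k => v (σ k)) := (Teq.symm h).trans h1
  refine hv.not_perp hH ⟨E.symm, ?_⟩ h2
  have e3 : (fun k => v (σ (E.symm k))) = v := by
    funext k
    rw [hs]
  rw [e3]
  exact Teq.refl hH _

/-- similar atoms which are comparable have disjoint ranges -/
theorem Prec.disjoint (hW : ¬ Wild N univ) (hH : Hom N A e) (hA : A.Finite) [Finite ι] [Finite κ]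
    [Finite κ'] {v : κ → ι} {w : κ' → ι} (hv : CA N A e v) (hw : CA N A e w)
    (hs : Sim N A e v w) (h : Prec N A e v w) : Disjoint (range v) (range w) := by
  by_contra hnd
  have hne : (range v ∩ range w).Nonempty := by
    rw [Set.not_disjoint_iff] at hnd
    obtain ⟨a, h1, h2⟩ := hnd
    exact ⟨a, h1, h2⟩
  have hr := c3 hW hH hA hv hw hne
  have h1 : ∀ k, ∃ k', w k' = v k := by
    intro k
    have h2 : v k ∈ range w := by
      rw [← hr]
      exact mem_range_self k
    exact h2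
  choose ρ hρ using h1
  have h2 := c5_prec_map hH h (id : κ → κ) ρ
  have e1 : (fun k => w (ρ k)) = v := funext hρ
  rw [e1] at h2
  exact not_prec_self hH hv id bijective_id h2

private theorem st1_last {α : Type} (R : α → α → Prop) (F : Finset α) (hF : F.Nonempty)
    (htot : ∀ x ∈ F, ∀ y ∈ F, x ≠ y → R x y ∨ R y x)
    (htr : ∀ x ∈ F, ∀ y ∈ F, ∀ z ∈ F, x ≠ y → y ≠ z → x ≠ z → R x y → R y z → R x z) :
    ∃ m ∈ F, ∀ x ∈ F, x ≠ m → R x m := by
  classical
  induction F using Finset.induction_on with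
  | empty => exact absurd hF Finset.not_nonempty_empty
  | insert a F ha ih =>
    rcases F.eq_empty_or_nonempty with h0 | h0
    · subst h0
      refine ⟨a, Finset.mem_insert_self _ _, fun x hx hne => ?_⟩
      rw [Finset.mem_insert] at hx
      rcases hx with hx | hx
      · exact absurd hx hne
      · exact absurd hx (Finset.notMem_empty _)
    · have hs : ∀ x ∈ F, x ∈ insert a F := fun x hx => Finset.mem_insert_of_mem hx
      have haa : a ∈ insert a F := Finset.mem_insert_self _ _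
      obtain ⟨m, hm, hmax⟩ := ih h0 (fun x hx y hy => htot x (hs x hx) y (hs y hy))
        (fun x hx y hy z hz => htr x (hs x hx) y (hs y hy) z (hs z hz))
      have ham : a ≠ m := fun h => ha (by rw [h]; exact hm)
      rcases htot a haa m (hs m hm) ham with h1 | h1
      · refine ⟨m, hs m hm, fun x hx hne => ?_⟩
        rw [Finset.mem_insert] at hx
        rcases hx with hx | hx
        · rw [hx]
          exact h1
        · exact hmax x hx hne
      · refine ⟨a, haa, fun x hx hne => ?_⟩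
        rw [Finset.mem_insert] at hx
        rcases hx with hx | hx
        · exact absurd hx hne
        · by_cases hxm : x = m
          · rw [hxm]
            exact h1
          · exact htr x (hs x hx) m (hs m hm) a haa hxm (Ne.symm ham)
              (fun h => hne h) (hmax x hx hxm) h1

/-- a chain atom similar to `Tm` can be relabelled so that it has the type of `Tm` -/
private theorem st1_relabel (hH : Hom N A e) [Finite κ] [Finite κ'] {Tm w : κ → ι} {y : κ' → ι}
    (hw : Teq N A e (blk 0 w) (blk 0 Tm)) (hy : CA N A e y) (hs : Sim N A e y w) :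
    ∃ E : κ ≃ κ', CA N A e (fun k => y (E k)) ∧
      Teq N A e (blk 0 (fun k => y (E k))) (blk 0 Tm) := by
  obtain ⟨E, hE⟩ := hs
  refine ⟨E.symm, hy.equiv hH E.symm, ?_⟩
  have h1 := hE.comp hH E.symm
  have e1 : (fun k => (blk 0 (fun k => w (E k)) : κ' → ℕ × ι) (E.symm k)) = blk 0 w := by
    funext k
    show ((0, w (E (E.symm k))) : ℕ × ι) = (0, w k)
    rw [E.apply_symm_apply]
  rw [e1] at h1
  exact h1.trans hw

/-- the full configuration without `v s₀` is before `v s₀` -/
private theorem st1_prec (hW : ¬ Wild N univ) (hH : Hom N A e) (hA : A.Finite) [Finite ι]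
    [Finite κ] {p : ℕ} {Tm : κ → ι} (S : Set ι) (v : Fin p → κ → ι)
    (hv : ∀ s, CA N A e (v s) ∧ Teq N A e (blk 0 (v s)) (blk 0 Tm))
    (dv : ∀ s s', s ≠ s' → Disjoint (range (v s)) (range (v s')))
    (Sv : ∀ s, Disjoint S (range (v s)))
    (hS : ∀ y : κ → ι, CA N A e y → Teq N A e (blk 0 y) (blk 0 Tm) → ¬ ∀ k, y k ∈ S)
    (F : Set (Fin p)) (s₀ : Fin p) (hs₀ : s₀ ∉ F) (hlast : ∀ s ∈ F, Prec N A e (v s) (v s₀)) :
    Prec N A e (Sum.elim (fun a : S => (a : ι)) (fun q : F × κ => v q.1 q.2)) (v s₀) := by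
  obtain ⟨σ, hσd⟩ : ∃ σ : S ⊕ (F × κ) → ι,
      σ = Sum.elim (fun a : S => (a : ι)) (fun q : F × κ => v q.1 q.2) := ⟨_, rfl⟩
  rw [← hσd]
  have hσl : ∀ a : S, σ (Sum.inl a) = a := by
    intro a
    rw [hσd]
    rfl
  have hσr : ∀ q : F × κ, σ (Sum.inr q) = v q.1 q.2 := by
    intro q
    rw [hσd]
    rfl
  have hne : ∀ s ∈ F, s ≠ s₀ := fun s hs h => hs₀ (by rw [← h]; exact hs)
  refine split hW hH hA (hv s₀).1 ?_ ?_ ?_
  · rintro (a | q) (a' | q') hk
    · rw [hσl, hσl] at hk
      exact congrArg Sum.inl (Subtype.ext hk)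
    · rw [hσl, hσr] at hk
      exact absurd (mem_range_self q'.2) (fun h => Set.disjoint_left.1 (Sv q'.1) a.2
        (by rw [hk]; exact h))
    · rw [hσl, hσr] at hk
      exact absurd (mem_range_self q.2) (fun h => Set.disjoint_left.1 (Sv q.1) a'.2
        (by rw [← hk]; exact h))
    · rw [hσr, hσr] at hk
      have h1 : q.1 = q'.1 := by
        by_contra h2
        exact Set.disjoint_left.1 (dv q.1 q'.1 (fun h => h2 (Subtype.ext h)))
          (mem_range_self q.2) (by rw [hk]; exact mem_range_self q'.2)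
      have h2 : q.2 = q'.2 := by
        rw [h1] at hk
        exact (hv q'.1).1.inj hk
      exact congrArg Sum.inr (Prod.ext h1 h2)
  · rw [Set.disjoint_left]
    rintro _ ⟨a | q, rfl⟩ hr
    · rw [hσl] at hr
      exact Set.disjoint_left.1 (Sv s₀) a.2 hr
    · rw [hσr] at hr
      exact Set.disjoint_left.1 (dv q.1 s₀ (hne _ q.1.2)) (mem_range_self q.2) hr
  · intro L hL hs
    by_cases hin : ∃ s ∈ F, (range (res L σ) ∩ range (v s)).Nonempty
    · obtain ⟨s, hsF, hint⟩ := hin
      have hr := c3 hW hH hA hL (hv s).1 hint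
      have h1 : ∀ k, ∃ k', v s k' = res L σ k := by
        intro k
        have h2 : res L σ k ∈ range (v s) := by
          rw [← hr]
          exact mem_range_self k
        exact h2
      choose ρ hρ using h1
      have h2 := c5_prec_map hH (hlast s hsF) ρ (id : κ → κ)
      have e1 : (fun k => v s (ρ k)) = res L σ := funext hρ
      rw [e1] at h2
      exact h2
    · exfalso
      obtain ⟨E, h1, h2⟩ := st1_relabel hH (hv s₀).2 hL hs
      refine hS _ h1 h2 fun k => ?_
      rcases hk : ((E k : L) : S ⊕ (F × κ)) with a | q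
      · show σ (E k) ∈ S
        rw [hk, hσl]
        exact a.2
      · exfalso
        refine hin ⟨q.1, q.1.2, v q.1 q.2, ⟨E k, ?_⟩, mem_range_self q.2⟩
        show σ (E k) = _
        rw [hk, hσr]

private theorem st1_main (hW : ¬ Wild N univ) (hH : Hom N A e) (hA : A.Finite) [Finite ι]
    [Finite κ] {p : ℕ} {Tm : κ → ι} (hm : CA N A e Tm) (S : Set ι) (v : Fin p → κ → ι)
    (hv : ∀ s, CA N A e (v s) ∧ Teq N A e (blk 0 (v s)) (blk 0 Tm))
    (dv : ∀ s s', s ≠ s' → Disjoint (range (v s)) (range (v s')))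
    (Sv : ∀ s, Disjoint S (range (v s)))
    (hS : ∀ y : κ → ι, CA N A e y → Teq N A e (blk 0 y) (blk 0 Tm) → ¬ ∀ k, y k ∈ S) :
    ∀ (n : ℕ) (F : Finset (Fin p)), F.card = n → ∀ U : Fin p → Set κ, (∀ s, U s ≠ univ) →
      (∀ s, s ∉ F → U s = ∅) →
      Teq N A e
        (blk 0 (Sum.elim (fun a : S => (a : ι))
          (fun q : {q : Fin p × κ // q.2 ∈ U q.1} => v q.1.1 q.1.2)))
        (Sum.elim (blk 0 (fun a : S => (a : ι)))
          (fun q : {q : Fin p × κ // q.2 ∈ U q.1} => (1 + (q.1.1 : ℕ), Tm q.1.2))) := by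
  classical
  intro n
  induction n with
  | zero =>
    intro F hF U hU hUF
    rw [Finset.card_eq_zero] at hF
    subst hF
    have hno : ∀ q : {q : Fin p × κ // q.2 ∈ U q.1}, False := by
      rintro ⟨q, hq⟩
      rw [hUF q.1 (Finset.notMem_empty _)] at hq
      exact hq
    refine teq_pat hH _ _ ?_ ?_
    · rintro (a | q)
      · rfl
      · exact (hno q).elim
    · rintro (a | q) (a' | q')
      · rfl
      · exact (hno q').elim
      · exact (hno q).elim
      · exact (hno q).elim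
  | succ n ih =>
    intro F hF U hU hUF
    have hsimv : ∀ s s', Sim N A e (v s) (v s') := fun s s' =>
      ⟨Equiv.refl κ, (hv s).2.trans (hv s').2.symm⟩
    obtain ⟨s₀, hs₀F, hlast⟩ := st1_last (fun s s' => Prec N A e (v s) (v s')) F
      (Finset.card_pos.1 (by omega))
      (fun s _ s' _ hne => c5 hW hH hA (hv s).1 (hv s').1 (hsimv s s') (dv s s' hne))
      (fun s _ s' _ s'' _ h1 h2 h3 g1 g2 => c6 hW hH hA (hv s).1 (hv s').1 (hv s'').1
        (hsimv s s') (hsimv s s'') (dv s s' h1) (dv s s'' h3) (dv s' s'' h2) g1 g2)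
    obtain ⟨U', hU'⟩ : ∃ U' : Fin p → Set κ, U' = Function.update U s₀ ∅ := ⟨_, rfl⟩
    have hU's : U' s₀ = ∅ := by
      rw [hU', Function.update_self]
    have hU'n : ∀ s, s ≠ s₀ → U' s = U s := by
      intro s hs
      rw [hU', Function.update_of_ne hs]
    have hκ := hm.nonempty hH
    have hrest := ih (F.erase s₀) (by rw [Finset.card_erase_of_mem hs₀F, hF]; rfl) U'
      (by
        intro s
        by_cases hs : s = s₀
        · rw [hs, hU's]
          exact (Set.empty_ne_univ)
        · rw [hU'n s hs]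
          exact hU s)
      (by
        intro s hs
        by_cases hs' : s = s₀
        · rw [hs', hU's]
        · rw [hU'n s hs']
          exact hUF s (fun h => hs (Finset.mem_erase.2 ⟨hs', h⟩)))
    -- `v s₀` can be moved behind
    have hpr := st1_prec hW hH hA S v hv dv Sv hS {s | s ∈ F ∧ s ≠ s₀} s₀ (fun h => h.2 rfl)
      (fun s hs => hlast s hs.1 hs.2)
    have hmem : ∀ q : {q : Fin p × κ // q.2 ∈ U' q.1}, q.1.1 ∈ F ∧ q.1.1 ≠ s₀ := by
      rintro ⟨⟨s, k⟩, hq⟩
      have h1 : s ≠ s₀ := by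
        intro h
        subst h
        have h2 : k ∈ U' s := hq
        rw [hU's] at h2
        exact h2
      refine ⟨?_, h1⟩
      by_contra h2
      have h3 : k ∈ U' s := hq
      rw [hU'n s h1, hUF s h2] at h3
      exact h3
    have hpr2 := c5_prec_map hH hpr
      (Sum.map id (fun q : {q : Fin p × κ // q.2 ∈ U' q.1} =>
        ((⟨q.1.1, hmem q⟩ : {s | s ∈ F ∧ s ≠ s₀}), q.1.2)) :
          S ⊕ {q : Fin p × κ // q.2 ∈ U' q.1} → S ⊕ ({s | s ∈ F ∧ s ≠ s₀} × κ))
      (fun k : U s₀ => (k : κ))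
    have e1 : (fun k => (Sum.elim (fun a : S => (a : ι))
        (fun q : {s | s ∈ F ∧ s ≠ s₀} × κ => v q.1 q.2)) ((Sum.map id
          (fun q : {q : Fin p × κ // q.2 ∈ U' q.1} =>
            ((⟨q.1.1, hmem q⟩ : {s | s ∈ F ∧ s ≠ s₀}), q.1.2)) :
              S ⊕ {q : Fin p × κ // q.2 ∈ U' q.1} → S ⊕ ({s | s ∈ F ∧ s ≠ s₀} × κ)) k)) =
        Sum.elim (fun a : S => (a : ι))
          (fun q : {q : Fin p × κ // q.2 ∈ U' q.1} => v q.1.1 q.1.2) := by
      funext k
      rcases k with k | k <;> rfl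
    rw [e1] at hpr2
    have hvU : Teq N A e (blk 1 (fun k : U s₀ => v s₀ k)) (blk (p + 1) (fun k : U s₀ => Tm k)) :=
      ((teq_blk hH 1 0 _).trans ((hv s₀).2.comp hH (fun k : U s₀ => (k : κ)))).trans
        (teq_blk hH 0 (p + 1) _)
    have hstep := (show Teq N A e _ _ from hpr2).trans (cp_back hH hrest hvU
      (by
        rintro k a
        exact Nat.zero_lt_one)
      (by
        rintro (k | q) a
        · exact Nat.succ_pos p
        · show 1 + (q.1.1 : ℕ) < p + 1
          have := q.1.1.2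
          omega))
    -- relabel
    have hm1 : ∀ q : {q : Fin p × κ // q.2 ∈ U q.1}, q.1.1 = s₀ → q.1.2 ∈ U s₀ := by
      rintro ⟨⟨s, k⟩, hq⟩ h
      have h' : s = s₀ := h
      subst h'
      exact hq
    have hm2 : ∀ q : {q : Fin p × κ // q.2 ∈ U q.1}, q.1.1 ≠ s₀ → q.1.2 ∈ U' q.1.1 := by
      intro q h
      rw [hU'n _ h]
      exact q.2
    obtain ⟨m, hmd⟩ : ∃ m : S ⊕ {q : Fin p × κ // q.2 ∈ U q.1} →
        (S ⊕ {q : Fin p × κ // q.2 ∈ U' q.1}) ⊕ U s₀, m = Sum.elim (fun a => Sum.inl (Sum.inl a))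
          (fun q => if h : q.1.1 = s₀ then Sum.inr ⟨q.1.2, hm1 q h⟩
            else Sum.inl (Sum.inr ⟨q.1, hm2 q h⟩)) := ⟨_, rfl⟩
    have hml : ∀ a, m (Sum.inl a) = Sum.inl (Sum.inl a) := by
      intro a
      rw [hmd]
      rfl
    have hmr1 : ∀ q, ∀ h : q.1.1 = s₀, m (Sum.inr q) = Sum.inr ⟨q.1.2, hm1 q h⟩ := by
      intro q h
      rw [hmd]
      simp only [Sum.elim_inr]
      rw [dif_pos h]
    have hmr2 : ∀ q, ∀ h : q.1.1 ≠ s₀, m (Sum.inr q) = Sum.inl (Sum.inr ⟨q.1, hm2 q h⟩) := by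
      intro q h
      rw [hmd]
      simp only [Sum.elim_inr]
      rw [dif_neg h]
    have hst2 := hstep.comp hH m
    obtain ⟨z, hz⟩ : ∃ z : S ⊕ {q : Fin p × κ // q.2 ∈ U q.1} → ℕ × ι,
        z = Sum.elim (blk 0 (fun a : S => (a : ι)))
          (fun q => (if q.1.1 = s₀ then p + 1 else 1 + (q.1.1 : ℕ), Tm q.1.2)) := ⟨_, rfl⟩
    have hzl : ∀ a : S, z (Sum.inl a) = (0, (a : ι)) := by
      intro a
      rw [hz]
      rfl
    have hzr1 : ∀ q, q.1.1 = s₀ → z (Sum.inr q) = (p + 1, Tm q.1.2) := by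
      intro q h
      rw [hz]
      show ((if q.1.1 = s₀ then p + 1 else 1 + (q.1.1 : ℕ)), Tm q.1.2) = _
      rw [if_pos h]
    have hzr2 : ∀ q, q.1.1 ≠ s₀ → z (Sum.inr q) = (1 + (q.1.1 : ℕ), Tm q.1.2) := by
      intro q h
      rw [hz]
      show ((if q.1.1 = s₀ then p + 1 else 1 + (q.1.1 : ℕ)), Tm q.1.2) = _
      rw [if_neg h]
    have e2 : (fun k => (Sum.elim (blk 0 (Sum.elim (fun a : S => (a : ι))
          (fun q : {q : Fin p × κ // q.2 ∈ U' q.1} => v q.1.1 q.1.2)))
        (blk 0 (fun k : U s₀ => v s₀ k))) (m k)) =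
        blk 0 (Sum.elim (fun a : S => (a : ι))
          (fun q : {q : Fin p × κ // q.2 ∈ U q.1} => v q.1.1 q.1.2)) := by
      funext k
      rcases k with a | q
      · rw [hml]
        rfl
      · by_cases h : q.1.1 = s₀
        · rw [hmr1 q h]
          show ((0, v s₀ q.1.2) : ℕ × ι) = (0, v q.1.1 q.1.2)
          rw [h]
        · rw [hmr2 q h]
          rfl
    have e3 : (fun k => (Sum.elim (Sum.elim (blk 0 (fun a : S => (a : ι)))
          (fun q : {q : Fin p × κ // q.2 ∈ U' q.1} => (1 + (q.1.1 : ℕ), Tm q.1.2)))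
        (blk (p + 1) (fun k : U s₀ => Tm k))) (m k)) = z := by
      funext k
      rcases k with a | q
      · rw [hml, hzl]
        rfl
      · by_cases h : q.1.1 = s₀
        · rw [hmr1 q h, hzr1 q h]
          rfl
        · rw [hmr2 q h, hzr2 q h]
          rfl
    rw [e2, e3] at hst2
    refine hst2.trans ?_
    -- bring the block `p + 1` to its place
    obtain ⟨ψ, hψ⟩ : ∃ ψ : ℕ → ℕ, ψ = fun i => if i = p + 1 then 1 + (s₀ : ℕ) else i := ⟨_, rfl⟩
    have hψ1 : ψ (p + 1) = 1 + (s₀ : ℕ) := by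
      rw [hψ]
      exact if_pos rfl
    have hψ2 : ∀ i, i ≤ p → ψ i = i := by
      intro i hi
      rw [hψ]
      exact if_neg (by omega)
    -- the possible blocks
    have hblk : ∀ k, (z k).1 = 0 ∨ (∃ q, k = Sum.inr q ∧ q.1.1 = s₀ ∧ (z k).1 = p + 1) ∨
        ∃ q, k = Sum.inr q ∧ q.1.1 ≠ s₀ ∧ (z k).1 = 1 + (q.1.1 : ℕ) ∧ 1 + (q.1.1 : ℕ) ≤ p := by
      rintro (a | q)
      · left
        rw [hzl]
      · right
        by_cases h : q.1.1 = s₀
        · left
          exact ⟨q, rfl, h, by rw [hzr1 q h]⟩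
        · right
          refine ⟨q, rfl, h, by rw [hzr2 q h], ?_⟩
          have := q.1.1.2
          omega
    have hfin := teq_perm hH z ψ
      (by
        intro k k' hne
        have hval : ∀ q : {q : Fin p × κ // q.2 ∈ U q.1}, q.1.1 ≠ s₀ → (q.1.1 : ℕ) ≠ (s₀ : ℕ) :=
          fun q h h' => h (Fin.ext h')
        rcases hblk k with h1 | ⟨q, -, -, h1⟩ | ⟨q, -, g1, h1, h2⟩ <;>
          rcases hblk k' with h1' | ⟨q', -, -, h1'⟩ | ⟨q', -, g1', h1', h2'⟩ <;>
          rw [h1, h1'] at hne ⊢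
        · exact absurd rfl hne
        · rw [hψ1, hψ2 0 (Nat.zero_le p)]
          omega
        · rw [hψ2 0 (Nat.zero_le p), hψ2 _ h2']
          omega
        · rw [hψ1, hψ2 0 (Nat.zero_le p)]
          omega
        · exact absurd rfl hne
        · rw [hψ1, hψ2 _ h2']
          have := hval q' g1'
          omega
        · rw [hψ2 0 (Nat.zero_le p), hψ2 _ h2]
          omega
        · rw [hψ1, hψ2 _ h2]
          have := hval q g1
          omega
        · rw [hψ2 _ h2, hψ2 _ h2']
          exact hne)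
      (by
        rintro i j hij ⟨k, hk⟩ ⟨k', hk'⟩ hji
        have hj : j = p + 1 := by
          by_contra hcon
          rcases hblk k' with h1 | ⟨q, -, -, h1⟩ | ⟨q, -, -, h1, h2⟩
          · omega
          · omega
          · rw [hψ2 j (by omega), hψ2 i (by omega)] at hji
            omega
        have hi : ∃ s₁ : Fin p, s₁ ≠ s₀ ∧ i = 1 + (s₁ : ℕ) := by
          rcases hblk k with h1 | ⟨q, -, -, h1⟩ | ⟨q, -, g1, h1, h2⟩
          · rw [hk] at h1
            rw [h1, hψ2 0 (Nat.zero_le p)] at hji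
            omega
          · omega
          · exact ⟨q.1.1, g1, by omega⟩
        obtain ⟨s₁, hs₁, hi⟩ := hi
        have hpp := hm.min (U s₁) (U s₀) (Or.inl (hU s₁))
        have hl : ∀ k : {k | (z k).1 = i}, ∃ c : U s₁, (z k).2 = Tm c := by
          rintro ⟨k, hk⟩
          have hk' : (z k).1 = i := hk
          rcases hblk k with h1 | ⟨q, -, -, h1⟩ | ⟨q, hq, g1, h1, h2⟩
          · omega
          · have := s₁.2
            omega
          · have h3 : q.1.1 = s₁ := Fin.ext (by omega)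
            have h4 : q.1.2 ∈ U s₁ := by
              rw [← h3]
              exact q.2
            refine ⟨⟨q.1.2, h4⟩, ?_⟩
            show (z k).2 = Tm q.1.2
            rw [hq, hzr2 q g1]
        have hr : ∀ k : {k | (z k).1 = j}, ∃ c : U s₀, (z k).2 = Tm c := by
          rintro ⟨k, hk⟩
          have hk' : (z k).1 = j := hk
          rcases hblk k with h1 | ⟨q, hq, g1, h1⟩ | ⟨q, -, -, h1, h2⟩
          · omega
          · refine ⟨⟨q.1.2, hm1 q g1⟩, ?_⟩
            show (z k).2 = Tm q.1.2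
            rw [hq, hzr1 q g1]
          · omega
        choose ρ hρ using hl
        choose ρ' hρ' using hr
        have h5 := hpp.comp hH ρ ρ'
        have e5 : (fun k : {k | (z k).1 = i} => res (U s₁) Tm (ρ k)) =
            fun k : {k | (z k).1 = i} => (z k).2 := funext fun k => (hρ k).symm
        have e6 : (fun k : {k | (z k).1 = j} => res (U s₀) Tm (ρ' k)) =
            fun k : {k | (z k).1 = j} => (z k).2 := funext fun k => (hρ' k).symm
        rw [e5, e6] at h5
        exact h5)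
    have e4 : (fun k => (ψ (z k).1, (z k).2)) = Sum.elim (blk 0 (fun a : S => (a : ι)))
        (fun q : {q : Fin p × κ // q.2 ∈ U q.1} => (1 + (q.1.1 : ℕ), Tm q.1.2)) := by
      funext k
      rcases k with a | q
      · rw [hzl]
        show (ψ 0, (a : ι)) = ((0, (a : ι)) : ℕ × ι)
        rw [hψ2 0 (Nat.zero_le p)]
      · by_cases h : q.1.1 = s₀
        · rw [hzr1 q h]
          show (ψ (p + 1), Tm q.1.2) = ((1 + (q.1.1 : ℕ), Tm q.1.2) : ℕ × ι)
          rw [hψ1, h]
        · rw [hzr2 q h]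
          show (ψ (1 + (q.1.1 : ℕ)), Tm q.1.2) = ((1 + (q.1.1 : ℕ), Tm q.1.2) : ℕ × ι)
          rw [hψ2 _ (by have := q.1.1.2; omega)]
    rw [e4] at hfin
    exact hfin

/-- REST, static. The letters of `S` contain no atom of the type of `Tm`; the `v s` are pairwise
disjoint atoms of this type, disjoint from `S`; `U s` are proper sets of labels. Then the
configuration `S` and `v s k`, `k ∈ U s`, in one block has the type of the configuration with `S` in
the block `0` and the letters `Tm k`, `k ∈ U s`, in the block `1 + s`. PROOF. Sort the `v s` by `Prec`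
(`c5`, `c6`): the full configuration (`S`, all `v s k`) in one block has the type of the one with `S`
in the block `0` and `Tm` in the block `1 + rank s` by `flat` (atoms of both: the atoms in `S`, and
the `{s} × κ`; the atoms in `S` are not similar to `Tm`; the rest is in `S`). Restrict to the used
labels (`Teq.comp`). Then `teq_perm` brings the blocks `1 + rank s` to `1 + s`: proper subtuples of
`Tm` commute (`CA.min`). -/
theorem rest_static (hW : ¬ Wild N univ) (hH : Hom N A e) (hA : A.Finite) [Finite ι] [Finite κ]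
    {p : ℕ} {Tm : κ → ι} (hm : CA N A e Tm) (S : Set ι) (v : Fin p → κ → ι)
    (hv : ∀ s, CA N A e (v s) ∧ Teq N A e (blk 0 (v s)) (blk 0 Tm))
    (dv : ∀ s s', s ≠ s' → Disjoint (range (v s)) (range (v s')))
    (Sv : ∀ s, Disjoint S (range (v s))) (U : Fin p → Set κ) (hU : ∀ s, U s ≠ univ)
    (hS : ∀ y : κ → ι, CA N A e y → Teq N A e (blk 0 y) (blk 0 Tm) → ¬ ∀ k, y k ∈ S) :
    Teq N A e
      (blk 0 (Sum.elim (fun a : S => (a : ι))
        (fun q : {q : Fin p × κ // q.2 ∈ U q.1} => v q.1.1 q.1.2)))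
      (Sum.elim (blk 0 (fun a : S => (a : ι)))
        (fun q : {q : Fin p × κ // q.2 ∈ U q.1} => (1 + (q.1.1 : ℕ), Tm q.1.2))) :=
  st1_main hW hH hA hm S v hv dv Sv hS _ Finset.univ rfl U hU
    (fun s hs => absurd (Finset.mem_univ s) hs)

end Pool.H17.TB
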