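import Pool.Agent.H17.TB.St1

/-!
# Exchange of atoms inside a block, continued
-/

set_option autoImplicit false

namespace Pool.H17.TB

open Pool.H22.VC Function Set Pool.H17.TA

variable {r : ℕ} {K ι κ κ' : Type} {N : Col r K ℕ} {A : Set ℕ} {e : ℕ → ι → ℕ}

/-- the configuration -/
private def cf {p : ℕ} (S : Set ι) (U : Fin p → Set κ) (v : Fin p → κ → ι) :
    (S ⊕ {q : Fin p × κ // q.2 ∈ U q.1}) → ι :=
  Sum.elim (fun a : S => (a : ι)) (fun q : {q : Fin p × κ // q.2 ∈ U q.1} => v q.1.1 q.1.2)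

/-- the labels of `v s` -/
private def fl {p : ℕ} (S : Set ι) (U : Fin p → Set κ) (s : Fin p) :
    Set (S ⊕ {q : Fin p × κ // q.2 ∈ U q.1}) :=
  {x | ∃ q : {q : Fin p × κ // q.2 ∈ U q.1}, x = Sum.inr q ∧ q.1.1 = s}

private theorem fl_eq {p : ℕ} (S : Set ι) (U : Fin p → Set κ) (s : Fin p) (hU : U s = univ) :
    ∃ σ : κ ≃ fl S U s, ∀ (k : κ) (v : Fin p → κ → ι), cf S U v (σ k) = v s k := by
  have hm : ∀ k : κ, ((s, k) : Fin p × κ).2 ∈ U ((s, k) : Fin p × κ).1 := by
    intro k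
    show k ∈ U s
    rw [hU]
    exact mem_univ k
  obtain ⟨g, hg⟩ : ∃ g : κ → fl S U s, ∀ k, (g k : S ⊕ {q : Fin p × κ // q.2 ∈ U q.1}) =
      Sum.inr ⟨(s, k), hm k⟩ := ⟨fun k => ⟨Sum.inr ⟨(s, k), hm k⟩, ⟨_, rfl, rfl⟩⟩, fun k => rfl⟩
  have hb : Function.Bijective g := by
    constructor
    · intro k k' h
      have h1 := congrArg Subtype.val h
      rw [hg, hg] at h1
      have h2 := Sum.inr_injective h1
      have h3 := congrArg Subtype.val h2
      exact (Prod.mk.inj h3).2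
    · rintro ⟨x, q, rfl, hq⟩
      refine ⟨q.1.2, Subtype.ext ?_⟩
      rw [hg]
      exact congrArg Sum.inr (Subtype.ext (Prod.ext hq.symm rfl))
  refine ⟨Equiv.ofBijective g hb, fun k v => ?_⟩
  rw [Equiv.ofBijective_apply, hg]
  rfl

private theorem cf_inj {p : ℕ} (S : Set ι) (U : Fin p → Set κ) (v : Fin p → κ → ι)
    (hi : ∀ s, Injective (v s)) (dv : ∀ s s', s ≠ s' → Disjoint (range (v s)) (range (v s')))
    (Sv : ∀ s, Disjoint S (range (v s))) : Injective (blk 0 (cf S U v)) := by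
  intro x y h
  have h1 : cf S U v x = cf S U v y := congrArg Prod.snd h
  rcases x with a | q <;> rcases y with b | q'
  · exact congrArg Sum.inl (Subtype.ext h1)
  · exact absurd ⟨_, h1.symm⟩ (Set.disjoint_left.1 (Sv q'.1.1) a.2)
  · exact absurd ⟨_, h1⟩ (Set.disjoint_left.1 (Sv q.1.1) b.2)
  · have h2 : v q.1.1 q.1.2 = v q'.1.1 q'.1.2 := h1
    have h3 : q.1.1 = q'.1.1 := by
      by_contra hne
      exact Set.disjoint_left.1 (dv _ _ hne) ⟨_, rfl⟩ ⟨_, h2.symm⟩
    have h4 : q.1.2 = q'.1.2 := by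
      rw [h3] at h2
      exact hi _ h2
    exact congrArg Sum.inr (Subtype.ext (Prod.ext h3 h4))

/-- the atoms of the configuration -/
private theorem cf_at (hW : ¬ Wild N univ) (hH : Hom N A e) (hA : A.Finite) [Finite ι] [Finite κ]
    {p : ℕ} (S : Set ι) (U : Fin p → Set κ) (v : Fin p → κ → ι) (hv : ∀ s, CA N A e (v s))
    (dv : ∀ s s', s ≠ s' → Disjoint (range (v s)) (range (v s')))
    (Sv : ∀ s, Disjoint S (range (v s)))
    (L : Set (S ⊕ {q : Fin p × κ // q.2 ∈ U q.1})) (hL : IsAt N A e (blk 0 (cf S U v)) L) :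
    (∀ x ∈ L, ∃ a : S, x = Sum.inl a) ∨ ∃ s, U s = univ ∧ L = fl S U s := by
  have hinj := cf_inj S U v (fun s => (hv s).inj) dv Sv
  obtain ⟨i, hi, hca, hne⟩ := hL.ca hH hinj
  by_cases h : ∀ x ∈ L, ∃ a : S, x = Sum.inl a
  · exact Or.inl h
  right
  push Not at h
  obtain ⟨x, hx, hx'⟩ := h
  rcases x with a | q
  · exact absurd rfl (hx' a)
  have hr : range (fun k : L => ((blk 0 (cf S U v)) k).2) = range (v q.1.1) :=
    c3 hW hH hA hca (hv q.1.1) ⟨v q.1.1 q.1.2, ⟨⟨Sum.inr q, hx⟩, rfl⟩, ⟨q.1.2, rfl⟩⟩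
  have hLs : ∀ y ∈ L, ∃ q' : {q : Fin p × κ // q.2 ∈ U q.1}, y = Sum.inr q' ∧
      q'.1.1 = q.1.1 := by
    intro y hy
    have h1 : cf S U v y ∈ range (v q.1.1) := by
      rw [← hr]
      exact ⟨⟨y, hy⟩, rfl⟩
    rcases y with a | q'
    · exact absurd h1 (Set.disjoint_left.1 (Sv q.1.1) a.2)
    · refine ⟨q', rfl, ?_⟩
      by_contra hne
      exact Set.disjoint_left.1 (dv _ _ hne) ⟨_, rfl⟩ h1
  have hall : ∀ k : κ, ∃ q' : {q : Fin p × κ // q.2 ∈ U q.1}, Sum.inr q' ∈ L ∧
      q'.1 = (q.1.1, k) := by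
    intro k
    have h1 : v q.1.1 k ∈ range (fun k : L => ((blk 0 (cf S U v)) k).2) := by
      rw [hr]
      exact ⟨k, rfl⟩
    obtain ⟨⟨y, hy⟩, h2⟩ := h1
    obtain ⟨q', rfl, h3⟩ := hLs y hy
    refine ⟨q', hy, ?_⟩
    have h4 : v q'.1.1 q'.1.2 = v q.1.1 k := h2
    rw [h3] at h4
    exact Prod.ext h3 ((hv q.1.1).inj h4)
  refine ⟨q.1.1, ?_, ?_⟩
  · rw [eq_univ_iff_forall]
    intro k
    obtain ⟨q', -, h1⟩ := hall k
    have h2 := q'.2
    rw [h1] at h2
    exact h2
  · ext y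
    constructor
    · exact fun hy => hLs y hy
    · rintro ⟨q', rfl, h1⟩
      obtain ⟨q'', h2, h3⟩ := hall q'.1.2
      have h4 : q'' = q' := by
        refine Subtype.ext (h3.trans ?_)
        exact Prod.ext h1.symm rfl
      rw [← h4]
      exact h2

private theorem cf_full (hH : Hom N A e) [Finite ι] [Finite κ] {p : ℕ} (S : Set ι)
    (U : Fin p → Set κ) (v : Fin p → κ → ι) (s : Fin p) (hv : CA N A e (v s))
    (hU : U s = univ) : IsAt N A e (blk 0 (cf S U v)) (fl S U s) := by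
  obtain ⟨σ, hσ⟩ := fl_eq S U s hU
  refine isAt_of_ca hH (i := 0) (fun _ _ => rfl) ?_
  have h1 := hv.equiv hH σ.symm
  have h2 : (fun k : fl S U s => ((blk 0 (cf S U v)) k).2) = fun k => v s (σ.symm k) := by
    funext k
    show cf S U v k = v s (σ.symm k)
    rw [← hσ (σ.symm k) v, Equiv.apply_symm_apply]
  rw [h2]
  exact h1

private theorem cf_res {p : ℕ} (S : Set ι) (U : Fin p → Set κ) (v w : Fin p → κ → ι)
    (L : Set (S ⊕ {q : Fin p × κ // q.2 ∈ U q.1})) (hL : ∀ x ∈ L, ∃ a : S, x = Sum.inl a) :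
    res L (blk 0 (cf S U v)) = res L (blk 0 (cf S U w)) := by
  funext x
  obtain ⟨a, ha⟩ := hL x x.2
  show (0, cf S U v x) = ((0, cf S U w x) : ℕ × ι)
  rw [ha]
  rfl

private theorem prec_asymm (hH : Hom N A e) [Finite κ] [Finite κ'] {y : κ → ι} {x : κ' → ι}
    (hy : CA N A e y) (hs : Sim N A e y x) (h : Prec N A e y x) : ¬ Prec N A e x y := by
  intro h'
  exact Bef.asymm hH (hy.not_perp hH hs) (Teq.refl hH (blk 0 y)) (Teq.refl hH (blk 0 x))
    ((bef_blk_iff hH 0 y x).2 h) ((bef_blk_iff hH 0 x y).2 h')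

/-- an atom in `S` has the same position to all atoms between `Tm` and `Tp` -/
private theorem pos_same (hW : ¬ Wild N univ) (hH : Hom N A e) (hA : A.Finite) [Finite ι]
    [Finite κ] {Tm Tp : κ → ι} (hm : CA N A e Tm) (hp : CA N A e Tp)
    (hmp : Teq N A e (blk 0 Tp) (blk 0 Tm)) (S : Set ι) {v w : κ → ι}
    (hv : Btw N A e Tm Tp v) (hw : Btw N A e Tm Tp w)
    (Sv : Disjoint S (range v)) (Sw : Disjoint S (range w)) {y : κ → ι} (hy : CA N A e y)
    (hyT : Teq N A e (blk 0 y) (blk 0 Tm)) (hyS : ∀ k, y k ∈ S)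
    (hS : Prec N A e y Tm ∨ range y = range Tm ∨ range y = range Tp ∨ Prec N A e Tp y) :
    (Prec N A e y v → Prec N A e y w) ∧ (Prec N A e v y → Prec N A e w y) := by
  have sim : ∀ {a b : κ → ι}, Teq N A e (blk 0 a) (blk 0 Tm) → Teq N A e (blk 0 b) (blk 0 Tm) →
      Sim N A e a b := fun ha hb => ⟨Equiv.refl κ, ha.trans hb.symm⟩
  have rm := Teq.refl hH (blk 0 Tm : κ → ℕ × ι)
  have dis : ∀ {x : κ → ι}, Disjoint S (range x) → Disjoint (range y) (range x) := by
    intro x hx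
    rw [Set.disjoint_left]
    rintro _ ⟨k, rfl⟩
    exact Set.disjoint_left.1 hx (hyS k)
  have lab : ∀ {T : κ → ι}, range y = range T → ∃ ρ : κ → κ, ∀ k, T (ρ k) = y k := by
    intro T hT
    have h1 : ∀ k, ∃ k', T k' = y k := by
      intro k
      have h2 : y k ∈ range T := by
        rw [← hT]
        exact ⟨k, rfl⟩
      exact h2
    choose ρ hρ using h1
    exact ⟨ρ, hρ⟩
  have before : ∀ {x : κ → ι}, Btw N A e Tm Tp x → Disjoint S (range x) →
      (Prec N A e y Tm ∨ range y = range Tm) → Prec N A e y x := by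
    intro x hx Sx h
    rcases h with h | h
    · exact c6 hW hH hA hy hm hx.ca (sim hyT rm) (sim hyT hx.teq)
        (Prec.disjoint hW hH hA hy hm (sim hyT rm) h) (dis Sx)
        (Prec.disjoint hW hH hA hm hx.ca (sim rm hx.teq) hx.lo) h hx.lo
    · obtain ⟨ρ, hρ⟩ := lab h
      have h1 := c5_prec_map hH hx.lo ρ (id : κ → κ)
      have h2 : (fun k => Tm (ρ k)) = y := funext hρ
      rw [h2] at h1
      exact h1
  have behind : ∀ {x : κ → ι}, Btw N A e Tm Tp x → Disjoint S (range x) →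
      (range y = range Tp ∨ Prec N A e Tp y) → Prec N A e x y := by
    intro x hx Sx h
    rcases h with h | h
    · obtain ⟨ρ, hρ⟩ := lab h
      have h1 := c5_prec_map hH hx.hi (id : κ → κ) ρ
      have h2 : (fun k => Tp (ρ k)) = y := funext hρ
      rw [h2] at h1
      exact h1
    · exact c6 hW hH hA hx.ca hp hy (sim hx.teq hmp) (sim hx.teq hyT)
        (Prec.disjoint hW hH hA hx.ca hp (sim hx.teq hmp) hx.hi) (dis Sx).symm
        (Prec.disjoint hW hH hA hp hy (sim hmp hyT) h) hx.hi h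
  have hS' : (Prec N A e y Tm ∨ range y = range Tm) ∨ (range y = range Tp ∨ Prec N A e Tp y) := by
    tauto
  rcases hS' with h | h
  · refine ⟨fun _ => before hw Sw h, fun h1 => ?_⟩
    exact absurd h1 (prec_asymm hH hy (sim hyT hv.teq) (before hv Sv h))
  · refine ⟨fun h1 => ?_, fun _ => behind hw Sw h⟩
    exact absurd (behind hv Sv h) (prec_asymm hH hy (sim hyT hv.teq) h1)

/-- the same for tuples with other labels -/
private theorem pos_same' (hW : ¬ Wild N univ) (hH : Hom N A e) (hA : A.Finite) [Finite ι]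
    [Finite κ] [Finite κ'] {Tm Tp : κ → ι} (hm : CA N A e Tm) (hp : CA N A e Tp)
    (hmp : Teq N A e (blk 0 Tp) (blk 0 Tm)) (S : Set ι) {v w : κ → ι}
    (hv : Btw N A e Tm Tp v) (hw : Btw N A e Tm Tp w)
    (Sv : Disjoint S (range v)) (Sw : Disjoint S (range w)) {y : κ' → ι} (hy : CA N A e y)
    (hys : Sim N A e y v) (hyS : ∀ k, y k ∈ S)
    (hS : ∀ y : κ → ι, CA N A e y → Teq N A e (blk 0 y) (blk 0 Tm) → (∀ k, y k ∈ S) →
      Prec N A e y Tm ∨ range y = range Tm ∨ range y = range Tp ∨ Prec N A e Tp y) :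
    (Prec N A e y v → Prec N A e y w) ∧ (Prec N A e v y → Prec N A e w y) := by
  obtain ⟨σ, hσ⟩ := hys
  have h1 := hy.equiv hH σ.symm
  have h2 : Teq N A e (blk 0 (fun k => y (σ.symm k))) (blk 0 Tm) := by
    have h3 := hσ.comp hH σ.symm
    have h4 : (fun k => (blk 0 (fun k => v (σ k)) : κ' → ℕ × ι) (σ.symm k)) = blk 0 v := by
      funext k
      show (0, v (σ (σ.symm k))) = ((0, v k) : ℕ × ι)
      rw [Equiv.apply_symm_apply]
    rw [h4] at h3
    exact h3.trans hv.teq
  have h3 := pos_same hW hH hA hm hp hmp S hv hw Sv Sw h1 h2 (fun k => hyS _)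
    (hS _ h1 h2 fun k => hyS _)
  have h4 : (fun k => (fun k => y (σ.symm k)) (σ k)) = y := by
    funext k
    show y (σ.symm (σ k)) = y k
    rw [Equiv.symm_apply_apply]
  refine ⟨fun h => ?_, fun h => ?_⟩
  · have h5 := c5_prec_map hH (h3.1 (c5_prec_map hH h σ.symm (id : κ → κ))) σ (id : κ → κ)
    rw [h4] at h5
    exact h5
  · have h5 := c5_prec_map hH (h3.2 (c5_prec_map hH h (id : κ → κ) σ.symm)) (id : κ → κ) σ
    rw [h4] at h5
    exact h5

/-- EXCHANGE, static. `v s` and `w s` are atoms of the type of `Tm` between `Tm` and `Tp`, the used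
labels are `U s`; the order of the full ones is the same for `v` and `w`; all atoms of this type in
`S` are before or equal to `Tm`, or equal to or behind `Tp`. PROOF. `flat` for the two configurations
(`S`, `v s k`) and (`S`, `w s k`), `k ∈ U s`, in one block. Atoms of both: the atoms inside `S` (`c3`:
an atom meeting `range (v s)` is equal to it) and the `{s} × κ` for the full `s` (`U s = univ`).
Types: `Btw.teq`. Order: two atoms in `S`: the same letters; two full `s`, `s'`: `hord` and `c5`; an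
atom `y` in `S` similar to `Tm` (relabel it: same type as `Tm`) and a full `s`: by `hS` it is before
all atoms between `Tm` and `Tp` or behind all of them (`c6`, `Prec.disjoint`). The rest: the letters
of `S` outside all atoms and the partial `v s`, `w s`: `rest_static` for both. -/
theorem inv_static (hW : ¬ Wild N univ) (hH : Hom N A e) (hA : A.Finite) [Finite ι] [Finite κ]
    {p : ℕ} {Tm Tp : κ → ι} (hm : CA N A e Tm) (hp : CA N A e Tp)
    (hmp : Teq N A e (blk 0 Tp) (blk 0 Tm)) (S : Set ι) (v w : Fin p → κ → ι)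
    (hv : ∀ s, Btw N A e Tm Tp (v s)) (hw : ∀ s, Btw N A e Tm Tp (w s))
    (dv : ∀ s s', s ≠ s' → Disjoint (range (v s)) (range (v s')))
    (dw : ∀ s s', s ≠ s' → Disjoint (range (w s)) (range (w s')))
    (Sv : ∀ s, Disjoint S (range (v s))) (Sw : ∀ s, Disjoint S (range (w s)))
    (U : Fin p → Set κ)
    (hord : ∀ s s', U s = univ → U s' = univ → s ≠ s' → Prec N A e (v s) (v s') →
      Prec N A e (w s) (w s'))
    (hS : ∀ y : κ → ι, CA N A e y → Teq N A e (blk 0 y) (blk 0 Tm) → (∀ k, y k ∈ S) →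
      Prec N A e y Tm ∨ range y = range Tm ∨ range y = range Tp ∨ Prec N A e Tp y) :
    Teq N A e
      (blk 0 (Sum.elim (fun a : S => (a : ι))
        (fun q : {q : Fin p × κ // q.2 ∈ U q.1} => v q.1.1 q.1.2)))
      (blk 0 (Sum.elim (fun a : S => (a : ι))
        (fun q : {q : Fin p × κ // q.2 ∈ U q.1} => w q.1.1 q.1.2))) := by
  classical
  change Teq N A e (blk 0 (cf S U v)) (blk 0 (cf S U w))
  have iv := cf_inj S U v (fun s => (hv s).ca.inj) dv Sv
  have iw := cf_inj S U w (fun s => (hw s).ca.inj) dw Sw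
  have av := cf_at hW hH hA S U v (fun s => (hv s).ca) dv Sv
  have aw := cf_at hW hH hA S U w (fun s => (hw s).ca) dw Sw
  have hκ := hm.nonempty hH
  -- the restriction to the labels of a full atom
  have hfl : ∀ s, U s = univ → ∃ σ : κ ≃ fl S U s, ∀ x : Fin p → κ → ι,
      res (fl S U s) (blk 0 (cf S U x)) = blk 0 (fun k => x s (σ.symm k)) := by
    intro s hs
    obtain ⟨σ, hσ⟩ := fl_eq S U s hs
    refine ⟨σ, fun x => ?_⟩
    funext k
    show (0, cf S U x k) = ((0, x s (σ.symm k)) : ℕ × ι)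
    rw [← hσ (σ.symm k) x, Equiv.apply_symm_apply]
  have at_vw : ∀ (x y : Fin p → κ → ι), (∀ s, CA N A e (y s)) →
      (∀ L, IsAt N A e (blk 0 (cf S U x)) L →
        (∀ x ∈ L, ∃ a : S, x = Sum.inl a) ∨ ∃ s, U s = univ ∧ L = fl S U s) →
      ∀ L, IsAt N A e (blk 0 (cf S U x)) L → IsAt N A e (blk 0 (cf S U y)) L := by
    intro x y hy ax L hL
    rcases ax L hL with h | ⟨s, hs, rfl⟩
    · obtain ⟨τ, h1, h2⟩ := hL
      refine ⟨τ, h1, ?_⟩
      rw [cf_res S U y x L h]
      exact h2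
    · exact cf_full hH S U y s (hy s) hs
  refine flat hW hH hA iv iw (fun L => ⟨at_vw v w (fun s => (hw s).ca) av L,
    at_vw w v (fun s => (hv s).ca) aw L⟩) ?_ ?_ ?_
  · intro L hL
    rcases av L hL with h | ⟨s, hs, rfl⟩
    · rw [cf_res S U v w L h]
      exact Teq.refl hH _
    · obtain ⟨σ, hσ⟩ := hfl s hs
      rw [hσ, hσ]
      exact ((hv s).teq.trans (hw s).teq.symm).comp hH σ.symm
  · intro L L' hL hL' hne hsim hbef
    rcases av L hL with h | ⟨s, hs, rfl⟩ <;> rcases av L' hL' with h' | ⟨s', hs', rfl⟩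
    · rw [cf_res S U w v L h, cf_res S U w v L' h']
      exact hbef
    · obtain ⟨σ, hσ⟩ := hfl s' hs'
      obtain ⟨-, -, hca, -⟩ := hL.ca hH iv
      rw [cf_res S U w v L h, hσ]
      rw [hσ] at hbef
      have hb : Prec N A e (fun k : L => cf S U v k) (fun k => v s' (σ.symm k)) :=
        (bef_blk_iff hH 0 _ _).1 hbef
      have e1 : (fun k => (fun k => v s' (σ.symm k)) (σ k)) = v s' := by
        funext k
        show v s' (σ.symm (σ k)) = v s' k
        rw [Equiv.symm_apply_apply]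
      have hb' := c5_prec_map hH hb (id : L → L) σ
      rw [e1] at hb'
      have hsm : Sim N A e (fun k : L => cf S U v k) (v s') := by
        have h1 : lt' (blk 0 (cf S U v)) (fl S U s') = fun k => v s' (σ.symm k) := by
          have h2 := hσ v
          funext k
          exact congrArg Prod.snd (congrFun h2 k)
        rw [h1] at hsim
        exact hsim.trans hH ⟨σ.symm, Teq.refl hH _⟩
      have h2 := (pos_same' hW hH hA hm hp hmp S (hv s') (hw s') (Sv s') (Sw s') hca hsm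
        (fun k => by
          obtain ⟨a, ha⟩ := h k k.2
          show cf S U v k ∈ S
          rw [ha]
          exact a.2) hS).1 hb'
      exact (bef_blk_iff hH 0 _ _).2 (c5_prec_map hH h2 (id : L → L) σ.symm)
    · obtain ⟨σ, hσ⟩ := hfl s hs
      obtain ⟨-, -, hca, -⟩ := hL'.ca hH iv
      rw [cf_res S U w v L' h', hσ]
      rw [hσ] at hbef
      have hb : Prec N A e (fun k => v s (σ.symm k)) (fun k : L' => cf S U v k) :=
        (bef_blk_iff hH 0 _ _).1 hbef
      have e1 : (fun k => (fun k => v s (σ.symm k)) (σ k)) = v s := by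
        funext k
        show v s (σ.symm (σ k)) = v s k
        rw [Equiv.symm_apply_apply]
      have hb' := c5_prec_map hH hb σ (id : L' → L')
      rw [e1] at hb'
      have hsm : Sim N A e (fun k : L' => cf S U v k) (v s) := by
        have h1 : lt' (blk 0 (cf S U v)) (fl S U s) = fun k => v s (σ.symm k) := by
          have h2 := hσ v
          funext k
          exact congrArg Prod.snd (congrFun h2 k)
        rw [h1] at hsim
        exact (hsim.symm hH).trans hH ⟨σ.symm, Teq.refl hH _⟩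
      have h2 := (pos_same' hW hH hA hm hp hmp S (hv s) (hw s) (Sv s) (Sw s) hca hsm
        (fun k => by
          obtain ⟨a, ha⟩ := h' k k.2
          show cf S U v k ∈ S
          rw [ha]
          exact a.2) hS).2 hb'
      exact (bef_blk_iff hH 0 _ _).2 (c5_prec_map hH h2 σ.symm (id : L' → L'))
    · obtain ⟨σ, hσ⟩ := hfl s hs
      obtain ⟨σ', hσ'⟩ := hfl s' hs'
      have hss : s ≠ s' := fun h => hne (by rw [h])
      rw [hσ, hσ'] at hbef ⊢
      have hb := (bef_blk_iff hH 0 _ _).1 hbef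
      have hb' := c5_prec_map hH hb σ σ'
      have e1 : (fun k => (fun k => v s (σ.symm k)) (σ k)) = v s := by
        funext k
        show v s (σ.symm (σ k)) = v s k
        rw [Equiv.symm_apply_apply]
      have e2 : (fun k => (fun k => v s' (σ'.symm k)) (σ' k)) = v s' := by
        funext k
        show v s' (σ'.symm (σ' k)) = v s' k
        rw [Equiv.symm_apply_apply]
      rw [e1, e2] at hb'
      exact (bef_blk_iff hH 0 _ _).2
        (c5_prec_map hH (hord s s' hs hs' hss hb') σ.symm σ'.symm)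
  · obtain ⟨R, hR⟩ : ∃ R : Set (S ⊕ {q : Fin p × κ // q.2 ∈ U q.1}),
        R = {k | ∀ L, IsAt N A e (blk 0 (cf S U v)) L → k ∉ L} := ⟨_, rfl⟩
    rw [← hR]
    obtain ⟨S', hS'⟩ : ∃ S' : Set ι, ∀ a, a ∈ S' ↔ ∃ h : a ∈ S,
        (Sum.inl ⟨a, h⟩ : S ⊕ {q : Fin p × κ // q.2 ∈ U q.1}) ∈ R := ⟨{a | _}, fun a => Iff.rfl⟩
    obtain ⟨U', hU'⟩ : ∃ U' : Fin p → Set κ, ∀ s k, k ∈ U' s ↔ k ∈ U s ∧ U s ≠ univ :=
      ⟨fun s => {k | k ∈ U s ∧ U s ≠ univ}, fun s k => Iff.rfl⟩
    have hne' : ∀ s, U' s ≠ univ := by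
      intro s h
      obtain ⟨k⟩ := hκ
      have h1 : k ∈ U' s := by
        rw [h]
        exact mem_univ k
      apply ((hU' s k).1 h1).2
      rw [eq_univ_iff_forall]
      intro k'
      have h2 : k' ∈ U' s := by
        rw [h]
        exact mem_univ k'
      exact ((hU' s k').1 h2).1
    have hno : ∀ y : κ → ι, CA N A e y → Teq N A e (blk 0 y) (blk 0 Tm) → ¬ ∀ k, y k ∈ S' := by
      intro y hy _ hyS
      have h1 : ∀ k, y k ∈ S := fun k => ((hS' _).1 (hyS k)).1
      obtain ⟨L, hL⟩ : ∃ L : Set (S ⊕ {q : Fin p × κ // q.2 ∈ U q.1}),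
          L = range fun k => Sum.inl ⟨y k, h1 k⟩ := ⟨_, rfl⟩
      have hinj : Injective (fun k => (Sum.inl ⟨y k, h1 k⟩ :
          S ⊕ {q : Fin p × κ // q.2 ∈ U q.1})) := by
        intro k k' h
        exact hy.inj (congrArg Subtype.val (Sum.inl_injective h))
      have hLat : IsAt N A e (blk 0 (cf S U v)) L := by
        rw [hL]
        refine isAt_of_ca hH (i := 0) (fun _ _ => rfl) ?_
        have h2 := hy.equiv hH (Equiv.ofInjective _ hinj).symm
        have h3 : (fun k : range (fun k => (Sum.inl ⟨y k, h1 k⟩ :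
            S ⊕ {q : Fin p × κ // q.2 ∈ U q.1})) => ((blk 0 (cf S U v)) k).2) =
            fun k => y ((Equiv.ofInjective _ hinj).symm k) := by
          funext x
          obtain ⟨k, rfl⟩ := (Equiv.ofInjective _ hinj).surjective x
          rw [Equiv.symm_apply_apply]
          rfl
        rw [h3]
        exact h2
      obtain ⟨k⟩ := hκ
      obtain ⟨h4, h5⟩ := (hS' _).1 (hyS k)
      rw [hR] at h5
      apply h5 L hLat
      rw [hL]
      exact ⟨k, rfl⟩
    have hdis : ∀ x : κ → ι, Disjoint S (range x) → Disjoint S' (range x) := by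
      intro x hx
      rw [Set.disjoint_left] at hx ⊢
      exact fun a ha => hx ((hS' a).1 ha).1
    have r1 := rest_static hW hH hA hm S' v (fun s => ⟨(hv s).ca, (hv s).teq⟩) dv
      (fun s => hdis _ (Sv s)) U' hne' hno
    have r2 := rest_static hW hH hA hm S' w (fun s => ⟨(hw s).ca, (hw s).teq⟩) dw
      (fun s => hdis _ (Sw s)) U' hne' hno
    have r3 : Teq N A e (blk 0 (cf S' U' v)) (blk 0 (cf S' U' w)) := r1.trans r2.symm
    have hρ : ∀ x : R, ∃ y : S' ⊕ {q : Fin p × κ // q.2 ∈ U' q.1}, ∀ u : Fin p → κ → ι,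
        cf S' U' u y = cf S U u x := by
      rintro ⟨x, hx⟩
      rcases x with a | q
      · exact ⟨Sum.inl ⟨a, (hS' a).2 ⟨a.2, hx⟩⟩, fun u => rfl⟩
      · have h1 : U q.1.1 ≠ univ := by
          intro h
          rw [hR] at hx
          exact hx _ (cf_full hH S U v q.1.1 (hv _).ca h) ⟨q, rfl, rfl⟩
        exact ⟨Sum.inr ⟨q.1, (hU' _ _).2 ⟨q.2, h1⟩⟩, fun u => rfl⟩
    choose ρ hρ using hρ
    have r4 := r3.comp hH ρ
    have e3 : ∀ u : Fin p → κ → ι, (fun k => (blk 0 (cf S' U' u) :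
        S' ⊕ {q : Fin p × κ // q.2 ∈ U' q.1} → ℕ × ι) (ρ k)) = res R (blk 0 (cf S U u)) := by
      intro u
      funext x
      show (0, cf S' U' u (ρ x)) = ((0, cf S U u x) : ℕ × ι)
      rw [hρ]
    rw [e3, e3] at r4
    exact r4

end Pool.H17.TB
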