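import Pool.Agent.H17.TB.PCh
import Pool.Agent.H17.TB.Static

/-!
# The cells between `x n` and the far cells of a pure chain `x`
-/

set_option autoImplicit false

namespace Pool.H17.TB

open Pool.H22.VC Function Set Pool.H17.TA

variable {r : ℕ} {K ι κ κ' : Type} {N : Col r K ℕ} {A : Set ℕ} {x : ℕ → κ → ℕ}

/-- `v` looks, over `A` and the blocks `≤ n` or `≥ L`, like the block `n + 1` -/
def VL (N : Col r K ℕ) (A : Set ℕ) (x : ℕ → κ → ℕ) (n L : ℕ) (v : κ → ℕ) : Prop :=
  Injective v ∧ (∀ k, v k ∉ A) ∧ (∀ i c k, (i ≤ n ∨ L ≤ i) → v k ≠ x i c) ∧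
    ∀ t : Fin r → ℕ ⊕ ((ℕ × κ) ⊕ κ), (∀ j a, t j = Sum.inl a → a ∈ A) →
      (∀ j p, t j = Sum.inr (Sum.inl p) → p.1 ≤ n ∨ L ≤ p.1) →
        N (fun j => Sum.elim id (Sum.elim (fun p => x p.1 p.2) v) (t j)) =
          N (fun j => Sum.elim id (Sum.elim (fun p => x p.1 p.2) (x (n + 1))) (t j))

/-- the cells between `x n` and the far cells -/
def VV (N : Col r K ℕ) (A : Set ℕ) (x : ℕ → κ → ℕ) (n : ℕ) : Set (κ → ℕ) :=
  {v | ∃ L, n + 1 < L ∧ VL N A x n L v}

/-- the `p` cells `v` look, over `A` and the blocks `≤ n` or `≥ L`, like the blocks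
`n + 1, …, n + p` (in this order) -/
def VT (N : Col r K ℕ) (A : Set ℕ) (x : ℕ → κ → ℕ) {p : ℕ} (n L : ℕ) (v : Fin p → κ → ℕ) : Prop :=
  ∀ t : Fin r → ℕ ⊕ ((ℕ × κ) ⊕ (Fin p × κ)), (∀ j a, t j = Sum.inl a → a ∈ A) →
    (∀ j p, t j = Sum.inr (Sum.inl p) → p.1 ≤ n ∨ L ≤ p.1) →
      N (fun j => Sum.elim id (Sum.elim (fun p => x p.1 p.2) (fun q => v q.1 q.2)) (t j)) =
        N (fun j => Sum.elim id (Sum.elim (fun p => x p.1 p.2)
          (fun q => x (n + 1 + (q.1 : ℕ)) q.2)) (t j))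

/-- the order of the cells in `VV` -/
def LT (N : Col r K ℕ) (A : Set ℕ) (x : ℕ → κ → ℕ) (n : ℕ) (v w : κ → ℕ) : Prop :=
  ∃ L, n + 2 < L ∧ VT N A x n L ![v, w]

/-- relocation of slots -/
theorem v_reblk (hH : Hom N A x) {S : Type} (β β' : S → ℕ) (τ : Fin r → ℕ ⊕ (S × κ))
    (hτ : ∀ j a, τ j = Sum.inl a → a ∈ A)
    (h : ∀ j j' p p', τ j = Sum.inr p → τ j' = Sum.inr p' →
      (β p.1 < β p'.1 ↔ β' p.1 < β' p'.1)) :
    N (fun j => Sum.elim id (fun p => x (β p.1) p.2) (τ j)) =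
      N (fun j => Sum.elim id (fun p => x (β' p.1) p.2) (τ j)) := by
  have h0 := hH.pat (fun j => Sum.map id (fun p => (β p.1, p.2)) (τ j))
    (fun j => Sum.map id (fun p => (β' p.1, p.2)) (τ j)) ?_ ?_ ?_
  · have e1 : ∀ β : S → ℕ, (fun j => TA.ev x (Sum.map id (fun p => (β p.1, p.2)) (τ j))) =
        fun j => Sum.elim id (fun p => x (β p.1) p.2) (τ j) := by
      intro β
      funext j
      rcases τ j with a | p <;> rfl
    rw [e1, e1] at h0
    exact h0
  · intro j a hj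
    rcases htj : τ j with a' | p
    · rw [htj] at hj
      have h1 : a' = a := Sum.inl.inj hj
      subst h1
      exact ⟨hτ j a' htj, rfl⟩
    · rw [htj] at hj
      exact absurd hj (by simp)
  · intro j i c hj
    rcases htj : τ j with a' | p
    · rw [htj] at hj
      exact absurd hj (by simp)
    · rw [htj] at hj
      have h1 := Sum.inr.inj hj
      refine ⟨β' p.1, ?_⟩
      have h2 : p.2 = c := congrArg Prod.snd h1
      show Sum.inr (β' p.1, p.2) = _
      rw [h2]
  · intro j j' i c i' c' k d k' d' h1 h2 h3 h4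
    rcases htj : τ j with a' | p
    · rw [htj] at h1
      exact absurd h1 (by simp)
    rcases htj' : τ j' with a' | p'
    · rw [htj'] at h2
      exact absurd h2 (by simp)
    rw [htj] at h1 h3
    rw [htj'] at h2 h4
    have g1 : β p.1 = i := congrArg Prod.fst (Sum.inr.inj h1)
    have g2 : β p'.1 = i' := congrArg Prod.fst (Sum.inr.inj h2)
    have g3 : β' p.1 = k := congrArg Prod.fst (Sum.inr.inj h3)
    have g4 : β' p'.1 = k' := congrArg Prod.fst (Sum.inr.inj h4)
    rw [← g1, ← g2, ← g3, ← g4]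
    exact h j j' p p' htj htj'

/-- relocation of some cells in a context -/
theorem v_relocs (hH : Hom N A x) {S : Type} (β β' : S → ℕ)
    (t : Fin r → ℕ ⊕ ((ℕ × κ) ⊕ (S × κ))) (ht : ∀ j a, t j = Sum.inl a → a ∈ A)
    (h1 : ∀ j p, t j = Sum.inr (Sum.inl p) → ∀ s, (p.1 < β s ↔ p.1 < β' s) ∧
      (β s < p.1 ↔ β' s < p.1))
    (h2 : ∀ s s', β s < β s' ↔ β' s < β' s') :
    N (fun j => Sum.elim id (Sum.elim (fun p => x p.1 p.2) (fun q => x (β q.1) q.2)) (t j)) =
      N (fun j => Sum.elim id (Sum.elim (fun p => x p.1 p.2)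
        (fun q => x (β' q.1) q.2)) (t j)) := by
  let τ : Fin r → ℕ ⊕ ((ℕ ⊕ S) × κ) := fun j => Sum.map id
    (Sum.elim (fun p => (Sum.inl p.1, p.2)) (fun q => (Sum.inr q.1, q.2))) (t j)
  have h0 := v_reblk hH (Sum.elim id β) (Sum.elim id β') τ ?_ ?_
  · have e1 : ∀ β : S → ℕ, (fun j => Sum.elim id (fun p => x ((Sum.elim id β : ℕ ⊕ S → ℕ) p.1) p.2)
        (τ j)) = fun j => Sum.elim id (Sum.elim (fun p => x p.1 p.2)
          (fun q => x (β q.1) q.2)) (t j) := by
      intro β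
      funext j
      show _ = Sum.elim id _ (t j)
      simp only [τ]
      rcases t j with a | p | q <;> rfl
    rw [e1, e1] at h0
    exact h0
  · intro j a hj
    rcases htj : t j with a' | p
    · have h3 : τ j = Sum.inl a' := by
        simp only [τ, htj, Sum.map_inl, id]
      rw [h3] at hj
      rw [← Sum.inl.inj hj]
      exact ht j a' htj
    · have h3 : ∃ q, τ j = Sum.inr q := by
        simp only [τ, htj, Sum.map_inr]
        exact ⟨_, rfl⟩
      obtain ⟨q, hq⟩ := h3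
      rw [hq] at hj
      exact absurd hj (by simp)
  · intro j j' q q' hj hj'
    rcases htj : t j with a' | p | s
    · simp [τ, htj] at hj
    · rcases htj' : t j' with a' | p' | s'
      · simp [τ, htj'] at hj'
      · simp only [τ, htj, htj', Sum.map_inr, Sum.elim_inl, Sum.inr.injEq] at hj hj'
        rw [← hj, ← hj']
        exact Iff.rfl
      · simp only [τ, htj, htj', Sum.map_inr, Sum.elim_inl, Sum.elim_inr, Sum.inr.injEq] at hj hj'
        rw [← hj, ← hj']
        exact (h1 j p htj s'.1).1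
    · rcases htj' : t j' with a' | p' | s'
      · simp [τ, htj'] at hj'
      · simp only [τ, htj, htj', Sum.map_inr, Sum.elim_inl, Sum.elim_inr, Sum.inr.injEq] at hj hj'
        rw [← hj, ← hj']
        exact (h1 j' p' htj' s.1).2
      · simp only [τ, htj, htj', Sum.map_inr, Sum.elim_inr, Sum.inr.injEq] at hj hj'
        rw [← hj, ← hj']
        exact h2 s.1 s'.1

/-- relocation of one cell in a context -/
theorem v_reloc1 (hH : Hom N A x) (l l' : ℕ) (t : Fin r → ℕ ⊕ ((ℕ × κ) ⊕ κ))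
    (ht : ∀ j a, t j = Sum.inl a → a ∈ A)
    (h1 : ∀ j p, t j = Sum.inr (Sum.inl p) → (p.1 < l ↔ p.1 < l') ∧ (l < p.1 ↔ l' < p.1)) :
    N (fun j => Sum.elim id (Sum.elim (fun p => x p.1 p.2) (x l)) (t j)) =
      N (fun j => Sum.elim id (Sum.elim (fun p => x p.1 p.2) (x l')) (t j)) := by
  let t' : Fin r → ℕ ⊕ ((ℕ × κ) ⊕ (Unit × κ)) := fun j =>
    Sum.map id (Sum.map id (fun k => ((), k))) (t j)
  have h0 := v_relocs hH (fun _ : Unit => l) (fun _ : Unit => l') t' ?_ ?_
    (fun _ _ => iff_of_false (lt_irrefl _) (lt_irrefl _))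
  · have e1 : ∀ l : ℕ, (fun j => Sum.elim id (Sum.elim (fun p => x p.1 p.2)
        (fun q : Unit × κ => x l q.2)) (t' j)) =
        fun j => Sum.elim id (Sum.elim (fun p => x p.1 p.2) (x l)) (t j) := by
      intro l
      funext j
      simp only [t']
      rcases t j with a | p | q <;> rfl
    rw [e1, e1] at h0
    exact h0
  · intro j a hj
    rcases htj : t j with a' | p | q <;> simp only [htj, t', Sum.map_inl, Sum.map_inr, id,
      Sum.inl.injEq, reduceCtorEq] at hj
    rw [← hj]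
    exact ht j a' htj
  · intro j p hj s
    rcases htj : t j with a' | p' | q <;> simp only [htj, t', Sum.map_inl, Sum.map_inr, id,
      Sum.inr.injEq, Sum.inl.injEq, reduceCtorEq] at hj
    rw [← hj]
    exact h1 j p' htj

/-- evaluation of a context for a pair of cells, with far blocks -/
def vEC (x : ℕ → κ → ℕ) (b : ℕ) (u u' : κ → ℕ) :
    ℕ ⊕ ((ℕ × κ) ⊕ ((κ ⊕ κ) ⊕ (ℕ × κ))) → ℕ :=
  Sum.elim id (Sum.elim (fun p => x p.1 p.2) (Sum.elim (Sum.elim u u')
    (fun p => x (b + p.1) p.2)))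

/-- A context which shows the order of two cells of the chain: the front blocks are `< r`. -/
theorem v_ctx2 (hP : PCh N A x) : ∃ (t : Fin r → ℕ ⊕ ((ℕ × κ) ⊕ ((κ ⊕ κ) ⊕ (ℕ × κ)))) (c c' : K),
    (∀ j a, t j = Sum.inl a → a ∈ A) ∧ (∀ j p, t j = Sum.inr (Sum.inl p) → p.1 < r) ∧ c ≠ c' ∧
    ∀ l l' b : ℕ, r ≤ l → l < l' → l' < b → N (fun j => vEC x b (x l) (x l') (t j)) = c ∧
      N (fun j => vEC x b (x l') (x l) (t j)) = c' := by
  classical
  have h1 : ¬ Teq N A x (Sum.elim (blk 0 (id : κ → κ)) (blk 1 (id : κ → κ)))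
    (Sum.elim (blk 1 (id : κ → κ)) (blk 0 (id : κ → κ))) := hP.ca.nperp
  unfold Teq at h1
  push Not at h1
  obtain ⟨f, b, b', hb, hb', hz, hz', t, ht, hne⟩ := h1
  rcases Nat.eq_zero_or_pos r with hr | hr
  · subst hr
    exact absurd (congrArg N (Subsingleton.elim _ _)) hne
  obtain ⟨k₀⟩ : Nonempty κ := by
    by_contra he
    rw [not_nonempty_iff] at he
    refine hP.ca.nperp (teq_pat hP.hom _ _ ?_ ?_)
    · rintro (k | k) <;> exact (he.false k).elim
    · rintro (k | k) <;> exact (he.false k).elim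
  have : NeZero r := ⟨hr.ne'⟩
  obtain ⟨u, hu⟩ := exists_front t
  let m : ℕ ⊕ ((ℕ × κ) ⊕ ((κ ⊕ κ) ⊕ (ℕ × κ))) → ℕ ⊕ ((ℕ × κ) ⊕ ((κ ⊕ κ) ⊕ (ℕ × κ))) :=
    Sum.map id (Sum.map (fun p => ((u p.1 : ℕ), p.2)) id)
  let τ : Fin r → ℕ ⊕ ((ℕ ⊕ (Bool ⊕ ℕ)) × κ) := fun j => Sum.map id
    (Sum.elim (fun p => (Sum.inl p.1, p.2)) (Sum.elim
      (Sum.elim (fun k => (Sum.inr (Sum.inl false), k)) (fun k => (Sum.inr (Sum.inl true), k)))
      (fun p => (Sum.inr (Sum.inr p.1), p.2)))) (t j)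
  have hτ : ∀ j a, τ j = Sum.inl a → a ∈ A := by
    intro j a hj
    rcases htj : t j with a' | p
    · have h3 : τ j = Sum.inl a' := by
        simp only [τ, htj, Sum.map_inl, id]
      rw [h3] at hj
      rw [← Sum.inl.inj hj]
      exact ht.1 j a' htj
    · have h3 : ∃ q, τ j = Sum.inr q := by
        simp only [τ, htj, Sum.map_inr]
        exact ⟨_, rfl⟩
      obtain ⟨q, hq⟩ := h3
      rw [hq] at hj
      exact absurd hj (by simp)
  have key : ∀ (l₀ l₁ b l l' b₁ : ℕ), (l₀ < l₁ ↔ l < l') → (l₁ < l₀ ↔ l' < l) → f ≤ l₀ →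
      f ≤ l₁ → l₀ < b → l₁ < b → r ≤ l → r ≤ l' → l < b₁ → l' < b₁ →
      N (fun j => Sum.elim id (Sum.elim (fun p => x p.1 p.2) (Sum.elim (Sum.elim (x l₀) (x l₁))
        (fun p => x (b + p.1) p.2))) (t j)) = N (fun j => vEC x b₁ (x l) (x l') (m (t j))) := by
    intro l₀ l₁ b l l' b₁ g1 g2 g3 g4 g5 g6 g7 g8 g9 g10
    have h0 := v_reblk hP.hom (Sum.elim id (Sum.elim (fun c => cond c l₁ l₀) (fun i => b + i)))
      (Sum.elim (fun i => (u i : ℕ)) (Sum.elim (fun c => cond c l' l) (fun i => b₁ + i))) τ hτ ?_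
    · have e1 : (fun j => Sum.elim id (fun p => x ((Sum.elim id (Sum.elim (fun c => cond c l₁ l₀)
          (fun i => b + i)) : ℕ ⊕ (Bool ⊕ ℕ) → ℕ) p.1) p.2) (τ j)) =
          fun j => Sum.elim id (Sum.elim (fun p => x p.1 p.2) (Sum.elim (Sum.elim (x l₀) (x l₁))
            (fun p => x (b + p.1) p.2))) (t j) := by
        funext j
        simp only [τ]
        rcases t j with a | p | (k | k) | p <;> rfl
      have e2 : (fun j => Sum.elim id (fun p => x ((Sum.elim (fun i => (u i : ℕ))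
          (Sum.elim (fun c => cond c l' l) (fun i => b₁ + i)) : ℕ ⊕ (Bool ⊕ ℕ) → ℕ) p.1) p.2)
            (τ j)) = fun j => vEC x b₁ (x l) (x l') (m (t j)) := by
        funext j
        simp only [τ]
        rcases t j with a | p | (k | k) | p <;> rfl
      rw [e1, e2] at h0
      exact h0
    · intro j j' q q' hj hj'
      rcases htj : t j with a' | p | (k | k) | p <;> rcases htj' : t j' with a' | p' | (k' | k') | p'
        <;> simp only [τ, htj, htj', Sum.map_inr, Sum.map_inl, Sum.elim_inl, Sum.elim_inr,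
          Sum.inr.injEq, reduceCtorEq] at hj hj'
      all_goals rw [← hj, ← hj']
      all_goals simp only [Sum.elim_inl, Sum.elim_inr, id, cond_true, cond_false]
      · exact hu j j' p p' htj htj'
      all_goals
        try have := ht.2 j p htj
        try have := (u p.1).2
        try have := ht.2 j' p' htj'
        try have := (u p'.1).2
        omega
  refine ⟨fun j => m (t j), _, _, ?_, ?_, hne, fun l l' b₁ h1 h2 h3 => ⟨?_, ?_⟩⟩
  · intro j a hj
    rcases htj : t j with a' | p | k | p <;> simp only [htj, m, Sum.map_inl, Sum.map_inr, id,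
      Sum.inl.injEq, reduceCtorEq] at hj
    rw [← hj]
    exact ht.1 j a' htj
  · intro j p hj
    rcases htj : t j with a' | p' | k | p' <;> simp only [htj, m, Sum.map_inl, Sum.map_inr, id,
      Sum.inr.injEq, Sum.inl.injEq, reduceCtorEq] at hj
    rw [← hj]
    exact (u p'.1).2
  · have g1 : f + 0 < b := hz (Sum.inl k₀)
    have g2 : f + 1 < b := hz (Sum.inr k₀)
    have e3 : (fun j => pl x f b (Sum.elim (blk 0 (id : κ → κ)) (blk 1 (id : κ → κ))) (t j)) =
        fun j => Sum.elim id (Sum.elim (fun p => x p.1 p.2)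
          (Sum.elim (Sum.elim (x (f + 0)) (x (f + 1))) (fun p => x (b + p.1) p.2))) (t j) := by
      funext j
      rcases t j with a | p | (k | k) | p <;> rfl
    rw [e3]
    exact (key (f + 0) (f + 1) b l l' b₁ (by omega) (by omega) (by omega) (by omega) g1 g2 h1
      (by omega) (by omega) h3).symm
  · have g1 : f + 1 < b' := hz' (Sum.inl k₀)
    have g2 : f + 0 < b' := hz' (Sum.inr k₀)
    have e3 : (fun j => pl x f b' (Sum.elim (blk 1 (id : κ → κ)) (blk 0 (id : κ → κ))) (t j)) =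
        fun j => Sum.elim id (Sum.elim (fun p => x p.1 p.2)
          (Sum.elim (Sum.elim (x (f + 1)) (x (f + 0))) (fun p => x (b' + p.1) p.2))) (t j) := by
      funext j
      rcases t j with a | p | (k | k) | p <;> rfl
    rw [e3]
    exact (key (f + 1) (f + 0) b' l' l b₁ (by omega) (by omega) (by omega) (by omega) g1 g2
      (by omega) h1 h3 (by omega)).symm

theorem VL.mono (hP : PCh N A x) {n n' L L' : ℕ} {v : κ → ℕ} (h : VL N A x n L v) (hn : n' ≤ n)
    (hL : L ≤ L') (hnL : n + 1 < L) : VL N A x n' L' v := by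
  obtain ⟨h1, h2, h3, h4⟩ := h
  refine ⟨h1, h2, fun i c k hi => h3 i c k ?_, fun t ht htb => ?_⟩
  · omega
  · have g1 := h4 t ht (fun j p hj => by
      have := htb j p hj
      omega)
    rw [g1]
    refine v_reloc1 hP.hom (n + 1) (n' + 1) t ht fun j p hj => ?_
    have := htb j p hj
    omega

theorem VL_self (hP : PCh N A x) {n L l : ℕ} (h1 : n < l) (h2 : l < L) : VL N A x n L (x l) := by
  refine ⟨fun k k' hk => (hP.hom.inj _ _ _ _ hk).2, fun k => hP.hom.notA _ k, fun i c k hi h => ?_,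
    fun t ht htb => ?_⟩
  · have := (hP.hom.inj _ _ _ _ h).1
    omega
  · refine v_reloc1 hP.hom l (n + 1) t ht fun j p hj => ?_
    have := htb j p hj
    omega

theorem VV_self (hP : PCh N A x) {n l : ℕ} (h1 : n < l) : x l ∈ VV N A x n := by
  exact ⟨l + 1, by omega, VL_self hP h1 (by omega)⟩

theorem VV_anti (hP : PCh N A x) {n n' : ℕ} (h : n' ≤ n) : VV N A x n ⊆ VV N A x n' := by
  rintro v ⟨L, hL, hv⟩
  exact ⟨L, by omega, hv.mono hP h le_rfl hL⟩

theorem VT.mono (hP : PCh N A x) {p n L L' : ℕ} {v : Fin p → κ → ℕ} (h : VT N A x n L v)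
    (hL : L ≤ L') : VT N A x n L' v := by
  intro t ht htb
  exact h t ht fun j p hj => by
    have := htb j p hj
    omega

/-- restriction of `VT` to fewer cells (strictly monotone `ρ`) -/
theorem VT.comp (hP : PCh N A x) {p p' n L : ℕ} {v : Fin p → κ → ℕ} (h : VT N A x n L v)
    (hL : n + p < L) (ρ : Fin p' → Fin p) (hρ : StrictMono ρ) :
    VT N A x n L (fun s => v (ρ s)) := by
  intro t ht htb
  have hp : p' ≤ p := by
    have := Fintype.card_le_of_injective ρ hρ.injective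
    simpa using this
  let m : ℕ ⊕ ((ℕ × κ) ⊕ (Fin p' × κ)) → ℕ ⊕ ((ℕ × κ) ⊕ (Fin p × κ)) :=
    Sum.map id (Sum.map id (fun q => (ρ q.1, q.2)))
  have g1 := h (fun j => m (t j)) ?_ ?_
  · have e1 : (fun j => Sum.elim id (Sum.elim (fun p => x p.1 p.2) (fun q => v q.1 q.2))
        (m (t j))) = fun j => Sum.elim id (Sum.elim (fun p => x p.1 p.2)
          (fun q => v (ρ q.1) q.2)) (t j) := by
      funext j
      rcases t j with a | p | q <;> rfl
    have e2 : (fun j => Sum.elim id (Sum.elim (fun p => x p.1 p.2)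
        (fun q : Fin p × κ => x (n + 1 + (q.1 : ℕ)) q.2)) (m (t j))) =
          fun j => Sum.elim id (Sum.elim (fun p => x p.1 p.2)
            (fun q => x (n + 1 + (ρ q.1 : ℕ)) q.2)) (t j) := by
      funext j
      rcases t j with a | p | q <;> rfl
    rw [e1, e2] at g1
    rw [g1]
    refine v_relocs hP.hom (fun s : Fin p' => n + 1 + (ρ s : ℕ)) (fun s : Fin p' => n + 1 + (s : ℕ))
      t ht (fun j q hj s => ?_) (fun s s' => ?_)
    · have g2 := htb j q hj
      have g3 := (ρ s).2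
      have g4 := s.2
      omega
    · have g5 : s < s' ↔ ρ s < ρ s' := hρ.lt_iff_lt.symm
      rw [Fin.lt_def, Fin.lt_def] at g5
      omega
  · intro j a hj
    rcases htj : t j with a' | p | q <;> simp only [htj, m, Sum.map_inl, Sum.map_inr, id,
      Sum.inl.injEq, reduceCtorEq] at hj
    rw [← hj]
    exact ht j a' htj
  · intro j q hj
    rcases htj : t j with a' | p' | q' <;> simp only [htj, m, Sum.map_inl, Sum.map_inr, id,
      Sum.inr.injEq, Sum.inl.injEq, reduceCtorEq] at hj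
    rw [← hj]
    exact htb j p' htj

/-- Not both orders: a visible difference of the types of `(x 0, x 1)` and `(x 1, x 0)` over a context
with at most `r` blocks in front and some far blocks behind (`CA.nperp`), `n ≥ r`. -/
theorem LT_asymm (hP : PCh N A x) {n : ℕ} (hn : r ≤ n) {v w : κ → ℕ} (h : LT N A x n v w) :
    ¬ LT N A x n w v := by
  rintro ⟨L', hL', h'⟩
  obtain ⟨L, hL, h⟩ := h
  obtain ⟨t, c, c', t1, t2, hc, t3⟩ := v_ctx2 hP
  obtain ⟨g1, g2⟩ := t3 (n + 1) (n + 2) (L + L') (by omega) (by omega) (by omega)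
  let m : Fin 2 → Fin 2 → ℕ ⊕ ((ℕ × κ) ⊕ ((κ ⊕ κ) ⊕ (ℕ × κ))) →
      ℕ ⊕ ((ℕ × κ) ⊕ (Fin 2 × κ)) := fun i i' =>
    Sum.elim Sum.inl (Sum.elim (fun p => Sum.inr (Sum.inl p))
      (Sum.elim (Sum.elim (fun k => Sum.inr (Sum.inr (i, k))) (fun k => Sum.inr (Sum.inr (i', k))))
        (fun p => Sum.inr (Sum.inl (L + L' + p.1, p.2)))))
  have m1 : ∀ i i' j a, m i i' (t j) = Sum.inl a → a ∈ A := by
    intro i i' j a hj
    rcases htj : t j with a' | p | (k | k) | p <;> rw [htj] at hj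
    · rw [← Sum.inl.inj hj]
      exact t1 j a' htj
    all_goals exact absurd hj (by simp [m])
  have m2 : ∀ i i' j p, m i i' (t j) = Sum.inr (Sum.inl p) → p.1 ≤ n ∨ L + L' ≤ p.1 := by
    intro i i' j p hj
    rcases htj : t j with a' | p' | (k | k) | p' <;> rw [htj] at hj
    · exact absurd hj (by simp [m])
    · have g3 : p' = p := Sum.inl.inj (Sum.inr.inj hj)
      rw [← g3]
      have g4 := t2 j p' htj
      omega
    · exact absurd hj (by simp [m])
    · exact absurd hj (by simp [m])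
    · have g3 : (L + L' + p'.1, p'.2) = p := Sum.inl.inj (Sum.inr.inj hj)
      rw [← g3]
      show L + L' + p'.1 ≤ n ∨ L + L' ≤ L + L' + p'.1
      omega
  have h1 := h (fun j => m 0 1 (t j)) (m1 0 1) (fun j p hj => by
    have := m2 0 1 j p hj
    omega)
  have h2 := h' (fun j => m 1 0 (t j)) (m1 1 0) (fun j p hj => by
    have := m2 1 0 j p hj
    omega)
  have e1 : (fun j => Sum.elim id (Sum.elim (fun p => x p.1 p.2)
      (fun q : Fin 2 × κ => (![v, w] : Fin 2 → κ → ℕ) q.1 q.2)) (m 0 1 (t j))) =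
        fun j => vEC x (L + L') v w (t j) := by
    funext j
    rcases t j with a | p | (k | k) | p <;> rfl
  have e2 : (fun j => Sum.elim id (Sum.elim (fun p => x p.1 p.2)
      (fun q : Fin 2 × κ => (![w, v] : Fin 2 → κ → ℕ) q.1 q.2)) (m 1 0 (t j))) =
        fun j => vEC x (L + L') v w (t j) := by
    funext j
    rcases t j with a | p | (k | k) | p <;> rfl
  have e3 : (fun j => Sum.elim id (Sum.elim (fun p => x p.1 p.2)
      (fun q : Fin 2 × κ => x (n + 1 + (q.1 : ℕ)) q.2)) (m 0 1 (t j))) =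
        fun j => vEC x (L + L') (x (n + 1)) (x (n + 2)) (t j) := by
    funext j
    rcases t j with a | p | (k | k) | p <;> rfl
  have e4 : (fun j => Sum.elim id (Sum.elim (fun p => x p.1 p.2)
      (fun q : Fin 2 × κ => x (n + 1 + (q.1 : ℕ)) q.2)) (m 1 0 (t j))) =
        fun j => vEC x (L + L') (x (n + 2)) (x (n + 1)) (t j) := by
    funext j
    rcases t j with a | p | (k | k) | p <;> rfl
  rw [e1, e3, g1] at h1
  rw [e2, e4, g2] at h2
  exact hc (h1.symm.trans h2)

/-- Every cell is in finitely many of the sets `VV n` only. PROOF. Let `VL n₀ L v`, `n₀ ≥ r`, and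
suppose `VL n L' v` for some `n ≥ L`. A context showing the difference of `(x 0, x 1)` and
`(x 1, x 0)` with front blocks `< r`, the pair `v`, `x L`, and far blocks: by the first property the
colour is the one of `(x (n₀ + 1), x L)`, by the second the one of `(x (n + 1), x L)`. -/
theorem VV_dec (hP : PCh N A x) {n₀ : ℕ} (hn : r ≤ n₀) {v : κ → ℕ} (h : v ∈ VV N A x n₀) :
    ∃ n₁, ∀ n, n₁ ≤ n → v ∉ VV N A x n := by
  obtain ⟨L, hL, h1, h2, h3, h4⟩ := h
  refine ⟨L, fun n hnL hv => ?_⟩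
  obtain ⟨L', hL', -, -, -, h4'⟩ := hv
  obtain ⟨t, c, c', t1, t2, hc, t3⟩ := v_ctx2 hP
  obtain ⟨g1, -⟩ := t3 (n₀ + 1) L L' (by omega) (by omega) (by omega)
  obtain ⟨-, g2⟩ := t3 L (n + 1) L' (by omega) (by omega) (by omega)
  let m : ℕ ⊕ ((ℕ × κ) ⊕ ((κ ⊕ κ) ⊕ (ℕ × κ))) → ℕ ⊕ ((ℕ × κ) ⊕ κ) :=
    Sum.elim Sum.inl (Sum.elim (fun p => Sum.inr (Sum.inl p))
      (Sum.elim (Sum.elim (fun k => Sum.inr (Sum.inr k)) (fun k => Sum.inr (Sum.inl (L, k))))
        (fun p => Sum.inr (Sum.inl (L' + p.1, p.2)))))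
  have m1 : ∀ j a, m (t j) = Sum.inl a → a ∈ A := by
    intro j a hj
    rcases htj : t j with a' | p | (k | k) | p <;> rw [htj] at hj
    · rw [← Sum.inl.inj hj]
      exact t1 j a' htj
    all_goals exact absurd hj (by simp [m])
  have m2 : ∀ j p, m (t j) = Sum.inr (Sum.inl p) → p.1 ≤ n₀ ∨ p.1 = L ∨ L' ≤ p.1 := by
    intro j p hj
    rcases htj : t j with a' | p' | (k | k) | p' <;> rw [htj] at hj
    · exact absurd hj (by simp [m])
    · have g3 : p' = p := Sum.inl.inj (Sum.inr.inj hj)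
      rw [← g3]
      have g4 := t2 j p' htj
      omega
    · exact absurd hj (by simp [m])
    · have g3 : (L, k) = p := Sum.inl.inj (Sum.inr.inj hj)
      rw [← g3]
      exact Or.inr (Or.inl rfl)
    · have g3 : (L' + p'.1, p'.2) = p := Sum.inl.inj (Sum.inr.inj hj)
      rw [← g3]
      show L' + p'.1 ≤ n₀ ∨ L' + p'.1 = L ∨ L' ≤ L' + p'.1
      omega
  have q1 := h4 (fun j => m (t j)) m1 (fun j p hj => by
    have := m2 j p hj
    omega)
  have q2 := h4' (fun j => m (t j)) m1 (fun j p hj => by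
    have := m2 j p hj
    omega)
  have e1 : ∀ u : κ → ℕ, (fun j => Sum.elim id (Sum.elim (fun p => x p.1 p.2) u) (m (t j))) =
      fun j => vEC x L' u (x L) (t j) := by
    intro u
    funext j
    rcases t j with a | p | (k | k) | p <;> rfl
  rw [e1, e1, g1] at q1
  rw [e1, e1, g2] at q2
  exact hc (q1.symm.trans q2)

end Pool.H17.TB
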